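import Mathlib

/-!
# Words in a free associative algebra over the rational numbers

`wd w` is the monomial of the word `w`, `cf w` the coefficient functional of `w`, `J x` removes a
leading letter `x` (and kills all other words), `der g` is the derivation with `der g x = g x`.
-/

set_option autoImplicit false

namespace Pool.Agent.W_cf9a97_h77

open FreeAlgebra

variable {X : Type*}

/-- The monomial of a word. -/
noncomputable def wd (w : List X) : FreeAlgebra ℚ X := (w.map (ι ℚ)).prod

@[simp] theorem wd_nil : wd ([] : List X) = 1 := rfl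

@[simp] theorem wd_cons (x : X) (w : List X) : wd (x :: w) = ι ℚ x * wd w := by
  simp [wd]

theorem wd_append (u v : List X) : wd (u ++ v) = wd u * wd v := by
  simp [wd]

/-- The basis of words. -/
noncomputable def bas : Module.Basis (List X) ℚ (FreeAlgebra ℚ X) :=
  FreeAlgebra.basisFreeMonoid ℚ X

theorem bas_apply (w : List X) : bas w = wd w := by
  have h : (FreeAlgebra.equivMonoidAlgebraFreeMonoid (R := ℚ) (X := X)) (wd w) =
      MonoidAlgebra.single (FreeMonoid.ofList w) 1 := by
    induction w with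
    | nil => simp [MonoidAlgebra.one_def]
    | cons x w ih =>
      rw [wd_cons, map_mul, ih]
      simp [FreeAlgebra.equivMonoidAlgebraFreeMonoid, MonoidAlgebra.single_mul_single]
  have h2 : wd w = (FreeAlgebra.equivMonoidAlgebraFreeMonoid (R := ℚ) (X := X)).symm
      (MonoidAlgebra.single (FreeMonoid.ofList w) 1) := by
    rw [← h]; simp
  rw [h2]
  simp [bas, FreeAlgebra.basisFreeMonoid]
  rfl

/-- The coefficient of a word. -/
noncomputable def cf (w : List X) : FreeAlgebra ℚ X →ₗ[ℚ] ℚ := bas.coord w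

theorem cf_wd [DecidableEq X] (u w : List X) : cf u (wd w) = if w = u then 1 else 0 := by
  rw [← bas_apply, cf, Module.Basis.coord_apply, Module.Basis.repr_self, Finsupp.single_apply]

theorem ext_cf {a b : FreeAlgebra ℚ X} (h : ∀ w, cf w a = cf w b) : a = b :=
  bas.ext_elem h

/-- The linear map with prescribed values on the words. -/
noncomputable def lin {M : Type*} [AddCommGroup M] [Module ℚ M] (f : List X → M) :
    FreeAlgebra ℚ X →ₗ[ℚ] M := bas.constr ℚ f

theorem lin_wd {M : Type*} [AddCommGroup M] [Module ℚ M] (f : List X → M) (w : List X) :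
    lin f (wd w) = f w := by
  rw [← bas_apply, lin, Module.Basis.constr_basis]

theorem hom_ext_wd {M : Type*} [AddCommGroup M] [Module ℚ M] {f g : FreeAlgebra ℚ X →ₗ[ℚ] M}
    (h : ∀ w, f (wd w) = g (wd w)) : f = g :=
  bas.ext (fun w => by rw [bas_apply]; exact h w)

theorem span_wd : Submodule.span ℚ (Set.range (wd : List X → FreeAlgebra ℚ X)) = ⊤ := by
  have h := (bas (X := X)).span_eq
  have h2 : (⇑(bas (X := X))) = (wd : List X → FreeAlgebra ℚ X) := funext bas_apply
  rwa [h2] at h

theorem ind_wd {P : FreeAlgebra ℚ X → Prop} (h0 : P 0) (ha : ∀ a b, P a → P b → P (a + b))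
    (hs : ∀ (c : ℚ) a, P a → P (c • a)) (hw : ∀ w, P (wd w)) (a : FreeAlgebra ℚ X) : P a := by
  have h : a ∈ Submodule.span ℚ (Set.range (wd : List X → FreeAlgebra ℚ X)) := by
    rw [span_wd]; trivial
  induction h using Submodule.span_induction with
  | mem x hx => obtain ⟨w, rfl⟩ := hx; exact hw w
  | zero => exact h0
  | add x y _ _ hx hy => exact ha x y hx hy
  | smul c x _ hx => exact hs c x hx

/-- Remove the leading letter `x`. -/
noncomputable def J [DecidableEq X] (x : X) : FreeAlgebra ℚ X →ₗ[ℚ] FreeAlgebra ℚ X :=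
  lin (fun w => match w with
    | [] => 0
    | y :: v => if y = x then wd v else 0)

theorem J_one [DecidableEq X] (x : X) : J x (1 : FreeAlgebra ℚ X) = 0 := by
  rw [← wd_nil, J, lin_wd]

theorem J_ι_mul [DecidableEq X] (x y : X) (a : FreeAlgebra ℚ X) :
    J x (ι ℚ y * a) = if y = x then a else 0 := by
  induction a using ind_wd with
  | h0 => simp
  | ha a b ha hb => rw [mul_add, map_add, ha, hb]; split_ifs <;> simp
  | hs c a ha => rw [mul_smul_comm, map_smul, ha]; split_ifs <;> simp
  | hw w => rw [← wd_cons, J, lin_wd]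

theorem cf_J [DecidableEq X] (x : X) (w : List X) (a : FreeAlgebra ℚ X) :
    cf w (J x a) = cf (x :: w) a := by
  induction a using ind_wd with
  | h0 => simp
  | ha a b ha hb => rw [map_add, map_add, map_add, ha, hb]
  | hs c a ha => rw [map_smul, map_smul, map_smul, ha]
  | hw u =>
    cases u with
    | nil => rw [wd_nil, J_one, map_zero, ← wd_nil, cf_wd]; simp
    | cons y u =>
      rw [wd_cons, J_ι_mul, ← wd_cons, cf_wd]
      by_cases h : y = x
      · rw [if_pos h, cf_wd]; simp [h]
      · rw [if_neg h]; simp [h]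

/-- The derivation with values `g x` on the generators. -/
noncomputable def der (g : X → FreeAlgebra ℚ X) : FreeAlgebra ℚ X →ₗ[ℚ] FreeAlgebra ℚ X :=
  (TrivSqZeroExt.sndHom (FreeAlgebra ℚ X) (FreeAlgebra ℚ X)).restrictScalars ℚ ∘ₗ
    (FreeAlgebra.lift ℚ (fun x => TrivSqZeroExt.inl (ι ℚ x) + TrivSqZeroExt.inr (g x)) :
      FreeAlgebra ℚ X →ₐ[ℚ] TrivSqZeroExt (FreeAlgebra ℚ X) (FreeAlgebra ℚ X)).toLinearMap

/-- The algebra map behind `der`. -/
noncomputable def derHom (g : X → FreeAlgebra ℚ X) :
    FreeAlgebra ℚ X →ₐ[ℚ] TrivSqZeroExt (FreeAlgebra ℚ X) (FreeAlgebra ℚ X) :=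
  FreeAlgebra.lift ℚ (fun x => TrivSqZeroExt.inl (ι ℚ x) + TrivSqZeroExt.inr (g x))

theorem der_eq (g : X → FreeAlgebra ℚ X) (a : FreeAlgebra ℚ X) : der g a = (derHom g a).snd := rfl

theorem derHom_fst (g : X → FreeAlgebra ℚ X) (a : FreeAlgebra ℚ X) : (derHom g a).fst = a := by
  have h : (TrivSqZeroExt.fstHom ℚ (FreeAlgebra ℚ X) (FreeAlgebra ℚ X)).comp (derHom g) =
      AlgHom.id ℚ _ := by
    apply FreeAlgebra.hom_ext
    funext x
    simp [derHom]
  exact DFunLike.congr_fun h a

theorem der_mul (g : X → FreeAlgebra ℚ X) (a b : FreeAlgebra ℚ X) :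
    der g (a * b) = a * der g b + der g a * b := by
  rw [der_eq, der_eq, der_eq, map_mul, TrivSqZeroExt.snd_mul, derHom_fst, derHom_fst]
  simp [smul_eq_mul]

theorem der_ι (g : X → FreeAlgebra ℚ X) (x : X) : der g (ι ℚ x) = g x := by
  rw [der_eq, derHom, FreeAlgebra.lift_ι_apply]
  simp

theorem der_one (g : X → FreeAlgebra ℚ X) : der g (1 : FreeAlgebra ℚ X) = 0 := by
  rw [der_eq, map_one]
  simp

/-- Two derivations agreeing on the generators agree. -/
theorem der_unique {D E : FreeAlgebra ℚ X →ₗ[ℚ] FreeAlgebra ℚ X}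
    (hD : ∀ a b, D (a * b) = a * D b + D a * b) (hE : ∀ a b, E (a * b) = a * E b + E a * b)
    (h : ∀ x, D (ι ℚ x) = E (ι ℚ x)) : D = E := by
  have hD1 : D 1 = 0 := by
    have := hD 1 1
    rw [mul_one, one_mul, mul_one] at this
    simpa using this
  have hE1 : E 1 = 0 := by
    have := hE 1 1
    rw [mul_one, one_mul, mul_one] at this
    simpa using this
  apply hom_ext_wd
  intro w
  induction w with
  | nil => rw [wd_nil, hD1, hE1]
  | cons x w ih => rw [wd_cons, hD, hE, ih, h]

end Pool.Agent.W_cf9a97_h77
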