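import Pool.Agent.W_cf9a97_h77.Kappa

/-!
# Families of elements with nonzero depth one part
-/

set_option autoImplicit false

namespace Pool.Agent.W_cf9a97_h77

open FreeAlgebra

attribute [local instance 100] LieRing.ofAssociativeRing

theorem kap_split {n : ℕ} (hn : 1 ≤ n) {a : A2} (ha : a ∈ Hom (Fin 2) n) :
    kap a - cf (xy n) a • e (n - 1) ∈ Fil ℕ 2 := by
  refine Sup_ind (Q := fun w => w.length = n)
    (P := fun a => kap a - cf (xy n) a • e (n - 1) ∈ Fil ℕ 2) ?_ ?_ ?_ ?_ ha
  · rw [map_zero, map_zero, zero_smul, sub_zero]; exact Submodule.zero_mem _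
  · intro a b h1 h2
    have h3 : kap (a + b) - cf (xy n) (a + b) • e (n - 1) =
        (kap a - cf (xy n) a • e (n - 1)) + (kap b - cf (xy n) b • e (n - 1)) := by
      rw [map_add, map_add, add_smul]; abel
    rw [h3]
    exact Submodule.add_mem _ h1 h2
  · intro c a h1
    have h3 : kap (c • a) - cf (xy n) (c • a) • e (n - 1) =
        c • (kap a - cf (xy n) a • e (n - 1)) := by
      rw [map_smul, map_smul, smul_sub, smul_assoc]
    rw [h3]
    exact Submodule.smul_mem _ _ h1
  · intro w hw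
    have hw0 : w ≠ [] := by
      rintro rfl
      simp at hw
      omega
    obtain ⟨h1, h2, h3⟩ := kap_wd w hw0
    rw [hw] at h1 h2
    by_cases h : w = xy n
    · rw [h1 h, cf_wd, if_pos h, one_smul, sub_self]
      exact Submodule.zero_mem _
    · rw [cf_wd, if_neg h, zero_smul, sub_zero]
      exact h2 h

theorem rr_hom {n : ℕ} (hn : 2 ≤ n) {a : A2} (ha : a ∈ Hom (Fin 2) n) (hL : a ∈ LL) :
    rr a = LinearMap.mulLeft ℚ (kap a) := by
  have h1 := (rr_LL hL).1
  have h2 : cf [(0 : Fin 2)] a = 0 := ha _ (by simp; omega)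
  rw [h2, zero_smul, zero_add] at h1
  exact h1

section
variable {X : Type*} (ψ : X → Ih)

/-- The words in the Ihara actions. -/
noncomputable def Th : FreeAlgebra ℚ X →ₐ[ℚ] Module.End ℚ A2 :=
  FreeAlgebra.lift ℚ (fun x => Sr (ψ x).val)

/-- The words in the actions on the letters `e k`. -/
noncomputable def Ph : FreeAlgebra ℚ X →ₐ[ℚ] Module.End ℚ (FreeAlgebra ℚ ℕ) :=
  FreeAlgebra.lift ℚ (fun x => act (kap (ψ x).val))

theorem SS_lift (z : FreeLieAlgebra ℚ X) : SS (FreeLieAlgebra.lift ℚ ψ z) = Th ψ (emb X z) := by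
  have h : SS.comp (FreeLieAlgebra.lift ℚ ψ) =
      ((Th ψ : FreeAlgebra ℚ X →ₐ[ℚ] Module.End ℚ A2) :
        FreeAlgebra ℚ X →ₗ⁅ℚ⁆ Module.End ℚ A2).comp (emb X) := by
    apply FreeLieAlgebra.hom_ext
    intro x
    rw [LieHom.comp_apply, LieHom.comp_apply, emb_of, FreeLieAlgebra.lift_of_apply]
    show Sr (ψ x).val = Th ψ (ι ℚ x)
    rw [Th, FreeAlgebra.lift_ι_apply]
  exact LieHom.congr_fun h z

theorem kap_Th (h : ∀ x, rr (ψ x).val = LinearMap.mulLeft ℚ (kap (ψ x).val))
    (p : FreeAlgebra ℚ X) (w : A2) : kap (Th ψ p w) = Ph ψ p (kap w) := by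
  induction p using ind_wd with
  | h0 => simp
  | ha a b h1 h2 => rw [map_add, map_add, LinearMap.add_apply, map_add, h1, h2]; rfl
  | hs c a h1 => rw [map_smul, map_smul, LinearMap.smul_apply, map_smul, h1]; rfl
  | hw u =>
    induction u with
    | nil => rw [wd_nil, map_one (Th ψ), map_one (Ph ψ)]; rfl
    | cons x u ih =>
      rw [wd_cons, map_mul, map_mul, Module.End.mul_apply, Module.End.mul_apply, ← ih, Th,
        FreeAlgebra.lift_ι_apply, ← Th, kap_Sr (h x), Ph, FreeAlgebra.lift_ι_apply]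

theorem kap_lift (h : ∀ x, rr (ψ x).val = LinearMap.mulLeft ℚ (kap (ψ x).val))
    (z : FreeLieAlgebra ℚ X) :
    kap (FreeLieAlgebra.lift ℚ ψ z).val = Ph ψ (emb X z) 1 := by
  rw [← kap_one, ← kap_Th ψ h, ← SS_lift]
  congr 1
  show _ = Sr _ 1
  rw [Sr_one]

end

section
variable {X : Type*} [DecidableEq X] {ψ : X → Ih} {n : X → ℕ}

omit [DecidableEq X] in
theorem Ph_wd (h2 : ∀ x, 2 ≤ n x) (hh : ∀ x, (ψ x).val ∈ Hom (Fin 2) (n x)) (w : List X) :
    Ph ψ (wd w) 1 ∈ Fil ℕ w.length ∧
      Ph ψ (wd w) 1 - Phi (fun x => n x - 1) (fun x => cf (xy (n x)) (ψ x).val) (wd w) 1 ∈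
        Fil ℕ (w.length + 1) := by
  induction w with
  | nil =>
    rw [wd_nil, map_one (Ph ψ), map_one (Phi _ _), sub_self]
    exact ⟨Hom_le_Fil 0 one_Hom, Submodule.zero_mem _⟩
  | cons x w ih =>
    obtain ⟨ih1, ih2⟩ := ih
    have hs := kap_split (by have := h2 x; omega) (hh x)
    have h1 : Ph ψ (wd (x :: w)) 1 = act (kap (ψ x).val) (Ph ψ (wd w) 1) := by
      rw [wd_cons, map_mul, Module.End.mul_apply]
      conv_lhs => rw [Ph, FreeAlgebra.lift_ι_apply, ← Ph]
    set c : ℚ := cf (xy (n x)) (ψ x).val with hc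
    set b := Ph ψ (wd w) 1 with hb
    set b' := Phi (fun x => n x - 1) (fun x => cf (xy (n x)) (ψ x).val) (wd w) 1 with hb'
    have h3 : Phi (fun x => n x - 1) (fun x => cf (xy (n x)) (ψ x).val) (wd (x :: w)) 1 =
        act (e (n x - 1)) (c • b') := by
      rw [wd_cons, Phi_ι_mul]
    have he : c • e (n x - 1) ∈ Fil ℕ 1 := Submodule.smul_mem _ _ (Hom_le_Fil 1 (ι_Hom _))
    have hk : kap (ψ x).val = c • e (n x - 1) + (kap (ψ x).val - c • e (n x - 1)) := by abel
    have hk1 : kap (ψ x).val ∈ Fil ℕ 1 := by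
      rw [hk]
      exact Submodule.add_mem _ he (Fil_anti (by norm_num) hs)
    refine ⟨?_, ?_⟩
    · rw [h1, List.length_cons]
      exact act_Fil hk1 ih1
    · have h4 : Ph ψ (wd (x :: w)) 1 -
          Phi (fun x => n x - 1) (fun x => cf (xy (n x)) (ψ x).val) (wd (x :: w)) 1 =
          act (c • e (n x - 1)) (b - b') + act (kap (ψ x).val - c • e (n x - 1)) b := by
        rw [h1, h3, map_smul, map_sub, act_smul, act_smul]
        conv_lhs => rw [hk, act_add, act_smul]
        abel
      rw [h4, List.length_cons]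
      refine Submodule.add_mem _ (act_Fil he ih2) ?_
      have := act_Fil hs ih1
      exact Fil_anti (by omega) this

/-- The part of length `r`. -/
noncomputable def prj (r : ℕ) : FreeAlgebra ℚ X →ₗ[ℚ] FreeAlgebra ℚ X :=
  lin (fun w => if w.length = r then wd w else 0)

theorem cf_prj (r : ℕ) (w : List X) (p : FreeAlgebra ℚ X) :
    cf w (prj r p) = if w.length = r then cf w p else 0 := by
  induction p using ind_wd with
  | h0 => simp
  | ha a b h1 h2 => rw [map_add, map_add, map_add, h1, h2]; split_ifs <;> simp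
  | hs c a h1 => rw [map_smul, map_smul, map_smul, h1]; split_ifs <;> simp
  | hw u =>
    rw [prj, lin_wd]
    by_cases h : u.length = r
    · rw [if_pos h, cf_wd]
      by_cases h2 : u = w
      · subst h2; rw [if_pos rfl, if_pos h]
      · rw [if_neg h2, ite_self]
    · rw [if_neg h, map_zero, cf_wd]
      by_cases h2 : u = w
      · subst h2; rw [if_neg h]
      · rw [if_neg h2, ite_self]

/-- The lowest part of a relation is a relation between the depth one parts. -/
theorem lowest (h2 : ∀ x, 2 ≤ n x) (hh : ∀ x, (ψ x).val ∈ Hom (Fin 2) (n x)) {r : ℕ}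
    {p : FreeAlgebra ℚ X} (hp : p ∈ Fil X r) (h : Ph ψ p 1 = 0) :
    Phi (fun x => n x - 1) (fun x => cf (xy (n x)) (ψ x).val) (prj r p) 1 = 0 := by
  have h1 : prj r p ∈ Hom X r := by
    intro w hw
    rw [cf_prj, if_neg hw]
  refine eq_zero_of_Hom_Fil (Phi_Hom _ _ h1) ?_
  have h3 : p - prj r p ∈ Fil X (r + 1) := by
    intro w hw
    rw [map_sub, cf_prj]
    by_cases hr : w.length = r
    · rw [if_pos hr, sub_self]
    · rw [if_neg hr, sub_zero]
      exact hp w (by omega)
  have h4 : Ph ψ (p - prj r p) 1 ∈ Fil ℕ (r + 1) := by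
    refine Sup_ind (Q := fun w => r + 1 ≤ w.length) (P := fun q => Ph ψ q 1 ∈ Fil ℕ (r + 1))
      ?_ ?_ ?_ ?_ h3
    · rw [map_zero]; exact Submodule.zero_mem _
    · intro a b ha hb; rw [map_add]; exact Submodule.add_mem _ ha hb
    · intro c a ha; rw [map_smul]; exact Submodule.smul_mem _ _ ha
    · intro w hw
      exact Fil_anti hw (Ph_wd h2 hh w).1
  have h5 : Ph ψ (prj r p) 1 -
      Phi (fun x => n x - 1) (fun x => cf (xy (n x)) (ψ x).val) (prj r p) 1 ∈ Fil ℕ (r + 1) := by
    refine Sup_ind (Q := fun w => w.length = r) (P := fun q => Ph ψ q 1 -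
      Phi (fun x => n x - 1) (fun x => cf (xy (n x)) (ψ x).val) q 1 ∈ Fil ℕ (r + 1))
      ?_ ?_ ?_ ?_ h1
    · rw [map_zero, map_zero, sub_self]; exact Submodule.zero_mem _
    · intro a b ha hb
      rw [map_add, map_add, LinearMap.add_apply, LinearMap.add_apply, add_sub_add_comm]
      exact Submodule.add_mem _ ha hb
    · intro c a ha
      rw [map_smul, map_smul, LinearMap.smul_apply, LinearMap.smul_apply, ← smul_sub]
      exact Submodule.smul_mem _ _ ha
    · intro w hw
      subst hw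
      exact (Ph_wd h2 hh w).2
  have h6 : Phi (fun x => n x - 1) (fun x => cf (xy (n x)) (ψ x).val) (prj r p) 1 =
      -((Ph ψ (prj r p) 1 -
        Phi (fun x => n x - 1) (fun x => cf (xy (n x)) (ψ x).val) (prj r p) 1) +
        Ph ψ (p - prj r p) 1) := by
    rw [map_sub, LinearMap.sub_apply, h]
    abel
  rw [h6]
  exact Submodule.neg_mem _ (Submodule.add_mem _ h5 h4)

/-- Small families generate freely. -/
theorem free_small [Finite X] (hn : Function.Injective n) (h2 : ∀ x, 2 ≤ n x)
    (hcard : ∀ x, Nat.card X ≤ n x) (hh : ∀ x, (ψ x).val ∈ Hom (Fin 2) (n x))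
    (hc : ∀ x, cf (xy (n x)) (ψ x).val ≠ 0) :
    Function.Injective (FreeLieAlgebra.lift ℚ ψ) := by
  rw [injective_iff_map_eq_zero]
  intro z hz
  apply emb_injective X
  rw [map_zero]
  have hrr : ∀ x, rr (ψ x).val = LinearMap.mulLeft ℚ (kap (ψ x).val) :=
    fun x => rr_hom (h2 x) (hh x) (ψ x).mem
  have h1 : Ph ψ (emb X z) 1 = 0 := by
    rw [← kap_lift ψ hrr, hz]
    exact map_zero _
  have hall : ∀ r, emb X z ∈ Fil X r := by
    intro r
    induction r with
    | zero => exact fun w hw => absurd (Nat.zero_le _) hw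
    | succ r ih =>
      have h3 : prj r (emb X z) = 0 := by
        refine indep_small (fun x => n x - 1) ?_ _ hc ?_ r _ ?_ (lowest h2 hh ih h1)
        · intro x y hxy
          have h4 := h2 x
          have h5 := h2 y
          have h6 : n x - 1 = n y - 1 := hxy
          exact hn (by omega)
        · intro x
          have h4 := h2 x
          have h5 := hcard x
          show Nat.card X ≤ n x - 1 + 1
          omega
        · intro w hw
          rw [cf_prj, if_neg hw]
      intro w hw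
      by_cases hr : w.length = r
      · have h4 := cf_prj r w (emb X z)
        rw [h3, map_zero, if_pos hr] at h4
        exact h4.symm
      · exact ih w (by omega)
  apply ext_cf
  intro w
  rw [map_zero]
  exact hall (w.length + 1) w (by omega)

/-- No relation of length `r` in degree below `n0 * (r + 2)`. -/
theorem free_edge (n0 : ℕ) (hn0 : Odd n0) (hn1 : 2 ≤ n0) (hn : Function.Injective n)
    (h3 : ∀ x, n0 ≤ n x) (hodd : ∀ x, Odd (n x)) (hh : ∀ x, (ψ x).val ∈ Hom (Fin 2) (n x))
    (hc : ∀ x, cf (xy (n x)) (ψ x).val ≠ 0) (r : ℕ) (z : FreeLieAlgebra ℚ X)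
    (hz : emb X z ∈ Sup (fun w : List X => r ≤ w.length ∧ (w.map n).sum < n0 * (r + 2)))
    (h : FreeLieAlgebra.lift ℚ ψ z = 0) : z = 0 := by
  apply emb_injective X
  rw [map_zero]
  have h2 : ∀ x, 2 ≤ n x := fun x => hn1.trans (h3 x)
  have hrr : ∀ x, rr (ψ x).val = LinearMap.mulLeft ℚ (kap (ψ x).val) :=
    fun x => rr_hom (h2 x) (hh x) (ψ x).mem
  have h1 : Ph ψ (emb X z) 1 = 0 := by
    rw [← kap_lift ψ hrr, h]
    exact map_zero _
  have hall : ∀ s, emb X z ∈ Fil X (r + s) := by
    intro s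
    induction s with
    | zero => exact Sup_mono (fun w hw => hw.1) hz
    | succ s ih =>
      have h3 : prj (r + s) (emb X z) = 0 := by
        refine indep_edge n0 hn0 n hn h3 hodd _ hc (r + s) _ ?_ (lowest h2 hh ih h1)
        intro w hw
        rw [cf_prj]
        by_cases hr : w.length = r + s
        · rw [if_pos hr]
          refine hz w (fun hw' => hw ⟨hr, ?_⟩)
          exact hw'.2.trans_le (Nat.mul_le_mul_left _ (by omega))
        · rw [if_neg hr]
      intro w hw
      by_cases hr : w.length = r + s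
      · have h4 := cf_prj (r + s) w (emb X z)
        rw [h3, map_zero, if_pos hr] at h4
        exact h4.symm
      · exact ih w (by omega)
  apply ext_cf
  intro w
  rw [map_zero]
  exact hall (w.length + 1) w (by omega)

end

end Pool.Agent.W_cf9a97_h77
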