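import Pool.Agent.W_cf9a97_h77.Comm
import Pool.Agent.W_cf9a97_h77.Fam

/-!
# Centralizers
-/

set_option autoImplicit false

namespace Pool.Agent.W_cf9a97_h77

open FreeAlgebra

attribute [local instance 100] LieRing.ofAssociativeRing

theorem J_dl_top (m : ℕ) (b : FreeAlgebra ℚ ℕ) (hb : ∀ s, m < s → J s b = 0) (r : ℕ) :
    (∀ s, m + r < s → J s ((dl ^ r) b) = 0) ∧ J (m + r) ((dl ^ r) b) = J m b := by
  induction r with
  | zero => exact ⟨fun s hs => hb s (by omega), rfl⟩
  | succ r ih =>
    obtain ⟨ih1, ih2⟩ := ih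
    refine ⟨fun s hs => ?_, ?_⟩
    · obtain ⟨s', rfl⟩ : ∃ s', s = s' + 1 := ⟨s - 1, by omega⟩
      rw [pow_succ', Module.End.mul_apply, J_dl_succ, ih1 _ (by omega), ih1 _ (by omega), map_zero,
        add_zero]
    · rw [pow_succ', Module.End.mul_apply, ← add_assoc, J_dl_succ, ih1 _ (by omega), ih2, map_zero,
        zero_add]

theorem J_act_top {a q : ℕ} (ha : 1 ≤ a) (hq : 1 ≤ q) {b : FreeAlgebra ℚ ℕ}
    (hb : b ∈ Sup (fun w : List ℕ => ∃ k v, w = k :: v ∧ k ≤ q)) :
    J (a + q) (act (e a) b) = -(e 0 * J q b) := by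
  refine Sup_ind (Q := fun w : List ℕ => ∃ k v, w = k :: v ∧ k ≤ q)
    (P := fun b => J (a + q) (act (e a) b) = -(e 0 * J q b)) ?_ ?_ ?_ ?_ hb
  · simp
  · intro u v hu hv; rw [map_add, map_add, hu, hv, map_add, mul_add, neg_add]
  · intro c u hu; rw [map_smul, map_smul, hu, map_smul, mul_smul_comm, smul_neg]
  · rintro w ⟨k, v, rfl, hk⟩
    have h1 : act (e a) (wd (k :: v)) = e a * wd (k :: v) + (ι ℚ k * DD (e a) (wd v) +
        (dl ^ k) (e 0 * e a - e a * e 0) * wd v) := by
      rw [act_apply, wd_cons, DD, der_mul, der_ι]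
    have h2 : cf [] ((dl ^ k) (e 0 * e a - e a * e 0)) = 0 := by
      have : (dl ^ k) (e 0 * e a - e a * e 0) ∈ Hom ℕ 2 := by
        refine dl_pow_Hom k (Submodule.sub_mem _ ?_ ?_)
        · exact Hom_mul (ι_Hom 0) (ι_Hom a)
        · exact Hom_mul (ι_Hom a) (ι_Hom 0)
      exact this [] (by simp)
    have h3 : ∀ s, 0 < s → J s (e 0 * e a) = 0 := by
      intro s hs
      rw [J_ι_mul, if_neg (by omega)]
    have h4 : ∀ s, a < s → J s (e a * e 0) = 0 := by
      intro s hs
      rw [J_ι_mul, if_neg (by omega)]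
    have h5 := (J_dl_top 0 _ h3 k).1 (a + q) (by omega)
    have h6 : J (a + q) ((dl ^ k) (e a * e 0)) = if k = q then e 0 else 0 := by
      by_cases hkq : k = q
      · rw [if_pos hkq, ← hkq, (J_dl_top a _ h4 k).2, J_ι_mul, if_pos rfl]
      · rw [if_neg hkq]
        exact (J_dl_top a _ h4 k).1 (a + q) (by omega)
    rw [h1, map_add, map_add, J_ι_mul, if_neg (by omega), J_ι_mul, if_neg (by omega), J_mul, h2,
      map_sub, map_sub, h5, h6, wd_cons, J_ι_mul]
    split_ifs <;> simp

/-- The leading coefficient commutes with `e 0`. -/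
theorem comm_top {a d q : ℕ} (ha : 1 ≤ a) (hd : 1 ≤ d) {h : FreeAlgebra ℚ ℕ} (hh : h ∈ Hom ℕ d)
    (hE : EqA a h) (hq : ∀ s, q < s → J s h = 0) : e 0 * J q h = J q h * e 0 := by
  have hnil : cf [] h = 0 := hh [] (by simp; omega)
  have hJr : ∀ s k, J s (h * e k) = J s h * e k := by
    intro s k
    rw [J_mul, hnil, zero_smul, add_zero]
  have h3 : ∀ s, 0 < s → J s (e 0 * h) = 0 := by
    intro s hs
    rw [J_ι_mul, if_neg (by omega)]
  have h4 : ∀ s, q < s → J s (h * e 0) = 0 := by
    intro s hs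
    rw [hJr, hq s hs, zero_mul]
  have h5 : J (a + q) ((dl ^ a) (h * e 0)) = J q h * e 0 := by
    rw [add_comm, (J_dl_top q _ h4 a).2, hJr]
  by_cases hq0 : q = 0
  · subst hq0
    have h6 : J (a + 0) ((dl ^ a) (e 0 * h)) = h := by
      rw [add_comm, (J_dl_top 0 _ h3 a).2, J_ι_mul, if_pos rfl]
    have h7 : e 0 * J 0 h = h := by
      obtain ⟨d', rfl⟩ : ∃ d', d = d' + 1 := ⟨d - 1, by omega⟩
      rw [← sub_eq_zero]
      refine eq_zero_of_J (i := d') (Submodule.sub_mem _ ?_ hh) (fun s => ?_)
      · have := Hom_mul (ι_Hom 0) (J_Hom hh 0)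
        rwa [add_comm] at this
      · rw [map_sub, J_ι_mul]
        by_cases hs : 0 = s
        · rw [if_pos hs, hs, sub_self]
        · rw [if_neg hs, hq s (by omega), sub_zero]
    have h8 := congrArg (J (a + 0)) hE
    rw [map_add, map_sub, map_sub, h6, h5, hJr, hq _ (by omega), zero_mul, zero_add] at h8
    have h9 : J (a + 0) (act (e a) h) = 0 := by
      rw [← h7, act_e0, J_ι_mul, if_neg (by omega)]
    rw [h9] at h8
    rw [h7]
    exact (sub_eq_zero.1 h8.symm)
  · have h6 : J (a + q) ((dl ^ a) (e 0 * h)) = 0 := (J_dl_top 0 _ h3 a).1 (a + q) (by omega)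
    have h7 : h ∈ Sup (fun w : List ℕ => ∃ k v, w = k :: v ∧ k ≤ q) := by
      intro w hw
      cases w with
      | nil => exact hnil
      | cons k v =>
        have hk : q < k := by
          by_contra hk
          exact hw ⟨k, v, rfl, by omega⟩
        rw [← cf_J, hq k hk, map_zero]
    have h8 := congrArg (J (a + q)) hE
    rw [map_add, map_sub, map_sub, h6, h5, hJr, hq _ (by omega), zero_mul, zero_add, zero_sub,
      J_act_top ha (by omega) h7, neg_inj] at h8
    exact h8

theorem mul_e0_inj {u : FreeAlgebra ℚ ℕ} (h : u * e 0 = 0) : u = 0 := by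
  apply ext_cf
  intro w
  rw [map_zero]
  have h1 : ∀ b : FreeAlgebra ℚ ℕ, cf (w ++ [0]) (b * e 0) = cf w b := by
    intro b
    induction b using ind_wd with
    | h0 => simp
    | ha a b ha hb => rw [add_mul, map_add, map_add, ha, hb]
    | hs c a ha => rw [smul_mul_assoc, map_smul, map_smul, ha]
    | hw v =>
      have h2 : wd v * e 0 = wd (v ++ [0]) := by rw [wd_append, wd_cons, wd_nil, mul_one]
      rw [h2, cf_wd, cf_wd]
      simp
  rw [← h1, h, map_zero]

/-- The commutant of `e 0`. -/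
theorem commutant (m : ℕ) : ∀ u : FreeAlgebra ℚ ℕ, u ∈ Hom ℕ m → e 0 * u = u * e 0 →
    u = cf (List.replicate m 0) u • wd (List.replicate m 0) := by
  induction m with
  | zero => exact fun u hu _ => Hom_zero hu
  | succ m ih =>
    intro u hu h
    have hnil : cf [] u = 0 := cf_nil_Hom hu
    have h1 : ∀ s, J s u * e 0 = if 0 = s then u else 0 := by
      intro s
      have h2 := congrArg (J s) h
      rw [J_ι_mul, J_mul, hnil, zero_smul, add_zero] at h2
      exact h2.symm
    have h3 : ∀ s, s ≠ 0 → J s u = 0 := by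
      intro s hs
      apply mul_e0_inj
      rw [h1, if_neg (fun h => hs h.symm)]
    have h4 : e 0 * J 0 u = u := by
      rw [← sub_eq_zero]
      refine eq_zero_of_J (i := m) (Submodule.sub_mem _ ?_ hu) (fun s => ?_)
      · have := Hom_mul (ι_Hom 0) (J_Hom hu 0)
        rwa [add_comm] at this
      · rw [map_sub, J_ι_mul]
        by_cases hs : 0 = s
        · rw [if_pos hs, hs, sub_self]
        · rw [if_neg hs, h3 s (fun h => hs h.symm), sub_zero]
    have h5 := h1 0
    rw [if_pos rfl] at h5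
    have h6 := ih (J 0 u) (J_Hom hu 0) (by rw [h4, h5])
    conv_lhs => rw [← h4, h6]
    rw [List.replicate_succ, wd_cons, mul_smul_comm, ← cf_J]

/-- The vanishing theorem. -/
theorem vanish {a d D : ℕ} (ha : 1 ≤ a) (hd : 2 ≤ d) (hD : 1 ≤ D) {h : FreeAlgebra ℚ ℕ}
    (hh : h ∈ HW d D) (hE : EqA a h) : h = 0 := by
  have hh' : h ∈ Hom ℕ d := Sup_mono (fun w hw => hw.1) hh
  obtain ⟨d', rfl⟩ : ∃ d', d = d' + 1 := ⟨d - 1, by omega⟩
  have hall : ∀ k s, D + 1 ≤ s + k → J s h = 0 := by
    intro k
    induction k with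
    | zero =>
      intro s hs
      apply ext_cf
      intro v
      rw [map_zero, cf_J]
      refine hh _ (fun hw => ?_)
      have h1 := hw.2
      rw [List.sum_cons] at h1
      omega
    | succ k ih =>
      intro s hs
      by_cases hs' : D + 1 ≤ s + k
      · exact ih s hs'
      have h1 := comm_top ha (by omega) hh' hE (q := s) (fun s' hs' => ih s' (by omega))
      have h2 := commutant d' (J s h) (J_Hom hh' s) h1
      have h3 : cf (List.replicate d' 0) (J s h) = 0 := by
        rw [cf_J]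
        by_cases hsD : s = D
        · rw [hsD]
          have := top_zero ha hd hD hh hE
          rwa [Nat.add_sub_cancel] at this
        · refine hh _ (fun hw => hsD ?_)
          have h4 := hw.2
          rw [List.sum_cons, List.sum_replicate, smul_zero, add_zero] at h4
          exact h4
      rw [h2, h3, zero_smul]
  exact eq_zero_of_J hh' (fun s => hall (D + 1) s (by omega))

/-- `ad(x)^k y`. -/
noncomputable def adk : ℕ → A2
  | 0 => yy
  | k + 1 => xx * adk k - adk k * xx

/-- The algebra map `e k ↦ ad(x)^k y`. -/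
noncomputable def em2 : FreeAlgebra ℚ ℕ →ₐ[ℚ] A2 := FreeAlgebra.lift ℚ adk

theorem em2_dl (b : FreeAlgebra ℚ ℕ) : em2 (dl b) = xx * em2 b - em2 b * xx := by
  induction b using ind_wd with
  | h0 => simp
  | ha a b ha hb => simp only [map_add, ha, hb, mul_add, add_mul]; abel
  | hs c a ha => simp only [map_smul, ha, mul_smul_comm, smul_mul_assoc, smul_sub]
  | hw w =>
    induction w with
    | nil => rw [wd_nil, dl_one, map_zero, map_one em2]; simp
    | cons k w ih =>
      have h1 : dl (ι ℚ k : FreeAlgebra ℚ ℕ) = ι ℚ (k + 1) := by rw [dl, der_ι]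
      have h2 : ∀ j, em2 (ι ℚ j) = adk j := by
        intro j
        rw [em2, FreeAlgebra.lift_ι_apply]
      rw [wd_cons, dl_mul, map_add, map_mul, map_mul, ih, h1, map_mul, h2, h2, adk]
      noncomm_ring

theorem kap_br {a b : A2} (ha : a ∈ LL) (hb : b ∈ LL) : kap (a * b - b * a) =
    cf [(0 : Fin 2)] a • dl (kap b) - cf [(0 : Fin 2)] b • dl (kap a) +
      (kap a * kap b - kap b * kap a) := by
  rw [map_sub, kap_mul, kap_mul, (rr_LL ha).1, (rr_LL hb).1]
  simp only [LinearMap.add_apply, LinearMap.smul_apply, LinearMap.mulLeft_apply]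
  abel

theorem cf0_br {a b : A2} (ha : a ∈ LL) (hb : b ∈ LL) :
    cf [(0 : Fin 2)] (a * b - b * a) = 0 := by
  rw [map_sub, ← cf_J, ← cf_J, J_mul, J_mul, (rr_LL ha).2, (rr_LL hb).2, zero_smul, zero_smul,
    add_zero, add_zero, cf_nil_mul, cf_nil_mul, (rr_LL ha).2, (rr_LL hb).2]
  ring

theorem cf0_xx : cf [(0 : Fin 2)] xx = 1 := by
  have h : xx = wd [(0 : Fin 2)] := by simp [xx]
  rw [h, cf_wd, if_pos rfl]

theorem cf0_yy : cf [(0 : Fin 2)] yy = 0 := by
  have h : yy = wd [(1 : Fin 2)] := by simp [yy]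
  rw [h, cf_wd, if_neg (by decide)]

theorem kap_xx : kap xx = 0 := by rw [kap_eq, rr_xx, dl_one]

theorem kap_yy : kap yy = e 0 := by rw [kap_eq, rr_yy, LinearMap.mulLeft_apply, mul_one]

/-- Reconstruction of Lie elements. -/
theorem em2_kap {a : A2} (ha : a ∈ LL) : cf [(0 : Fin 2)] a • xx + em2 (kap a) = a := by
  suffices h : cf [(0 : Fin 2)] a • xx + em2 (kap a) = a ∧ a ∈ LL from h.1
  refine LL_ind (P := fun a => cf [(0 : Fin 2)] a • xx + em2 (kap a) = a ∧ a ∈ LL)
    ?_ ?_ ?_ ?_ ?_ ?_ ha
  · exact ⟨by simp, LL.zero_mem⟩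
  · rintro a b ⟨h1, h2⟩ ⟨h3, h4⟩
    refine ⟨?_, LL.add_mem h2 h4⟩
    conv_rhs => rw [← h1, ← h3]
    rw [map_add, map_add, map_add, add_smul]
    abel
  · rintro c a ⟨h1, h2⟩
    refine ⟨?_, LL.smul_mem c h2⟩
    conv_rhs => rw [← h1]
    rw [map_smul, map_smul, map_smul, smul_add, smul_assoc]
  · rintro a b ⟨h1, h2⟩ ⟨h3, h4⟩
    refine ⟨?_, mul_sub_mem h2 h4⟩
    rw [kap_br h2 h4, cf0_br h2 h4, zero_smul, zero_add]
    conv_rhs => rw [← h1, ← h3]
    simp only [map_add, map_sub, map_smul, map_mul, em2_dl, mul_add, add_mul, smul_mul_assoc,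
      mul_smul_comm, smul_sub, smul_add]
    rw [smul_comm (cf [(0 : Fin 2)] a) (cf [(0 : Fin 2)] b)]
    abel
  · refine ⟨?_, xx_mem⟩
    rw [cf0_xx, kap_xx, map_zero, one_smul, add_zero]
  · refine ⟨?_, yy_mem⟩
    rw [cf0_yy, kap_yy, zero_smul, zero_add, em2, FreeAlgebra.lift_ι_apply, adk]

/-- The substitution `e 0 ↦ T`, `e k ↦ 0` for `k > 0`. -/
noncomputable def tht : FreeAlgebra ℚ ℕ →ₐ[ℚ] Polynomial ℚ :=
  FreeAlgebra.lift ℚ (fun k => if k = 0 then Polynomial.X else 0)

theorem tht_ι (k : ℕ) : tht (ι ℚ k) = if k = 0 then Polynomial.X else 0 := by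
  rw [tht, FreeAlgebra.lift_ι_apply]

theorem tht_dl (b : FreeAlgebra ℚ ℕ) : tht (dl b) = 0 := by
  induction b using ind_wd with
  | h0 => simp
  | ha a b ha hb => rw [map_add, map_add, ha, hb, add_zero]
  | hs c a ha => rw [map_smul, map_smul, ha, smul_zero]
  | hw w =>
    induction w with
    | nil => rw [wd_nil, dl_one, map_zero]
    | cons k w ih =>
      have h1 : dl (ι ℚ k : FreeAlgebra ℚ ℕ) = ι ℚ (k + 1) := by rw [dl, der_ι]
      rw [wd_cons, dl_mul, map_add, map_mul, map_mul, ih, h1, tht_ι (k + 1), if_neg (by omega)]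
      ring

theorem tht_coeff (m : ℕ) (b : FreeAlgebra ℚ ℕ) :
    (tht b).coeff m = cf (List.replicate m 0) b := by
  induction b using ind_wd with
  | h0 => simp
  | ha a b ha hb => rw [map_add, Polynomial.coeff_add, ha, hb, map_add]
  | hs c a ha => rw [map_smul, Polynomial.coeff_smul, ha, map_smul]
  | hw w =>
    induction w generalizing m with
    | nil =>
      rw [wd_nil, map_one tht, Polynomial.coeff_one, ← wd_nil, cf_wd]
      cases m with
      | zero => simp
      | succ m => simp [List.replicate_succ]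
    | cons k w ih =>
      rw [wd_cons, map_mul, tht_ι, ← wd_cons, cf_wd]
      by_cases hk : k = 0
      · subst hk
        rw [if_pos rfl]
        cases m with
        | zero =>
          rw [Polynomial.coeff_X_mul_zero, if_neg (by simp)]
        | succ m =>
          rw [Polynomial.coeff_X_mul, ih, cf_wd, List.replicate_succ]
          simp
      · rw [if_neg hk, zero_mul, Polynomial.coeff_zero, if_neg]
        intro h
        cases m with
        | zero => simp at h
        | succ m =>
          rw [List.replicate_succ] at h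
          exact hk (List.cons.inj h).1

theorem tht_kap {a : A2} (ha : a ∈ LL) : ∃ c : ℚ, tht (kap a) = c • Polynomial.X := by
  suffices h : (∃ c : ℚ, tht (kap a) = c • Polynomial.X) ∧ a ∈ LL from h.1
  refine LL_ind (P := fun a => (∃ c : ℚ, tht (kap a) = c • Polynomial.X) ∧ a ∈ LL)
    ?_ ?_ ?_ ?_ ?_ ?_ ha
  · exact ⟨⟨0, by simp⟩, LL.zero_mem⟩
  · rintro a b ⟨⟨c, h1⟩, h2⟩ ⟨⟨c', h3⟩, h4⟩
    exact ⟨⟨c + c', by rw [map_add, map_add, h1, h3, add_smul]⟩, LL.add_mem h2 h4⟩
  · rintro t a ⟨⟨c, h1⟩, h2⟩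
    exact ⟨⟨t * c, by rw [map_smul, map_smul, h1, mul_smul]⟩, LL.smul_mem t h2⟩
  · rintro a b ⟨-, h2⟩ ⟨-, h4⟩
    refine ⟨⟨0, ?_⟩, mul_sub_mem h2 h4⟩
    rw [kap_br h2 h4]
    simp only [map_add, map_sub, map_smul, map_mul, tht_dl, smul_zero, zero_smul]
    ring
  · exact ⟨⟨0, by rw [kap_xx, map_zero, zero_smul]⟩, xx_mem⟩
  · exact ⟨⟨1, by rw [kap_yy, tht_ι, if_pos rfl, one_smul]⟩, yy_mem⟩

theorem cf_zeros_kap {a : A2} (ha : a ∈ LL) {m : ℕ} (hm : 2 ≤ m) :
    cf (List.replicate m 0) (kap a) = 0 := by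
  obtain ⟨c, hc⟩ := tht_kap ha
  rw [← tht_coeff, hc, Polynomial.coeff_smul, Polynomial.coeff_X, if_neg (by omega), smul_zero]

/-- Words of weight `N`. -/
def WT (N : ℕ) : Submodule ℚ (FreeAlgebra ℚ ℕ) :=
  Sup (fun w : List ℕ => w.sum + w.length = N)

theorem dl_WT {N : ℕ} {b : FreeAlgebra ℚ ℕ} (hb : b ∈ WT N) : dl b ∈ WT (N + 1) := by
  refine Sup_ind (Q := fun w : List ℕ => w.sum + w.length = N) (P := fun b => dl b ∈ WT (N + 1))
    ?_ ?_ ?_ ?_ hb
  · rw [map_zero]; exact Submodule.zero_mem _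
  · intro u v hu hv; rw [map_add]; exact Submodule.add_mem _ hu hv
  · intro c u hu; rw [map_smul]; exact Submodule.smul_mem _ _ hu
  · intro w hw
    subst hw
    clear hb
    induction w with
    | nil => rw [wd_nil, dl_one]; exact Submodule.zero_mem _
    | cons k w ih =>
      have h1 : dl (ι ℚ k : FreeAlgebra ℚ ℕ) = ι ℚ (k + 1) := by rw [dl, der_ι]
      rw [wd_cons, dl_mul, h1]
      refine Submodule.add_mem _ ?_ ?_
      · have h2 : (ι ℚ k : FreeAlgebra ℚ ℕ) ∈ WT (k + 1) := by
          have h3 : (ι ℚ k : FreeAlgebra ℚ ℕ) = wd [k] := by simp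
          rw [h3]
          exact wd_mem_Sup (Q := fun w : List ℕ => w.sum + w.length = k + 1) (by simp)
        refine Sup_mul (P := fun w : List ℕ => w.sum + w.length = k + 1)
          (Q := fun v : List ℕ => v.sum + v.length = w.sum + w.length + 1)
          (fun u v hu hv => ?_) h2 ih
        rw [List.sum_append, List.length_append, List.sum_cons, List.length_cons]
        omega
      · have h3 : (ι ℚ (k + 1) : FreeAlgebra ℚ ℕ) * wd w = wd ((k + 1) :: w) := by rw [wd_cons]
        rw [h3]
        refine wd_mem_Sup (Q := fun v : List ℕ => v.sum + v.length = _) ?_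
        rw [List.sum_cons, List.length_cons, List.sum_cons, List.length_cons]
        omega

theorem kap_WT {N : ℕ} {a : A2} (ha : a ∈ Hom (Fin 2) N) : kap a ∈ WT N := by
  refine Sup_ind (Q := fun w => w.length = N) (P := fun a => kap a ∈ WT N) ?_ ?_ ?_ ?_ ha
  · rw [map_zero]; exact Submodule.zero_mem _
  · intro u v hu hv; rw [map_add]; exact Submodule.add_mem _ hu hv
  · intro c u hu; rw [map_smul]; exact Submodule.smul_mem _ _ hu
  · intro w hw
    subst hw
    clear ha
    induction w with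
    | nil =>
      rw [wd_nil, kap_one, ← wd_nil]
      exact wd_mem_Sup (Q := fun w : List ℕ => w.sum + w.length = 0) (by simp)
    | cons i w ih =>
      rcases (by omega : i = 0 ∨ i = 1) with rfl | rfl
      · have h2 : kap (wd ((0 : Fin 2) :: w)) = dl (kap (wd w)) := by
          rw [wd_cons]; show kap (xx * wd w) = _; rw [kap_mul, rr_xx]
        rw [h2, List.length_cons]
        exact dl_WT ih
      · have h2 : kap (wd ((1 : Fin 2) :: w)) = e 0 * kap (wd w) := by
          rw [wd_cons]; show kap (yy * wd w) = _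
          rw [kap_mul, rr_yy, LinearMap.mulLeft_apply]
        rw [h2, List.length_cons]
        have h3 : e 0 ∈ WT 1 := by
          have h4 : e 0 = wd [0] := by simp
          rw [h4]
          exact wd_mem_Sup (Q := fun w : List ℕ => w.sum + w.length = 1) (by simp)
        refine Sup_mul (P := fun w : List ℕ => w.sum + w.length = 1)
          (Q := fun v : List ℕ => v.sum + v.length = w.length) (fun u v hu hv => ?_) h3 ih
        rw [List.sum_append, List.length_append]
        omega

/-- Leading parts: if `act s k = act k s` with `s = c e_a + ...`, `k` of length at least `d`, the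
part of length `d` of `k` satisfies the equation. -/
theorem lead_eq {a d : ℕ} {c : ℚ} (hc : c ≠ 0) {s k : FreeAlgebra ℚ ℕ}
    (hs : s - c • e a ∈ Fil ℕ 2) (hk : k ∈ Fil ℕ d) (h : act s k = act k s) :
    act (e a) (prj d k) = act (prj d k) (e a) := by
  have he : c • e a ∈ Fil ℕ 1 := Submodule.smul_mem _ _ (Hom_le_Fil 1 (ι_Hom a))
  have hs1 : s ∈ Fil ℕ 1 := by
    have h1 : s = c • e a + (s - c • e a) := by abel
    rw [h1]
    exact Submodule.add_mem _ he (Fil_anti (by norm_num) hs)
  have hp : prj d k ∈ Hom ℕ d := by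
    intro w hw
    rw [cf_prj, if_neg hw]
  have hq : k - prj d k ∈ Fil ℕ (d + 1) := by
    intro w hw
    rw [map_sub, cf_prj]
    by_cases hr : w.length = d
    · rw [if_pos hr, sub_self]
    · rw [if_neg hr, sub_zero]
      exact hk w (by omega)
  set p := prj d k with hpdef
  set q := k - p with hqdef
  set s2 := s - c • e a with hs2
  have hks : k = p + q := by rw [hqdef]; abel
  have hss : s = c • e a + s2 := by rw [hs2]; abel
  have h2 : act s k = c • act (e a) p + act s2 p + act s q := by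
    have h3 : act s p = c • act (e a) p + act s2 p := by
      conv_lhs => rw [hss, act_add, act_smul]
    rw [← h3, ← map_add, ← hks]
  have h4 : act k s = c • act p (e a) + act p s2 + act q s := by
    have h5 : act p s = c • act p (e a) + act p s2 := by
      conv_lhs => rw [hss, map_add, map_smul]
    rw [← h5, ← act_add, ← hks]
  have h6 : c • (act (e a) p - act p (e a)) = act p s2 + act q s - (act s2 p + act s q) := by
    have h7 := h
    rw [h2, h4] at h7
    have h8 : c • act (e a) p = c • act p (e a) + act p s2 + act q s - (act s2 p + act s q) := by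
      rw [← h7]; abel
    rw [smul_sub, h8]
    abel
  have hpF : p ∈ Fil ℕ d := Hom_le_Fil d hp
  have h9 : c • (act (e a) p - act p (e a)) ∈ Fil ℕ (d + 1 + 1) := by
    rw [h6]
    refine Submodule.sub_mem _ (Submodule.add_mem _ ?_ ?_) (Submodule.add_mem _ ?_ ?_)
    · exact Fil_anti (by omega) (act_Fil hpF hs)
    · exact Fil_anti (by omega) (act_Fil hq hs1)
    · exact Fil_anti (by omega) (act_Fil hs hpF)
    · exact Fil_anti (by omega) (act_Fil hs1 hq)
  have h10 : c • (act (e a) p - act p (e a)) ∈ Hom ℕ (d + 1) := by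
    refine Submodule.smul_mem _ _ (Submodule.sub_mem _ (act_Hom (ι_Hom a) hp) ?_)
    have := act_Hom hp (ι_Hom a)
    rwa [add_comm] at this
  have h11 := eq_zero_of_Hom_Fil h10 h9
  exact sub_eq_zero.1 ((smul_eq_zero.1 h11).resolve_left hc)

theorem act_letter (g : FreeAlgebra ℚ ℕ) (a : ℕ) :
    act g (e a) = g * e a + (dl ^ a) (e 0 * g - g * e 0) := by
  rw [act_apply, DD, der_ι]

/-- Commuting elements of `LL` with leading part of length at least two vanish. -/
theorem cent_zero {a N : ℕ} (ha : 1 ≤ a) {c : ℚ} (hc : c ≠ 0) {s : FreeAlgebra ℚ ℕ}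
    (hs : s - c • e a ∈ Fil ℕ 2) {ψ : A2} (hψ : ψ ∈ LL) (hN : ψ ∈ Hom (Fin 2) N)
    (h2 : kap ψ ∈ Fil ℕ 2) (h : act s (kap ψ) = act (kap ψ) s) : kap ψ = 0 := by
  have hw : kap ψ ∈ WT N := kap_WT hN
  have hall : ∀ d, kap ψ ∈ Fil ℕ (d + 2) := by
    intro d
    induction d with
    | zero => exact h2
    | succ d ih =>
      have h3 := lead_eq hc hs ih h
      rw [act_letter] at h3
      have h4 : prj (d + 2) (kap ψ) = 0 := by
        by_cases hNd : N ≤ d + 2
        · apply ext_cf
          intro w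
          rw [cf_prj, map_zero]
          by_cases hwl : w.length = d + 2
          · rw [if_pos hwl]
            by_cases hws : w.sum + w.length = N
            · have h5 : w.sum = 0 := by omega
              have h6 : w = List.replicate (d + 2) 0 := by
                refine List.eq_replicate_iff.2 ⟨hwl, fun b hb => ?_⟩
                have := List.single_le_sum (l := w) (fun x _ => Nat.zero_le x) b hb
                omega
              rw [h6]
              exact cf_zeros_kap hψ (by omega)
            · exact hw w hws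
          · rw [if_neg hwl]
        · refine vanish (d := d + 2) (D := N - (d + 2)) ha (by omega) (by omega) ?_ h3
          intro w hw'
          rw [cf_prj]
          by_cases hwl : w.length = d + 2
          · rw [if_pos hwl]
            refine hw w (fun h5 => hw' ⟨hwl, by omega⟩)
          · rw [if_neg hwl]
      intro w hw'
      by_cases hr : w.length = d + 2
      · have h5 := cf_prj (d + 2) w (kap ψ)
        rw [h4, map_zero, if_pos hr] at h5
        exact h5.symm
      · exact ih w (by omega)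
  apply ext_cf
  intro w
  rw [map_zero]
  exact hall w.length w (by omega)

/-- Injectivity of `kap`. -/
theorem kap_inj {N : ℕ} (hN : 2 ≤ N) {ψ : A2} (hψ : ψ ∈ LL) (hH : ψ ∈ Hom (Fin 2) N)
    (h : kap ψ = 0) : ψ = 0 := by
  have h1 := em2_kap hψ
  have h2 : cf [(0 : Fin 2)] ψ = 0 := hH _ (by simp; omega)
  rw [h2, h, zero_smul, map_zero, add_zero] at h1
  exact h1.symm

/-- The Ihara bracket in the coordinates. -/
theorem kap_ib {n N : ℕ} (hn : 2 ≤ n) (hN : 2 ≤ N) {σ ψ : A2} (hσ : σ ∈ LL)
    (hσn : σ ∈ Hom (Fin 2) n) (hψ : ψ ∈ LL) (hψN : ψ ∈ Hom (Fin 2) N) :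
    kap (ib σ ψ) = act (kap σ) (kap ψ) - act (kap ψ) (kap σ) := by
  rw [← kap_Sr (rr_hom hn hσn hσ), ← kap_Sr (rr_hom hN hψN hψ), ← map_sub]
  congr 1
  rw [ib, Sr_apply, Sr_apply]
  abel

/-- Centralizers are one dimensional. -/
theorem cent {n N : ℕ} (hn : 2 ≤ n) (hN : 2 ≤ N) {σ ψ : A2} (hσ : σ ∈ LL)
    (hσn : σ ∈ Hom (Fin 2) n) (hc : cf (xy n) σ ≠ 0) (hψ : ψ ∈ LL) (hψN : ψ ∈ Hom (Fin 2) N)
    (h : ib σ ψ = 0) : ∃ t : ℚ, ψ = t • σ := by
  have hs := kap_split (by omega) hσn
  have hk := kap_split (by omega) hψN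
  have h1 : act (kap σ) (kap ψ) = act (kap ψ) (kap σ) := by
    have h2 := kap_ib hn hN hσ hσn hψ hψN
    rw [h, map_zero] at h2
    exact (sub_eq_zero.1 h2.symm)
  by_cases hnN : N = n
  · subst hnN
    set c := cf (xy N) σ with hcdef
    set g := cf (xy N) ψ with hgdef
    refine ⟨g / c, ?_⟩
    have hψ' : ψ - (g / c) • σ ∈ LL := LL.sub_mem hψ (LL.smul_mem _ hσ)
    have hψN' : ψ - (g / c) • σ ∈ Hom (Fin 2) N :=
      Submodule.sub_mem _ hψN (Submodule.smul_mem _ _ hσn)
    have h3 : kap (ψ - (g / c) • σ) ∈ Fil ℕ 2 := by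
      have h4 : kap (ψ - (g / c) • σ) = (kap ψ - g • e (N - 1)) -
          (g / c) • (kap σ - c • e (N - 1)) := by
        rw [map_sub, map_smul, smul_sub, smul_smul, div_mul_cancel₀ _ hc]
        abel
      rw [h4]
      exact Submodule.sub_mem _ hk (Submodule.smul_mem _ _ hs)
    have h5 : act (kap σ) (kap (ψ - (g / c) • σ)) = act (kap (ψ - (g / c) • σ)) (kap σ) := by
      have h6 : kap (ψ - (g / c) • σ) = kap ψ + (-(g / c)) • kap σ := by
        rw [map_sub, map_smul, neg_smul]; abel
      rw [h6, map_add, act_add, act_smul, map_smul, h1]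
    have h7 := cent_zero (by omega) hc hs hψ' hψN' h3 h5
    exact sub_eq_zero.1 (kap_inj hN hψ' hψN' h7)
  · refine ⟨0, ?_⟩
    rw [zero_smul]
    have hg : cf (xy N) ψ = 0 := by
      by_contra hg
      set c := cf (xy n) σ with hcdef
      set g := cf (xy N) ψ with hgdef
      have hk1 : kap ψ ∈ Fil ℕ 1 := by
        have h2 : kap ψ = g • e (N - 1) + (kap ψ - g • e (N - 1)) := by abel
        rw [h2]
        exact Submodule.add_mem _ (Submodule.smul_mem _ _ (Hom_le_Fil 1 (ι_Hom _)))
          (Fil_anti (by norm_num) hk)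
      have h2 := lead_eq hc hs hk1 h1
      have h3 : prj 1 (kap ψ) = g • e (N - 1) := by
        apply ext_cf
        intro w
        rw [cf_prj]
        by_cases hw : w.length = 1
        · rw [if_pos hw]
          have h4 := hk w (by omega)
          rw [map_sub, sub_eq_zero] at h4
          exact h4
        · rw [if_neg hw]
          have h4 : g • e (N - 1) ∈ Hom ℕ 1 := Submodule.smul_mem _ _ (ι_Hom _)
          exact (h4 w hw).symm
      rw [h3, map_smul, act_smul] at h2
      have h5 : act (e (n - 1)) (e (N - 1)) = act (e (N - 1)) (e (n - 1)) :=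
        smul_right_injective _ hg h2
      have h6 := key (Finset.univ : Finset (Fin 2)) ![n - 1, N - 1] (by
          intro i _ j _ hij
          fin_cases i <;> fin_cases j
          · rfl
          · exfalso
            have : n - 1 = N - 1 := hij
            omega
          · exfalso
            have : N - 1 = n - 1 := hij
            omega
          · rfl) 1 (by
          intro l _
          fin_cases l
          · show 1 ≤ n - 1; omega
          · show 1 ≤ N - 1; omega) (by simp) 0 ![e (N - 1), -e (n - 1)] (by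
          intro l _
          fin_cases l
          · exact ι_Hom _
          · exact Submodule.neg_mem _ (ι_Hom _)) (by
          intro s _
          rw [Fin.sum_univ_two]
          show J s (act (e (n - 1)) (e (N - 1)) + act (e (N - 1)) (-e (n - 1))) = 0
          rw [map_neg, h5, add_neg_cancel, map_zero]) 0 (Finset.mem_univ _)
      have h7 : (e (N - 1)) = 0 := h6
      have h8 := congrArg (cf [N - 1]) h7
      have h9 : (e (N - 1)) = wd [N - 1] := by simp
      rw [h9, cf_wd, if_pos rfl, map_zero] at h8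
      exact one_ne_zero h8
    have hk2 : kap ψ ∈ Fil ℕ 2 := by
      rw [hg, zero_smul, sub_zero] at hk
      exact hk
    exact kap_inj hN hψ hψN (cent_zero (by omega) hc hs hψ hψN hk2 h1)

end Pool.Agent.W_cf9a97_h77
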