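import Mathlib

/-!
# A polynomial identity with small right hand side
-/

set_option autoImplicit false

namespace Pool.Agent.W_cf9a97_h77

open Polynomial

theorem monic_Xa (a : ℕ) : ((X : ℚ[X]) ^ a).Monic := monic_X_pow a

theorem monic_X1 : ((X : ℚ[X]) + 1).Monic := by
  have := monic_X_add_C (1 : ℚ)
  rwa [map_one] at this

theorem natDegree_X1 : ((X : ℚ[X]) + 1).natDegree = 1 := by
  have := natDegree_X_add_C (1 : ℚ)
  rwa [map_one] at this

theorem monic_X1a (a : ℕ) : (((X : ℚ[X]) + 1) ^ a).Monic := monic_X1.pow a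

theorem natDegree_Xa (a : ℕ) : ((X : ℚ[X]) ^ a).natDegree = a := natDegree_X_pow a

theorem natDegree_X1a (a : ℕ) : (((X : ℚ[X]) + 1) ^ a).natDegree = a := by
  rw [monic_X1.natDegree_pow, natDegree_X1, mul_one]

theorem sub_one_monic {p : ℚ[X]} (hp : p.Monic) (h : 1 ≤ p.natDegree) :
    (p - 1).Monic ∧ (p - 1).natDegree = p.natDegree := by
  have h1 : (1 : ℚ[X]).degree < p.degree := by
    rw [degree_one, degree_eq_natDegree hp.ne_zero]
    exact_mod_cast h
  exact ⟨hp.sub_of_left h1, natDegree_eq_of_degree_eq (degree_sub_eq_left_of_degree_lt h1)⟩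

/-- The polynomial lemma. -/
theorem poly_contra (a d D : ℕ) (ha : 1 ≤ a) (hd : 2 ≤ d) (hD : 1 ≤ D) (c : ℚ) (S : ℚ[X])
    (hS : S.natDegree ≤ a * (d - 1))
    (h : C c * ((X ^ a - 1) ^ d * (X + 1) ^ D - ((X + 1) ^ a - 1) ^ d * X ^ D) =
      ((X ^ a - 1) - ((X + 1) ^ a - 1)) * S) : c = 0 := by
  by_contra hc
  set U : ℚ[X] := X ^ a with hU
  set V : ℚ[X] := (X + 1) ^ a with hV
  have hUm : U.Monic := monic_Xa a
  have hVm : V.Monic := monic_X1a a
  have hUn : U.natDegree = a := natDegree_Xa a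
  have hVn : V.natDegree = a := natDegree_X1a a
  obtain ⟨hum, hun⟩ := sub_one_monic hUm (by omega)
  obtain ⟨hvm, hvn⟩ := sub_one_monic hVm (by omega)
  set u : ℚ[X] := U - 1 with hu
  set v : ℚ[X] := V - 1 with hv
  rw [hUn] at hun
  rw [hVn] at hvn
  have hsub : ((u - v) * S).degree < ((a * d : ℕ) : WithBot ℕ) := by
    have h1 : (u - v).degree < ((a : ℕ) : WithBot ℕ) := by
      have h2 : u.degree = v.degree := by
        rw [degree_eq_natDegree hum.ne_zero, degree_eq_natDegree hvm.ne_zero, hun, hvn]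
      have h3 := degree_sub_lt_left h2 hum.ne_zero (by rw [hum.leadingCoeff, hvm.leadingCoeff])
      rwa [degree_eq_natDegree hum.ne_zero, hun] at h3
    by_cases hS0 : S = 0
    · rw [hS0, mul_zero, degree_zero]
      exact WithBot.bot_lt_coe _
    by_cases huv : u - v = 0
    · rw [huv, zero_mul, degree_zero]
      exact WithBot.bot_lt_coe _
    rw [degree_mul, degree_eq_natDegree hS0, degree_eq_natDegree huv]
    rw [degree_eq_natDegree huv] at h1
    have h1' : (u - v).natDegree < a := by exact_mod_cast h1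
    have h4 : (u - v).natDegree + S.natDegree < a * d := by
      obtain ⟨d', rfl⟩ : ∃ d', d = d' + 1 := ⟨d - 1, by omega⟩
      have h5 : a * (d' + 1) = a * d' + a := by ring
      rw [Nat.add_sub_cancel] at hS
      omega
    exact_mod_cast h4
  rw [← h, degree_mul, degree_C hc, zero_add] at hsub
  set p1 : ℚ[X] := u ^ d * (X + 1) ^ D with hp1
  set p2 : ℚ[X] := v ^ d * X ^ D with hp2
  have hp1m : p1.Monic := (hum.pow d).mul (monic_X1a D)
  have hp2m : p2.Monic := (hvm.pow d).mul (monic_Xa D)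
  have hp1n : p1.natDegree = a * d + D := by
    rw [hp1, (hum.pow d).natDegree_mul (monic_X1a D), hum.natDegree_pow, hun, natDegree_X1a]
    ring
  have hp2n : p2.natDegree = a * d + D := by
    rw [hp2, (hvm.pow d).natDegree_mul (monic_Xa D), hvm.natDegree_pow, hvn, natDegree_Xa]
    ring
  have hDad : D = a * d := by
    have h1 : p1.nextCoeff = p2.nextCoeff := by
      rw [nextCoeff_of_natDegree_pos (by omega), nextCoeff_of_natDegree_pos (by omega), hp1n, hp2n]
      have h2 : (p1 - p2).coeff (a * d + D - 1) = 0 := by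
        apply coeff_eq_zero_of_degree_lt
        refine hsub.trans_le ?_
        have : a * d ≤ a * d + D - 1 := by omega
        exact_mod_cast this
      rw [coeff_sub, sub_eq_zero] at h2
      exact h2
    have hX1 : ((X : ℚ[X]) + 1).nextCoeff = 1 := by
      have := nextCoeff_X_add_C (1 : ℚ)
      rwa [map_one] at this
    have hX0 : (X : ℚ[X]).nextCoeff = 0 := by
      have := nextCoeff_X_add_C (0 : ℚ)
      rwa [map_zero, add_zero] at this
    have hUc : U.coeff (a - 1) = 0 := by
      have h2 : U.nextCoeff = 0 := by rw [hU, monic_X.nextCoeff_pow, hX0, smul_zero]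
      rwa [nextCoeff_of_natDegree_pos (by omega), hUn] at h2
    have hVc : V.coeff (a - 1) = a := by
      have h2 : V.nextCoeff = a := by rw [hV, monic_X1.nextCoeff_pow, hX1, nsmul_one]
      rwa [nextCoeff_of_natDegree_pos (by omega), hVn] at h2
    have huc : u.nextCoeff = -(1 : ℚ[X]).coeff (a - 1) := by
      rw [nextCoeff_of_natDegree_pos (by omega), hun, hu, coeff_sub, hUc, zero_sub]
    have hvc : v.nextCoeff = a - (1 : ℚ[X]).coeff (a - 1) := by
      rw [nextCoeff_of_natDegree_pos (by omega), hvn, hv, coeff_sub, hVc]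
    rw [hp1, hp2, (hum.pow d).nextCoeff_mul (monic_X1a D), (hvm.pow d).nextCoeff_mul (monic_Xa D),
      hum.nextCoeff_pow, hvm.nextCoeff_pow, monic_X1.nextCoeff_pow, monic_X.nextCoeff_pow, huc,
      hvc, hX1, hX0, smul_zero, nsmul_one, nsmul_eq_mul, nsmul_eq_mul] at h1
    have h3 : (D : ℚ) = a * d := by linarith
    exact_mod_cast h3
  have hgeo : p1 - p2 = (∑ i ∈ Finset.range d, (u * V) ^ i * (v * U) ^ (d - 1 - i)) * (U - V) := by
    have h1 : u * V - v * U = U - V := by rw [hu, hv]; ring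
    rw [← h1, geom_sum₂_mul, hp1, hp2, hDad, pow_mul, pow_mul, ← hU, ← hV, mul_pow, mul_pow]
  have hUV : U - V ≠ 0 := by
    intro h1
    have h2 := congrArg (Polynomial.eval 0) h1
    rw [hU, hV] at h2
    simp at h2
    rw [zero_pow (by omega)] at h2
    norm_num at h2
  have hsum : (∑ i ∈ Finset.range d, (u * V) ^ i * (v * U) ^ (d - 1 - i)).coeff
      (2 * a * (d - 1)) = d := by
    rw [finsetSum_coeff]
    have h1 : ∀ i ∈ Finset.range d,
        ((u * V) ^ i * (v * U) ^ (d - 1 - i)).coeff (2 * a * (d - 1)) = 1 := by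
      intro i hi
      have hi' := Finset.mem_range.1 hi
      have hm1 : (u * V).Monic := hum.mul hVm
      have hm2 : (v * U).Monic := hvm.mul hUm
      have hn1 : (u * V).natDegree = 2 * a := by rw [hum.natDegree_mul hVm, hun, hVn]; ring
      have hn2 : (v * U).natDegree = 2 * a := by rw [hvm.natDegree_mul hUm, hvn, hUn]; ring
      have hm : ((u * V) ^ i * (v * U) ^ (d - 1 - i)).Monic := (hm1.pow i).mul (hm2.pow _)
      have hn : ((u * V) ^ i * (v * U) ^ (d - 1 - i)).natDegree = 2 * a * (d - 1) := by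
        rw [(hm1.pow i).natDegree_mul (hm2.pow _), hm1.natDegree_pow, hm2.natDegree_pow, hn1, hn2]
        have h2 : i + (d - 1 - i) = d - 1 := by omega
        calc i * (2 * a) + (d - 1 - i) * (2 * a) = (i + (d - 1 - i)) * (2 * a) := by ring
          _ = 2 * a * (d - 1) := by rw [h2]; ring
      rw [← hn]
      exact hm
    rw [Finset.sum_congr rfl h1]
    simp
  have hsum0 : (∑ i ∈ Finset.range d, (u * V) ^ i * (v * U) ^ (d - 1 - i)).coeff
      (2 * a * (d - 1)) ≠ 0 := by
    rw [hsum]
    exact_mod_cast (by omega : d ≠ 0)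
  have hdeg := le_degree_of_ne_zero hsum0
  have hdeg2 : ((2 * a * (d - 1) : ℕ) : WithBot ℕ) ≤ (p1 - p2).degree := by
    rw [hgeo, degree_mul]
    have h1 : (0 : WithBot ℕ) ≤ (U - V).degree := by
      rw [degree_eq_natDegree hUV]
      exact_mod_cast Nat.zero_le _
    calc ((2 * a * (d - 1) : ℕ) : WithBot ℕ) = ((2 * a * (d - 1) : ℕ) : WithBot ℕ) + 0 := by
          rw [add_zero]
      _ ≤ _ := add_le_add hdeg h1
  have hlt := hdeg2.trans_lt hsub
  have hlt' : 2 * a * (d - 1) < a * d := by exact_mod_cast hlt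
  obtain ⟨d', rfl⟩ : ∃ d', d = d' + 2 := ⟨d - 2, by omega⟩
  have h5 : 2 * a * (d' + 2 - 1) = a * d' + a * d' + 2 * a := by
    have : d' + 2 - 1 = d' + 1 := by omega
    rw [this]; ring
  have h6 : a * (d' + 2) = a * d' + 2 * a := by ring
  omega

end Pool.Agent.W_cf9a97_h77
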