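import Pool.Agent.W_cf9a97_h77.Eval
import Pool.Agent.W_cf9a97_h77.Poly

/-!
# Elements commuting with a letter

If `h` is homogeneous of length `d ≥ 2` and positive letter sum and
`act (e a) h = h * e a + dl^a [e 0, h]` with `a ≥ 1`, then `h = 0`.
-/

set_option autoImplicit false

namespace Pool.Agent.W_cf9a97_h77

open FreeAlgebra

section general

variable {R : Type*} [CommRing R]

/-- The points `0, ..., 0, 1, 0, ..., 0`. -/
def LP (R : Type*) [CommRing R] (i j : ℕ) : List R := List.replicate i 0 ++ 1 :: List.replicate j 0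

theorem LP_zero (j : ℕ) : LP R 0 j = 1 :: List.replicate j 0 := rfl

theorem LP_succ (i j : ℕ) : LP R (i + 1) j = 0 :: LP R i j := rfl

/-- Correction term. -/
def BB (z : Option R) (i : ℕ) : ℕ → List ℕ → R
  | 0, _ => 0
  | j + 1, w => match z with
    | none => evw (LP R i j) w
    | some z => evw (z :: LP R i j) w

/-- Main term. -/
def AA : ℕ → ℕ → List ℕ → R
  | 0, _, _ => 0
  | i + 1, j, w => evw (LP R i j) w

theorem evDw_zero (a : ℕ) : ∀ (m : ℕ) (w : List ℕ), evDw a (List.replicate m (0 : R)) w = 0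
  | 0, w => by rw [List.replicate_zero, evDw]
  | m + 1, [] => by rw [List.replicate_succ, evDw]
  | 1, k :: w => by
    show evDw a [(0 : R)] (k :: w) = 0
    rw [evDw]
  | m + 2, k :: w => by
    have h := evDw_zero a (m + 1) w
    rw [List.replicate_succ] at h
    rw [List.replicate_succ, List.replicate_succ, evDw, h]
    ring

theorem evDw_one (a : ℕ) (ha : 1 ≤ a) (j : ℕ) (w : List ℕ) :
    evDw a (1 :: List.replicate j (0 : R)) w = -BB none 0 j w := by
  cases w with
  | nil =>
    rw [evDw]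
    cases j with
    | zero => rw [BB, neg_zero]
    | succ j => rw [BB, LP_zero, evw, neg_zero]
  | cons k w =>
    cases j with
    | zero =>
      rw [BB, neg_zero]
      show evDw a [(1 : R)] (k :: w) = 0
      rw [evDw]
    | succ j =>
      have h := evDw_zero (R := R) a (j + 1) w
      rw [List.replicate_succ] at h
      rw [List.replicate_succ, evDw, h, BB, LP_zero, evw, zero_pow (by omega)]
      ring

theorem evDw_LP (a : ℕ) (ha : 1 ≤ a) (i j : ℕ) (w : List ℕ) :
    evDw a (LP R i j) w = AA i j w - BB none i j w := by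
  induction i generalizing w with
  | zero => rw [LP_zero, evDw_one a ha, AA, zero_sub]
  | succ i ih =>
    cases w with
    | nil =>
      rw [LP_succ, evDw]
      have h1 : evw (LP R i j) [] = 0 := evw_length _ _ (by simp [LP])
      rw [AA, h1]
      cases j with
      | zero => rw [BB, sub_zero]
      | succ j => rw [BB, LP_succ, evw, sub_zero]
    | cons k w =>
      rw [AA]
      have hB : BB none (i + 1) j (k :: w) = (0 : R) ^ k * BB none i j w := by
        cases j with
        | zero => rw [BB, BB, mul_zero]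
        | succ j => rw [BB, BB, LP_succ, evw]
      rw [hB]
      cases i with
      | zero =>
        rw [LP_succ, LP_zero, evDw, ← LP_zero, ih, AA, LP_zero, evw, zero_pow (by omega : a ≠ 0)]
        ring
      | succ i =>
        rw [LP_succ, LP_succ, evDw, ← LP_succ, ih, AA, LP_succ, evw]
        ring

theorem evDw_z (a : ℕ) (ha : 1 ≤ a) (z : R) (i j : ℕ) (w : List ℕ) :
    evDw a (z :: LP R (i + 1) j) w =
      (1 - z ^ a) * evw (z :: LP R i j) w - BB (some z) (i + 1) j w := by
  cases w with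
  | nil =>
    rw [evDw, evw]
    cases j with
    | zero => rw [BB]; ring
    | succ j => rw [BB, evw]; ring
  | cons k w =>
    have h1 := evDw_LP (R := R) a ha (i + 1) j w
    rw [LP_succ] at h1
    have hB : BB (some z) (i + 1) j (k :: w) = z ^ k * BB none (i + 1) j w := by
      cases j with
      | zero => rw [BB, BB, mul_zero]
      | succ j => rw [BB, BB, evw]
    rw [LP_succ, evDw, h1, hB, evw, AA, zero_pow (by omega : a ≠ 0)]
    ring

theorem evDw_z0 (a : ℕ) (ha : 1 ≤ a) (z : R) (j : ℕ) (w : List ℕ) :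
    evDw a (z :: LP R 0 j) w =
      (1 - z ^ a) * evw ((z + 1) :: List.replicate j 0) w - BB (some z) 0 j w := by
  cases w with
  | nil =>
    rw [evDw, evw]
    cases j with
    | zero => rw [BB]; ring
    | succ j => rw [BB, evw]; ring
  | cons k w =>
    have h1 := evDw_LP (R := R) a ha 0 j w
    rw [LP_zero] at h1
    have hB : BB (some z) 0 j (k :: w) = z ^ k * BB none 0 j w := by
      cases j with
      | zero => rw [BB, BB, mul_zero]
      | succ j => rw [BB, BB, evw]
    rw [LP_zero, evDw, h1, hB, evw, AA]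
    ring

theorem LP_sum (i j : ℕ) : (LP R i j).sum = 1 := by
  simp [LP]

theorem LP_length (i j : ℕ) : (LP R i j).length = i + j + 1 := by
  simp [LP]; omega

theorem LP_last (i j : ℕ) : LP R i (j + 1) = LP R i j ++ [0] := by
  rw [LP, LP, List.append_assoc, List.cons_append, ← List.replicate_succ']

theorem LP_last0 (i : ℕ) : LP R i 0 = List.replicate i 0 ++ [1] := rfl

end general

section
variable {R : Type*} [CommRing R] [Algebra ℚ R]

theorem lift_wd {M : Type*} [AddCommGroup M] [Module ℚ M] (f g : FreeAlgebra ℚ ℕ →ₗ[ℚ] M)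
    (h : ∀ w, f (wd w) = g (wd w)) (b : FreeAlgebra ℚ ℕ) : f b = g b := by
  rw [hom_ext_wd h]

/-- Evaluation of `DD`, last `0`. -/
theorem ev_z_succ (a : ℕ) (ha : 1 ≤ a) (z : R) (i j : ℕ) (b : FreeAlgebra ℚ ℕ) :
    ev (z :: LP R (i + 1) (j + 1)) (DD (e a) b) =
      (1 - z ^ a) * ev (z :: LP R i (j + 1)) b - ev (z :: LP R (i + 1) j) b := by
  refine lift_wd (ev (z :: LP R (i + 1) (j + 1)) ∘ₗ DD (e a))
    ((LinearMap.mulLeft ℚ (1 - z ^ a)) ∘ₗ ev (z :: LP R i (j + 1)) - ev (z :: LP R (i + 1) j))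
    (fun w => ?_) b
  rw [LinearMap.comp_apply, ev_DD, evDw_z a ha, BB, LinearMap.sub_apply, LinearMap.comp_apply,
    LinearMap.mulLeft_apply, ev_wd, ev_wd]

theorem ev_z_zero (a : ℕ) (ha : 1 ≤ a) (z : R) (i : ℕ) (b : FreeAlgebra ℚ ℕ) :
    ev (z :: LP R (i + 1) 0) (DD (e a) b) = (1 - z ^ a) * ev (z :: LP R i 0) b := by
  refine lift_wd (ev (z :: LP R (i + 1) 0) ∘ₗ DD (e a))
    ((LinearMap.mulLeft ℚ (1 - z ^ a)) ∘ₗ ev (z :: LP R i 0)) (fun w => ?_) b
  rw [LinearMap.comp_apply, ev_DD, evDw_z a ha, BB, LinearMap.comp_apply,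
    LinearMap.mulLeft_apply, ev_wd, sub_zero]

theorem ev_z0_succ (a : ℕ) (ha : 1 ≤ a) (z : R) (j : ℕ) (b : FreeAlgebra ℚ ℕ) :
    ev (z :: LP R 0 (j + 1)) (DD (e a) b) =
      (1 - z ^ a) * ev ((z + 1) :: List.replicate (j + 1) 0) b - ev (z :: LP R 0 j) b := by
  refine lift_wd (ev (z :: LP R 0 (j + 1)) ∘ₗ DD (e a))
    ((LinearMap.mulLeft ℚ (1 - z ^ a)) ∘ₗ ev ((z + 1) :: List.replicate (j + 1) 0) -
      ev (z :: LP R 0 j)) (fun w => ?_) b
  rw [LinearMap.comp_apply, ev_DD, evDw_z0 a ha, BB, LinearMap.sub_apply, LinearMap.comp_apply,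
    LinearMap.mulLeft_apply, ev_wd, ev_wd]

theorem ev_last (l : List R) (y : R) (k : ℕ) {u : FreeAlgebra ℚ ℕ} (hu : u ∈ Hom ℕ l.length) :
    ev (l ++ [y]) (u * e k) = ev l u * y ^ k := by
  rw [ev_mul l [y] hu]
  congr 1
  have h5 : (e k) = wd [k] := by rw [wd_cons, wd_nil, mul_one]
  rw [h5, ev_wd, evw, evw, mul_one]

/-- The equation. -/
def EqA (a : ℕ) (h : FreeAlgebra ℚ ℕ) : Prop :=
  act (e a) h = h * e a + (dl ^ a) (e 0 * h - h * e 0)

theorem ev_e0 (z : R) (l : List R) (h : FreeAlgebra ℚ ℕ) : ev (z :: l) (e 0 * h) = ev l h := by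
  rw [ev_cons, pow_zero, one_mul]

/-- Equation at `z, 0, ..., 0, 1, 0, ..., 0`. -/
theorem eq_mid {a : ℕ} (ha : 1 ≤ a) {d : ℕ} {h : FreeAlgebra ℚ ℕ} (hh : h ∈ Hom ℕ d)
    (hE : EqA a h) (z : R) (i j : ℕ) (hij : i + j + 3 = d) :
    (z ^ a - 1) * ev (z :: LP R i (j + 1)) h =
      ((z + 1) ^ a - 1) * ev (z :: LP R (i + 1) j) h +
        ((z ^ a - 1) - ((z + 1) ^ a - 1)) * ev (LP R (i + 1) (j + 1)) h := by
  have h1 := congrArg (ev (z :: LP R (i + 1) (j + 1))) hE
  have hl : h ∈ Hom ℕ (z :: LP R (i + 1) j).length := by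
    rw [List.length_cons, LP_length]
    have : i + 1 + j + 1 + 1 = d := by omega
    rwa [this]
  have h2 : ∀ k, ev (z :: LP R (i + 1) (j + 1)) (h * e k) =
      ev (z :: LP R (i + 1) j) h * 0 ^ k := by
    intro k
    rw [LP_last, ← List.cons_append]
    exact ev_last _ 0 k hl
  rw [act_apply, map_add, map_add, ev_cons, ev_z_succ a ha, ev_dl_pow, map_sub, h2, h2, ev_e0,
    List.sum_cons, LP_sum, zero_pow (by omega : a ≠ 0), pow_zero] at h1
  linear_combination (-1 : R) * h1

theorem eq_first {a : ℕ} (ha : 1 ≤ a) {d : ℕ} {h : FreeAlgebra ℚ ℕ} (hh : h ∈ Hom ℕ d)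
    (hE : EqA a h) (z : R) (i : ℕ) (hij : i + 2 = d) :
    (z ^ a - 1) * ev (z :: LP R i 0) h =
      ((z + 1) ^ a - 1) * ev (z :: List.replicate (i + 1) 0) h +
        ((z ^ a - 1) - ((z + 1) ^ a - 1)) * ev (LP R (i + 1) 0) h := by
  have h1 := congrArg (ev (z :: LP R (i + 1) 0)) hE
  have hl : h ∈ Hom ℕ (z :: List.replicate (i + 1) (0 : R)).length := by
    rw [List.length_cons, List.length_replicate]
    rwa [hij]
  have h2 : ∀ k, ev (z :: LP R (i + 1) 0) (h * e k) =
      ev (z :: List.replicate (i + 1) 0) h * 1 ^ k := by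
    intro k
    rw [LP_last0, ← List.cons_append]
    exact ev_last _ 1 k hl
  rw [act_apply, map_add, map_add, ev_cons, ev_z_zero a ha, ev_dl_pow, map_sub, h2, h2, ev_e0,
    List.sum_cons, LP_sum, one_pow, one_pow] at h1
  linear_combination (-1 : R) * h1

theorem eq_end {a : ℕ} (ha : 1 ≤ a) {d : ℕ} {h : FreeAlgebra ℚ ℕ} (hh : h ∈ Hom ℕ d)
    (hE : EqA a h) (z : R) (j : ℕ) (hij : j + 2 = d) :
    (z ^ a - 1) * ev ((z + 1) :: List.replicate (j + 1) 0) h =
      ((z + 1) ^ a - 1) * ev (z :: LP R 0 j) h +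
        ((z ^ a - 1) - ((z + 1) ^ a - 1)) * ev (LP R 0 (j + 1)) h := by
  have h1 := congrArg (ev (z :: LP R 0 (j + 1))) hE
  have hl : h ∈ Hom ℕ (z :: LP R 0 j).length := by
    rw [List.length_cons, LP_length]
    have : 0 + j + 1 + 1 = d := by omega
    rwa [this]
  have h2 : ∀ k, ev (z :: LP R 0 (j + 1)) (h * e k) = ev (z :: LP R 0 j) h * 0 ^ k := by
    intro k
    rw [LP_last, ← List.cons_append]
    exact ev_last _ 0 k hl
  rw [act_apply, map_add, map_add, ev_cons, ev_z0_succ a ha, ev_dl_pow, map_sub, h2, h2, ev_e0,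
    List.sum_cons, LP_sum, zero_pow (by omega : a ≠ 0), pow_zero] at h1
  linear_combination (-1 : R) * h1

end

open Polynomial in
theorem natDegree_ev (i j : ℕ) (h : FreeAlgebra ℚ ℕ) : (ev (LP ℚ[X] i j) h).natDegree = 0 := by
  have h0 : ∀ l : List ℚ[X], (∀ p ∈ l, p.natDegree = 0) → ∀ w, (evw l w).natDegree = 0 := by
    intro l
    induction l with
    | nil =>
      intro _ w
      cases w with
      | nil => rw [evw]; exact natDegree_one
      | cons k w => rw [evw]; exact natDegree_zero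
    | cons p l ih =>
      intro hl w
      cases w with
      | nil => rw [evw]; exact natDegree_zero
      | cons k w =>
        rw [evw]
        have h1 := ih (fun q hq => hl q (List.mem_cons_of_mem _ hq)) w
        have h2 := hl p List.mem_cons_self
        have h3 := natDegree_mul_le (p := p ^ k) (q := evw l w)
        have h4 := natDegree_pow_le (p := p) (n := k)
        rw [h2, mul_zero] at h4
        omega
  have hl : ∀ p ∈ LP ℚ[X] i j, p.natDegree = 0 := by
    intro p hp
    rw [LP, List.mem_append, List.mem_cons, List.mem_replicate, List.mem_replicate] at hp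
    rcases hp with h1 | h1 | h1
    · rw [h1.2]; exact natDegree_zero
    · rw [h1]; exact natDegree_one
    · rw [h1.2]; exact natDegree_zero
  induction h using ind_wd with
  | h0 => rw [map_zero]; exact natDegree_zero
  | ha a b h1 h2 =>
    rw [map_add]
    have h3 := natDegree_add_le (ev (LP ℚ[X] i j) a) (ev (LP ℚ[X] i j) b)
    rw [h1, h2] at h3
    omega
  | hs c a h1 =>
    rw [map_smul]
    have h3 := natDegree_smul_le c (ev (LP ℚ[X] i j) a)
    omega
  | hw w => rw [ev_wd]; exact h0 _ hl w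

/-- The sequence of evaluations. -/
noncomputable def PS (d : ℕ) (h : FreeAlgebra ℚ ℕ) : ℕ → Polynomial ℚ
  | 0 => ev (Polynomial.X :: List.replicate (d - 1) 0) h
  | j + 1 => if j + 1 = d then ev ((Polynomial.X + 1) :: List.replicate (d - 1) 0) h
      else ev (Polynomial.X :: LP (Polynomial ℚ) (d - 2 - j) j) h

open Polynomial in
theorem PS_rec {a : ℕ} (ha : 1 ≤ a) {d : ℕ} (hd : 2 ≤ d) {h : FreeAlgebra ℚ ℕ} (hh : h ∈ Hom ℕ d)
    (hE : EqA a h) (j : ℕ) (hj : j < d) :
    (X ^ a - 1) * PS d h (j + 1) = ((X + 1) ^ a - 1) * PS d h j +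
      ((X ^ a - 1) - ((X + 1) ^ a - 1)) * ev (LP ℚ[X] (d - 1 - j) j) h := by
  obtain ⟨d', rfl⟩ : ∃ d', d = d' + 2 := ⟨d - 2, by omega⟩
  have e1 : d' + 2 - 1 = d' + 1 := by omega
  cases j with
  | zero =>
    have h1 := eq_first (R := ℚ[X]) ha hh hE X d' rfl
    rw [PS, PS, if_neg (by omega), e1]
    have e2 : d' + 2 - 2 - 0 = d' := by omega
    rw [e2, Nat.sub_zero]
    exact h1
  | succ j =>
    by_cases hj' : j = d'
    · subst hj'
      have h1 := eq_end (R := ℚ[X]) ha hh hE X j rfl
      rw [PS, PS, if_pos rfl, if_neg (by omega), e1]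
      have e2 : j + 2 - 2 - j = 0 := by omega
      have e3 : j + 1 - (j + 1) = 0 := by omega
      rw [e2, e3]
      exact h1
    · obtain ⟨i, rfl⟩ : ∃ i, d' = i + j + 1 := ⟨d' - j - 1, by omega⟩
      have h1 := eq_mid (R := ℚ[X]) ha hh hE X i j (by omega)
      rw [PS, PS, if_neg (by omega), if_neg (by omega), e1]
      have e2 : i + j + 1 + 2 - 2 - (j + 1) = i := by omega
      have e3 : i + j + 1 + 2 - 2 - j = i + 1 := by omega
      have e4 : i + j + 1 + 1 - (j + 1) = i + 1 := by omega
      rw [e2, e3, e4]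
      exact h1

open Polynomial in
theorem PS_sol {a : ℕ} (ha : 1 ≤ a) {d : ℕ} (hd : 2 ≤ d) {h : FreeAlgebra ℚ ℕ} (hh : h ∈ Hom ℕ d)
    (hE : EqA a h) : ∀ j, j ≤ d → ∃ S : ℚ[X], S.natDegree ≤ a * (j - 1) ∧
      (X ^ a - 1) ^ j * PS d h j = ((X + 1) ^ a - 1) ^ j * PS d h 0 +
        ((X ^ a - 1) - ((X + 1) ^ a - 1)) * S := by
  intro j
  induction j with
  | zero => intro _; exact ⟨0, by simp, by ring⟩
  | succ j ih =>
    intro hj
    obtain ⟨S, hS, hS2⟩ := ih (by omega)
    have hrec := PS_rec ha hd hh hE j (by omega)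
    refine ⟨((X + 1) ^ a - 1) * S + (X ^ a - 1) ^ j * ev (LP ℚ[X] (d - 1 - j) j) h, ?_, ?_⟩
    · have hu : ((X : ℚ[X]) ^ a - 1).natDegree = a := by
        have := (sub_one_monic (monic_Xa a) (by rw [natDegree_Xa]; exact ha)).2
        rwa [natDegree_Xa] at this
      have hv : (((X : ℚ[X]) + 1) ^ a - 1).natDegree = a := by
        have := (sub_one_monic (monic_X1a a) (by rw [natDegree_X1a]; exact ha)).2
        rwa [natDegree_X1a] at this
      rw [Nat.add_sub_cancel]
      refine (natDegree_add_le _ _).trans (max_le ?_ ?_)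
      · cases j with
        | zero =>
          have hS0 : S.natDegree = 0 := by
            have : a * (0 - 1) = 0 := by simp
            omega
          have hz : ((X ^ a - 1 : ℚ[X]) - ((X + 1) ^ a - 1)) * S = 0 := by
            rw [pow_zero, pow_zero, one_mul] at hS2
            exact (left_eq_add.1 hS2)
          have hne : ((X ^ a - 1 : ℚ[X]) - ((X + 1) ^ a - 1)) ≠ 0 := by
            intro h1
            have h2 := congrArg (Polynomial.eval 0) h1
            simp at h2
            rw [zero_pow (by omega)] at h2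
            norm_num at h2
          rw [(mul_eq_zero.1 hz).resolve_left hne, mul_zero, natDegree_zero]
          exact Nat.zero_le _
        | succ j =>
          refine natDegree_mul_le.trans ?_
          rw [hv]
          have : j + 1 - 1 = j := by omega
          rw [this] at hS
          have h5 : a * (j + 1) = a * j + a := by ring
          omega
      · refine natDegree_mul_le.trans ?_
        rw [natDegree_ev, add_zero]
        refine natDegree_pow_le.trans ?_
        rw [hu, mul_comm]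
    · rw [pow_succ, pow_succ]
      linear_combination (X ^ a - 1) ^ j * hrec + ((X + 1) ^ a - 1) * hS2

theorem evw_replicate {R : Type*} [CommRing R] (m : ℕ) (w : List ℕ) :
    evw (List.replicate m (0 : R)) w = if w = List.replicate m 0 then 1 else 0 := by
  induction m generalizing w with
  | zero =>
    rw [List.replicate_zero, List.replicate_zero]
    cases w with
    | nil => rw [evw, if_pos rfl]
    | cons k w => rw [evw, if_neg (by simp)]
  | succ m ih =>
    rw [List.replicate_succ, List.replicate_succ]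
    cases w with
    | nil => rw [evw, if_neg (by simp)]
    | cons k w =>
      rw [evw, ih]
      by_cases hk : k = 0
      · subst hk
        rw [pow_zero, one_mul]
        by_cases hw : w = List.replicate m 0
        · rw [if_pos hw, if_pos (by rw [hw])]
        · rw [if_neg hw, if_neg (fun h => hw (List.cons.inj h).2)]
      · rw [zero_pow hk, zero_mul, if_neg (fun h => hk (List.cons.inj h).1)]

/-- Words of length `d` and letter sum `D`. -/
def HW (d D : ℕ) : Submodule ℚ (FreeAlgebra ℚ ℕ) :=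
  Sup (fun w : List ℕ => w.length = d ∧ w.sum = D)

open Polynomial in
theorem ev_top {d D : ℕ} (hd : 1 ≤ d) {h : FreeAlgebra ℚ ℕ} (hh : h ∈ HW d D) (y : ℚ[X]) :
    ev (y :: List.replicate (d - 1) 0) h = C (cf (D :: List.replicate (d - 1) 0) h) * y ^ D := by
  refine Sup_ind (Q := fun w : List ℕ => w.length = d ∧ w.sum = D)
    (P := fun h => ev (y :: List.replicate (d - 1) 0) h =
      C (cf (D :: List.replicate (d - 1) 0) h) * y ^ D) ?_ ?_ ?_ ?_ hh
  · rw [map_zero, map_zero, map_zero, zero_mul]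
  · intro a b ha hb; rw [map_add, ha, hb, map_add, map_add, add_mul]
  · intro c a ha
    rw [map_smul, ha, map_smul, smul_eq_mul, map_mul, mul_assoc, smul_eq_C_mul]
  · rintro w ⟨hw1, hw2⟩
    cases w with
    | nil => simp at hw1; omega
    | cons k w =>
      rw [ev_wd, evw, evw_replicate, cf_wd]
      by_cases hw : w = List.replicate (d - 1) 0
      · have hk : k = D := by
          rw [List.sum_cons, hw, List.sum_replicate, smul_zero, add_zero] at hw2
          exact hw2
        rw [if_pos hw, if_pos (by rw [hw, hk]), hk, map_one, one_mul, mul_one]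
      · rw [if_neg hw, if_neg (fun h => hw (List.cons.inj h).2), map_zero, zero_mul, mul_zero]

/-- The top coefficient vanishes. -/
theorem top_zero {a : ℕ} (ha : 1 ≤ a) {d D : ℕ} (hd : 2 ≤ d) (hD : 1 ≤ D)
    {h : FreeAlgebra ℚ ℕ} (hh : h ∈ HW d D) (hE : EqA a h) :
    cf (D :: List.replicate (d - 1) 0) h = 0 := by
  have hh' : h ∈ Hom ℕ d := Sup_mono (fun w hw => hw.1) hh
  obtain ⟨S, hS, hS2⟩ := PS_sol ha hd hh' hE d le_rfl
  obtain ⟨d', rfl⟩ : ∃ d', d = d' + 1 := ⟨d - 1, by omega⟩
  rw [PS, PS, if_pos rfl, ev_top (by omega) hh, ev_top (by omega) hh] at hS2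
  refine poly_contra a (d' + 1) D ha hd hD _ S hS ?_
  linear_combination hS2

end Pool.Agent.W_cf9a97_h77
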