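import Pool.Agent.W_cf9a97_h77.Base

/-!
# The action of depth one elements

`FreeAlgebra ℚ ℕ` has the letters `e k` (`k` = exponent, `e k` stands for `ad(x)^k y`), `dl` is the
derivation `e k ↦ e (k + 1)`, `act g b = g b + D_g b` with the derivation
`D_g (e k) = dl^k [e 0, g]`.
-/

set_option autoImplicit false

namespace Pool.Agent.W_cf9a97_h77

open FreeAlgebra

/-- The letters. -/
noncomputable abbrev e (k : ℕ) : FreeAlgebra ℚ ℕ := ι ℚ k

/-- The derivation `e k ↦ e (k + 1)`. -/
noncomputable def dl : FreeAlgebra ℚ ℕ →ₗ[ℚ] FreeAlgebra ℚ ℕ := der (fun k => e (k + 1))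

/-- The derivation `D_g`. -/
noncomputable def DD (g : FreeAlgebra ℚ ℕ) : FreeAlgebra ℚ ℕ →ₗ[ℚ] FreeAlgebra ℚ ℕ :=
  der (fun k => (dl ^ k) (e 0 * g - g * e 0))

/-- The action of `g`. -/
noncomputable def act (g : FreeAlgebra ℚ ℕ) : FreeAlgebra ℚ ℕ →ₗ[ℚ] FreeAlgebra ℚ ℕ :=
  LinearMap.mulLeft ℚ g + DD g

theorem act_apply (g b : FreeAlgebra ℚ ℕ) : act g b = g * b + DD g b := rfl

section general
variable {X : Type*} [DecidableEq X]

theorem J_mul (s : X) (b c : FreeAlgebra ℚ X) :
    J s (b * c) = J s b * c + cf [] b • J s c := by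
  induction b using ind_wd with
  | h0 => simp
  | ha a b ha hb => rw [add_mul, map_add, map_add, map_add, ha, hb, add_mul, add_smul]; abel
  | hs q a ha =>
    rw [smul_mul_assoc, map_smul, map_smul, map_smul, ha, smul_mul_assoc, smul_add, smul_assoc]
  | hw w =>
    cases w with
    | nil => rw [wd_nil, one_mul, J_one, ← wd_nil, cf_wd]; simp
    | cons x w =>
      rw [cf_wd, if_neg (by simp), zero_smul, add_zero, wd_cons, mul_assoc, J_ι_mul, J_ι_mul]
      split_ifs <;> simp

theorem cf_nil_mul (a b : FreeAlgebra ℚ X) : cf [] (a * b) = cf [] a * cf [] b := by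
  induction a using ind_wd with
  | h0 => simp
  | ha a b ha hb => rw [add_mul, map_add, map_add, ha, hb, add_mul]
  | hs q a ha => rw [smul_mul_assoc, map_smul, map_smul, ha, smul_mul_assoc]
  | hw u =>
    induction b using ind_wd with
    | h0 => simp
    | ha a b ha hb => rw [mul_add, map_add, map_add, ha, hb, mul_add]
    | hs q a ha => rw [mul_smul_comm, map_smul, map_smul, ha, mul_smul_comm]
    | hw v =>
      rw [← wd_append, cf_wd, cf_wd, cf_wd]
      by_cases h : u = []
      · subst h; simp
      · rw [if_neg h, if_neg (by simp [h]), zero_mul]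

theorem cf_nil_ι (x : X) : cf [] (ι ℚ x : FreeAlgebra ℚ X) = 0 := by
  have h : (ι ℚ x : FreeAlgebra ℚ X) = wd [x] := by simp
  rw [h, cf_wd, if_neg (by simp)]

theorem cf_nil_der (g : X → FreeAlgebra ℚ X) (hg : ∀ x, cf [] (g x) = 0)
    (b : FreeAlgebra ℚ X) : cf [] (der g b) = 0 := by
  induction b using ind_wd with
  | h0 => simp
  | ha a b ha hb => simp only [map_add, ha, hb, add_zero]
  | hs q a ha => simp only [map_smul, ha, smul_zero]
  | hw w =>
    induction w with
    | nil => rw [wd_nil, der_one, map_zero]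
    | cons r w ih =>
      rw [wd_cons, der_mul, map_add, cf_nil_mul, cf_nil_mul, ih, der_ι, hg]
      ring

end general

theorem cf_nil_dl (b : FreeAlgebra ℚ ℕ) : cf [] (dl b) = 0 :=
  cf_nil_der _ (fun k => cf_nil_ι (k + 1)) b

theorem J_dl_zero (b : FreeAlgebra ℚ ℕ) : J 0 (dl b) = dl (J 0 b) := by
  induction b using ind_wd with
  | h0 => simp
  | ha a b ha hb => rw [map_add, map_add, map_add, map_add, ha, hb]
  | hs q a ha => rw [map_smul, map_smul, map_smul, map_smul, ha]
  | hw w =>
    cases w with
    | nil => rw [wd_nil, dl, der_one, J_one, map_zero]; exact (map_zero _).symm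
    | cons r w =>
      rw [wd_cons, dl, der_mul, der_ι, map_add, J_ι_mul, J_ι_mul, J_ι_mul]
      rw [if_neg (by omega : ¬ (r + 1 = 0)), add_zero]
      split_ifs
      · rfl
      · exact (map_zero _).symm

theorem J_dl_succ (s : ℕ) (b : FreeAlgebra ℚ ℕ) :
    J (s + 1) (dl b) = dl (J (s + 1) b) + J s b := by
  induction b using ind_wd with
  | h0 => simp
  | ha a b ha hb => simp only [map_add, ha, hb]; abel
  | hs q a ha => simp only [map_smul, ha, smul_add]
  | hw w =>
    cases w with
    | nil => rw [wd_nil, dl, der_one, J_one, J_one, map_zero, map_zero, add_zero]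
    | cons r w =>
      rw [wd_cons, dl, der_mul, der_ι, map_add, J_ι_mul, J_ι_mul, J_ι_mul, J_ι_mul]
      congr 1
      · split_ifs
        · rfl
        · exact (map_zero _).symm
      · simp only [Nat.add_right_cancel_iff]

/-- The leading letter of `dl^r [e 0, e a]`. -/
theorem J_br (a : ℕ) (r : ℕ) : ∀ s : ℕ, s ≤ a →
    J s ((dl ^ r) (e 0 * e a - e a * e 0)) =
      (Nat.choose r s : ℚ) • e (a + r - s) - (if s = a then e r else 0) := by
  induction r with
  | zero =>
    intro s hs
    rw [pow_zero, Module.End.one_apply, map_sub]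
    rw [J_ι_mul, J_ι_mul]
    cases s with
    | zero =>
      simp only [if_true, Nat.choose_self, Nat.cast_one, one_smul, add_zero, Nat.sub_zero]
      simp only [eq_comm]
    | succ s =>
      simp only [Nat.choose_zero_succ, Nat.cast_zero, zero_smul]
      rw [if_neg (by omega)]
      simp only [eq_comm]
  | succ r ih =>
    intro s hs
    rw [pow_succ', Module.End.mul_apply]
    cases s with
    | zero =>
      rw [J_dl_zero, ih 0 hs, map_sub, map_smul]
      rw [dl, der_ι]
      simp only [Nat.choose_zero_right, Nat.cast_one, one_smul, Nat.sub_zero]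
      congr 1
      split_ifs
      · rw [der_ι]
      · exact map_zero _
    | succ s =>
      rw [J_dl_succ, ih (s + 1) hs, ih s (by omega), map_sub, map_smul]
      rw [if_neg (by omega : ¬ (s = a)), sub_zero]
      have h1 : dl (e (a + r - (s + 1))) = e (a + r - s) := by
        rw [dl, der_ι]
        congr 1
        omega
      have h2 : dl (if s + 1 = a then e r else 0) = if s + 1 = a then e (r + 1) else 0 := by
        split_ifs
        · rw [dl, der_ι]
        · exact map_zero _
      rw [h1, h2]
      have h3 : a + (r + 1) - (s + 1) = a + r - s := by omega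
      rw [h3, Nat.choose_succ_succ, Nat.cast_add, add_smul]
      abel

/-- The operator `K a s` replaces the leading letter `r` by `C(r, s) e (a + r - s)`. -/
noncomputable def K (a s : ℕ) : FreeAlgebra ℚ ℕ →ₗ[ℚ] FreeAlgebra ℚ ℕ :=
  lin (fun w => match w with
    | [] => 0
    | r :: v => (Nat.choose r s : ℚ) • (e (a + r - s) * wd v))

theorem K_one (a s : ℕ) : K a s 1 = 0 := by
  rw [← wd_nil, K, lin_wd]

theorem K_ι_mul (a s r : ℕ) (c : FreeAlgebra ℚ ℕ) :
    K a s (ι ℚ r * c) = (Nat.choose r s : ℚ) • (e (a + r - s) * c) := by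
  induction c using ind_wd with
  | h0 => simp
  | ha a b ha hb => rw [mul_add, map_add, ha, hb, mul_add, smul_add]
  | hs c a ha => rw [mul_smul_comm, map_smul, ha, mul_smul_comm, smul_comm]
  | hw w => rw [← wd_cons, K, lin_wd]

/-- The main formula. -/
theorem J_act (a s : ℕ) (hs : s ≤ a) (b : FreeAlgebra ℚ ℕ) :
    J s (act (e a) b) = DD (e a) (J s b) + K a s b + cf [] b • J s (e a) := by
  induction b using ind_wd with
  | h0 => simp
  | ha a b ha hb => simp only [map_add, ha, hb, add_smul]; abel
  | hs q a ha => simp only [map_smul, ha, smul_add, smul_eq_mul, mul_smul]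
  | hw w =>
    cases w with
    | nil =>
      rw [wd_nil, act_apply, DD, der_one, J_one, K_one, map_zero, mul_one, add_zero, ← wd_nil,
        cf_wd]
      simp
    | cons r c =>
      rw [cf_wd, if_neg (by simp), zero_smul, add_zero, wd_cons, act_apply, K_ι_mul, J_ι_mul]
      rw [map_add, J_ι_mul]
      have h1 : DD (e a) (ι ℚ r * wd c) = ι ℚ r * DD (e a) (wd c) +
          (dl ^ r) (e 0 * e a - e a * e 0) * wd c := by
        rw [DD, der_mul, der_ι]
      rw [h1, map_add, J_ι_mul, J_mul, J_br a r s hs]
      have h2 : cf [] ((dl ^ r) (e 0 * e a - e a * e 0)) = 0 := by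
        cases r with
        | zero =>
          rw [pow_zero, Module.End.one_apply, map_sub, cf_nil_mul, cf_nil_mul]
          ring
        | succ r => rw [pow_succ', Module.End.mul_apply, cf_nil_dl]
      rw [h2, zero_smul, add_zero, sub_mul, smul_mul_assoc]
      have h3 : (if a = s then ι ℚ r * wd c else 0) =
          ((if s = a then e r else 0) * wd c : FreeAlgebra ℚ ℕ) := by
        by_cases h : a = s
        · rw [if_pos h, if_pos h.symm]
        · rw [if_neg h, if_neg (fun h' => h h'.symm), zero_mul]
      rw [h3]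
      have h4 : (if r = s then DD (e a) (wd c) else 0) = DD (e a) (if r = s then wd c else 0) := by
        split_ifs
        · rfl
        · exact (map_zero _).symm
      rw [h4]
      abel

end Pool.Agent.W_cf9a97_h77
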