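import Pool.Agent.W_cf9a97_h77.Sup

/-!
# Evaluation of words at points

`ev pts` sends a word `k_1 ... k_r` to `pts_1 ^ k_1 * ... * pts_r ^ k_r` if `r` is the length of
`pts` and to `0` otherwise.
-/

set_option autoImplicit false

namespace Pool.Agent.W_cf9a97_h77

open FreeAlgebra

variable {R : Type*} [CommRing R] [Algebra ℚ R]

/-- Evaluation of a word. -/
def evw : List R → List ℕ → R
  | [], [] => 1
  | z :: ys, k :: w => z ^ k * evw ys w
  | [], _ :: _ => 0
  | _ :: _, [] => 0

omit [Algebra ℚ R] in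
theorem evw_length : ∀ (ys : List R) (w : List ℕ), w.length ≠ ys.length → evw ys w = 0
  | [], [], h => absurd rfl h
  | z :: ys, k :: w, h => by
    have h1 : w.length ≠ ys.length := fun h2 => h (by rw [List.length_cons, List.length_cons, h2])
    rw [evw, evw_length ys w h1, mul_zero]
  | [], _ :: _, _ => rfl
  | _ :: _, [], _ => rfl

omit [Algebra ℚ R] in
theorem evw_append : ∀ (l1 l2 : List R) (w1 w2 : List ℕ), w1.length = l1.length →
    evw (l1 ++ l2) (w1 ++ w2) = evw l1 w1 * evw l2 w2
  | [], l2, [], w2, _ => by rw [List.nil_append, List.nil_append, evw, one_mul]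
  | z :: l1, l2, k :: w1, w2, h => by
    have h1 : w1.length = l1.length := by simpa using h
    rw [List.cons_append, List.cons_append, evw, evw, evw_append l1 l2 w1 w2 h1, mul_assoc]
  | [], _, _ :: _, _, h => by simp at h
  | _ :: _, _, [], _, h => by simp at h

/-- Evaluation at points. -/
noncomputable def ev (ys : List R) : FreeAlgebra ℚ ℕ →ₗ[ℚ] R := lin (evw ys)

theorem ev_wd (ys : List R) (w : List ℕ) : ev ys (wd w) = evw ys w := lin_wd _ _

theorem ev_cons (z : R) (ys : List R) (k : ℕ) (b : FreeAlgebra ℚ ℕ) :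
    ev (z :: ys) (ι ℚ k * b) = z ^ k * ev ys b := by
  induction b using ind_wd with
  | h0 => simp
  | ha a b ha hb => rw [mul_add, map_add, ha, hb, map_add, mul_add]
  | hs c a ha => rw [mul_smul_comm, map_smul, ha, map_smul, mul_smul_comm]
  | hw w => rw [← wd_cons, ev_wd, ev_wd, evw]

theorem ev_mul (l1 l2 : List R) {u : FreeAlgebra ℚ ℕ} (hu : u ∈ Hom ℕ l1.length)
    (v : FreeAlgebra ℚ ℕ) : ev (l1 ++ l2) (u * v) = ev l1 u * ev l2 v := by
  refine Sup_ind (Q := fun w => w.length = l1.length)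
    (P := fun u => ev (l1 ++ l2) (u * v) = ev l1 u * ev l2 v) ?_ ?_ ?_ ?_ hu
  · rw [zero_mul, map_zero, map_zero, zero_mul]
  · intro a b ha hb; rw [add_mul, map_add, ha, hb, map_add, add_mul]
  · intro c a ha; rw [smul_mul_assoc, map_smul, ha, map_smul, smul_mul_assoc]
  · intro w hw
    induction v using ind_wd with
    | h0 => simp
    | ha a b ha hb => rw [mul_add, map_add, ha, hb, map_add, mul_add]
    | hs c a ha => rw [mul_smul_comm, map_smul, ha, map_smul, mul_smul_comm]
    | hw v => rw [← wd_append, ev_wd, ev_wd, ev_wd, evw_append _ _ _ _ hw]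

theorem ev_dl (ys : List R) (b : FreeAlgebra ℚ ℕ) : ev ys (dl b) = ys.sum * ev ys b := by
  induction b using ind_wd with
  | h0 => simp
  | ha a b ha hb => simp only [map_add, ha, hb, mul_add]
  | hs c a ha => simp only [map_smul, ha, mul_smul_comm]
  | hw w =>
    induction w generalizing ys with
    | nil =>
      rw [wd_nil, dl, der_one, map_zero, ← wd_nil, ev_wd]
      cases ys with
      | nil => rw [List.sum_nil, zero_mul]
      | cons z ys => rw [evw, mul_zero]
    | cons k w ih =>
      cases ys with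
      | nil =>
        rw [List.sum_nil, zero_mul]
        have h1 : dl (wd (k :: w)) ∈ Fil ℕ 1 := by
          have h2 : wd (k :: w) ∈ Fil ℕ 1 := wd_mem_Sup (Q := fun w => 1 ≤ w.length) (by simp)
          have := dl_pow_Fil 1 h2
          rwa [pow_one] at this
        refine Sup_ind (Q := fun w => 1 ≤ w.length) (P := fun b => ev ([] : List R) b = 0)
          ?_ ?_ ?_ ?_ h1
        · exact map_zero _
        · intro a b ha hb; rw [map_add, ha, hb, add_zero]
        · intro c a ha; rw [map_smul, ha, smul_zero]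
        · intro w hw
          rw [ev_wd]
          refine evw_length _ _ (fun h => ?_)
          rw [h] at hw
          simp at hw
      | cons z ys =>
        have h1 : dl (wd (k :: w)) = ι ℚ k * dl (wd w) + ι ℚ (k + 1) * wd w := by
          rw [wd_cons, dl, der_mul, der_ι]
        rw [h1, map_add, ev_cons, ev_cons, ih, List.sum_cons, wd_cons, ev_cons, pow_succ]
        ring

theorem ev_dl_pow (ys : List R) (r : ℕ) (b : FreeAlgebra ℚ ℕ) :
    ev ys ((dl ^ r) b) = ys.sum ^ r * ev ys b := by
  induction r with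
  | zero => rw [pow_zero, pow_zero, Module.End.one_apply, one_mul]
  | succ r ih => rw [pow_succ', Module.End.mul_apply, ev_dl, ih, pow_succ]; ring

theorem ev_Fil {k : ℕ} {b : FreeAlgebra ℚ ℕ} (hb : b ∈ Fil ℕ k) (ys : List R)
    (h : ys.length < k) : ev ys b = 0 := by
  refine Sup_ind (Q := fun w => k ≤ w.length) (P := fun b => ev ys b = 0) ?_ ?_ ?_ ?_ hb
  · exact map_zero _
  · intro a b ha hb; rw [map_add, ha, hb, add_zero]
  · intro c a ha; rw [map_smul, ha, smul_zero]
  · intro w hw
    rw [ev_wd]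
    exact evw_length _ _ (by omega)

theorem DD_mem (g : FreeAlgebra ℚ ℕ) (hg : g ∈ Fil ℕ 1) (b : FreeAlgebra ℚ ℕ) :
    DD g b ∈ Fil ℕ 2 := by
  induction b using ind_wd with
  | h0 => rw [map_zero]; exact Submodule.zero_mem _
  | ha a b ha hb => rw [map_add]; exact Submodule.add_mem _ ha hb
  | hs c a ha => rw [map_smul]; exact Submodule.smul_mem _ _ ha
  | hw w =>
    induction w with
    | nil => rw [wd_nil, DD, der_one]; exact Submodule.zero_mem _
    | cons k w ih =>
      rw [wd_cons, DD, der_mul, der_ι]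
      refine Submodule.add_mem _ ?_ ?_
      · exact Fil_anti (by norm_num) (Fil_mul (Hom_le_Fil 1 (ι_Hom k)) ih)
      · have h1 : (dl ^ k) (e 0 * g - g * e 0) ∈ Fil ℕ 2 := by
          refine dl_pow_Fil k (Submodule.sub_mem _ ?_ ?_)
          · exact Fil_mul (Hom_le_Fil 1 (ι_Hom 0)) hg
          · exact Fil_mul hg (Hom_le_Fil 1 (ι_Hom 0))
        have h2 : wd w ∈ Fil ℕ 0 := fun v hv => absurd (Nat.zero_le _) hv
        exact Fil_mul h1 h2

/-- Evaluation of `DD (e a)` on words. -/
def evDw (a : ℕ) : List R → List ℕ → R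
  | z :: y :: ys, k :: w => (z + y) ^ k * (y ^ a - z ^ a) * evw ys w + z ^ k * evDw a (y :: ys) w
  | [], _ => 0
  | _ :: _, [] => 0
  | [_], _ :: _ => 0

theorem ev_DD (a : ℕ) : ∀ (ys : List R) (w : List ℕ), ev ys (DD (e a) (wd w)) = evDw a ys w
  | [], w => by
    rw [ev_Fil (DD_mem (e a) (Hom_le_Fil 1 (ι_Hom a)) _) _ (by simp), evDw]
  | z :: ys, [] => by
    rw [wd_nil, DD, der_one, map_zero, evDw]
  | [z], k :: w => by
    rw [ev_Fil (DD_mem (e a) (Hom_le_Fil 1 (ι_Hom a)) _) _ (by simp), evDw]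
  | z :: y :: ys, k :: w => by
    have h1 : DD (e a) (wd (k :: w)) = ι ℚ k * DD (e a) (wd w) +
        (dl ^ k) (e 0 * e a - e a * e 0) * wd w := by
      rw [wd_cons, DD, der_mul, der_ι]
    have h2 : (dl ^ k) (e 0 * e a - e a * e 0) ∈ Hom ℕ ([z, y] : List R).length := by
      refine dl_pow_Hom k (Submodule.sub_mem _ ?_ ?_)
      · exact Hom_mul (ι_Hom 0) (ι_Hom a)
      · exact Hom_mul (ι_Hom a) (ι_Hom 0)
    have h3 := ev_mul [z, y] ys h2 (wd w)
    have h4 : ∀ (i j : ℕ), ev [z, y] (e i * e j) = z ^ i * y ^ j := by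
      intro i j
      have h5 : (e i * e j) = wd [i, j] := by rw [wd_cons, wd_cons, wd_nil, mul_one]
      rw [h5, ev_wd, evw, evw, evw, mul_one]
    rw [h1, map_add, ev_cons, ev_DD a (y :: ys) w]
    have h6 : (z :: y :: ys) = [z, y] ++ ys := rfl
    rw [h6, h3, ev_dl_pow, map_sub, h4, h4, ev_wd, ← h6, evDw, List.sum_cons, List.sum_cons,
      List.sum_nil, pow_zero, pow_zero]
    ring

end Pool.Agent.W_cf9a97_h77
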