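import Pool.Agent.W_cf9a97_h77.Cent

/-!
# Grading of `LL` and centralizers of inhomogeneous elements
-/

set_option autoImplicit false

namespace Pool.Agent.W_cf9a97_h77

open FreeAlgebra

attribute [local instance 100] LieRing.ofAssociativeRing

section
variable {X : Type*} [DecidableEq X]

omit [DecidableEq X] in
theorem prj_wd (r : ℕ) (w : List X) : prj r (wd w) = if w.length = r then wd w else 0 := by
  rw [prj, lin_wd]

omit [DecidableEq X] in
theorem prj_mul (N : ℕ) (a b : FreeAlgebra ℚ X) :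
    prj N (a * b) = ∑ ij ∈ Finset.HasAntidiagonal.antidiagonal N, prj ij.1 a * prj ij.2 b := by
  induction a using ind_wd with
  | h0 => simp
  | ha a a' h1 h2 =>
    rw [add_mul, map_add, h1, h2, ← Finset.sum_add_distrib]
    exact Finset.sum_congr rfl (fun ij _ => by rw [map_add, add_mul])
  | hs c a h1 =>
    rw [smul_mul_assoc, map_smul, h1, Finset.smul_sum]
    exact Finset.sum_congr rfl (fun ij _ => by rw [map_smul, smul_mul_assoc])
  | hw u =>
    induction b using ind_wd with
    | h0 => simp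
    | ha a a' h1 h2 =>
      rw [mul_add, map_add, h1, h2, ← Finset.sum_add_distrib]
      exact Finset.sum_congr rfl (fun ij _ => by rw [map_add, mul_add])
    | hs c a h1 =>
      rw [mul_smul_comm, map_smul, h1, Finset.smul_sum]
      exact Finset.sum_congr rfl (fun ij _ => by rw [map_smul, mul_smul_comm])
    | hw v =>
      rw [← wd_append, prj_wd, List.length_append]
      by_cases h : u.length + v.length = N
      · rw [if_pos h, Finset.sum_eq_single (u.length, v.length)]
        · rw [prj_wd, prj_wd, if_pos rfl, if_pos rfl, wd_append]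
        · rintro ⟨i, j⟩ _ hne
          rw [prj_wd, prj_wd]
          by_cases h1 : u.length = i
          · by_cases h2 : v.length = j
            · exact absurd (by rw [h1, h2]) hne
            · rw [if_neg h2, mul_zero]
          · rw [if_neg h1, zero_mul]
        · intro h1
          exact absurd (Finset.HasAntidiagonal.mem_antidiagonal.2 h) h1
      · rw [if_neg h]
        symm
        refine Finset.sum_eq_zero (fun ij hij => ?_)
        rw [prj_wd, prj_wd]
        have h3 := Finset.HasAntidiagonal.mem_antidiagonal.1 hij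
        by_cases h1 : u.length = ij.1
        · by_cases h2 : v.length = ij.2
          · exact absurd (by rw [h1, h2]; exact h3) h
          · rw [if_neg h2, mul_zero]
        · rw [if_neg h1, zero_mul]

theorem prj_of_Hom {r : ℕ} {a : FreeAlgebra ℚ X} (ha : a ∈ Hom X r) : prj r a = a := by
  apply ext_cf
  intro w
  rw [cf_prj]
  by_cases h : w.length = r
  · rw [if_pos h]
  · rw [if_neg h, ha w h]

theorem prj_of_Hom_ne {r s : ℕ} (hrs : r ≠ s) {a : FreeAlgebra ℚ X} (ha : a ∈ Hom X r) :
    prj s a = 0 := by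
  apply ext_cf
  intro w
  rw [cf_prj, map_zero]
  by_cases h : w.length = s
  · rw [if_pos h, ha w (by omega)]
  · rw [if_neg h]

theorem prj_mem_Hom (r : ℕ) (a : FreeAlgebra ℚ X) : prj r a ∈ Hom X r := by
  intro w hw
  rw [cf_prj, if_neg hw]

end

/-- `LL` is graded. -/
theorem prj_mem_LL {a : A2} (ha : a ∈ LL) (N : ℕ) : prj N a ∈ LL := by
  revert N
  refine LL_ind (P := fun a => ∀ N, prj N a ∈ LL) ?_ ?_ ?_ ?_ ?_ ?_ ha
  · intro N; rw [map_zero]; exact LL.zero_mem
  · intro a b h1 h2 N; rw [map_add]; exact LL.add_mem (h1 N) (h2 N)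
  · intro c a h1 N; rw [map_smul]; exact LL.smul_mem c (h1 N)
  · intro a b h1 h2 N
    have h3 : prj N (a * b - b * a) =
        ∑ ij ∈ Finset.HasAntidiagonal.antidiagonal N, (prj ij.1 a * prj ij.2 b - prj ij.2 b * prj ij.1 a) := by
      rw [map_sub, prj_mul, prj_mul, Finset.sum_sub_distrib]
      congr 1
      exact (Finset.Nat.sum_antidiagonal_swap (f := fun ij => prj ij.1 b * prj ij.2 a)).symm
    rw [h3]
    exact Submodule.sum_mem LL.toSubmodule (fun ij _ => mul_sub_mem (h1 ij.1) (h2 ij.2))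
  · intro N
    have h : xx ∈ Hom (Fin 2) 1 := ι_Hom 0
    by_cases hN : 1 = N
    · rw [← hN, prj_of_Hom h]; exact xx_mem
    · rw [prj_of_Hom_ne hN h]; exact LL.zero_mem
  · intro N
    have h : yy ∈ Hom (Fin 2) 1 := ι_Hom 1
    by_cases hN : 1 = N
    · rw [← hN, prj_of_Hom h]; exact yy_mem
    · rw [prj_of_Hom_ne hN h]; exact LL.zero_mem

theorem Dr_Hom {n N : ℕ} {a b : A2} (ha : a ∈ Hom (Fin 2) n) (hb : b ∈ Hom (Fin 2) N) :
    Dr a b ∈ Hom (Fin 2) (N + n) := by
  refine der_Hom _ n (fun i => ?_) hb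
  rcases (by omega : i = 0 ∨ i = 1) with rfl | rfl
  · exact Submodule.zero_mem _
  · refine Submodule.sub_mem _ (Hom_mul (ι_Hom 1) ha) ?_
    have := Hom_mul ha (ι_Hom (X := Fin 2) 1)
    rwa [add_comm] at this

theorem ib_Hom {n N : ℕ} {a b : A2} (ha : a ∈ Hom (Fin 2) n) (hb : b ∈ Hom (Fin 2) N) :
    ib a b ∈ Hom (Fin 2) (n + N) := by
  refine Submodule.sub_mem _ (Submodule.add_mem _ (Submodule.sub_mem _ (Hom_mul ha hb) ?_) ?_) ?_
  · have := Hom_mul hb ha
    rwa [add_comm] at this
  · have := Dr_Hom ha hb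
    rwa [add_comm] at this
  · exact Dr_Hom hb ha

/-- Polynomials of degree at most `M`. -/
def Low (M : ℕ) : Submodule ℚ A2 := Sup (fun w : List (Fin 2) => w.length ≤ M)

theorem Hom_le_Low {i M : ℕ} (h : i ≤ M) : Hom (Fin 2) i ≤ Low M :=
  Sup_mono (fun w hw => by rw [hw]; exact h)

theorem ib_Low {n N : ℕ} {a b : A2} (ha : a ∈ Low n) (hb : b ∈ Low N) : ib a b ∈ Low (n + N) := by
  have h1 : ∀ u : List (Fin 2), (wd u : A2) ∈ Hom (Fin 2) u.length :=
    fun u => wd_mem_Sup (Q := fun v => v.length = u.length) rfl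
  have hadd : ∀ a b c : A2, ib (a + b) c = ib a c + ib b c := ib_add_left
  refine Sup_ind (Q := fun w : List (Fin 2) => w.length ≤ n) (P := fun a => ib a b ∈ Low (n + N))
    ?_ ?_ ?_ ?_ ha
  · have : ib 0 b = 0 := by
      have h2 := hadd 0 0 b
      rw [add_zero] at h2
      exact left_eq_add.1 h2
    rw [this]; exact Submodule.zero_mem _
  · intro u v hu hv; rw [hadd]; exact Submodule.add_mem _ hu hv
  · intro c u hu
    have : ib (c • u) b = c • ib u b := by
      rw [ib, ib, Dr_smul, LinearMap.smul_apply, map_smul, mul_smul_comm, smul_mul_assoc,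
        smul_sub, smul_add, smul_sub]
    rw [this]; exact Submodule.smul_mem _ _ hu
  · intro u hu
    refine Sup_ind (Q := fun w : List (Fin 2) => w.length ≤ N)
      (P := fun b => ib (wd u) b ∈ Low (n + N)) ?_ ?_ ?_ ?_ hb
    · have : ib (wd u) 0 = 0 := by
        have h2 := ib_add_right (wd u) 0 0
        rw [add_zero] at h2
        exact left_eq_add.1 h2
      rw [this]; exact Submodule.zero_mem _
    · intro v w hv hw; rw [ib_add_right]; exact Submodule.add_mem _ hv hw
    · intro c v hv; rw [ib_smul_right]; exact Submodule.smul_mem _ _ hv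
    · intro v hv
      exact Hom_le_Low (by omega) (ib_Hom (h1 u) (h1 v))

theorem sub_prj_Low {M : ℕ} {a : A2} (ha : a ∈ Low (M + 1)) : a - prj (M + 1) a ∈ Low M := by
  intro w hw
  rw [map_sub, cf_prj]
  by_cases h : w.length = M + 1
  · rw [if_pos h, sub_self]
  · rw [if_neg h, sub_zero]
    exact ha w (by omega)

theorem ib_top {n N : ℕ} {a b : A2} (ha : a ∈ Low (n + 1)) (hb : b ∈ Low (N + 1))
    (h : ib a b = 0) : ib (prj (n + 1) a) (prj (N + 1) b) = 0 := by
  have h1 : ib (prj (n + 1) a) (prj (N + 1) b) ∈ Hom (Fin 2) (n + 1 + (N + 1)) :=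
    ib_Hom (prj_mem_Hom _ _) (prj_mem_Hom _ _)
  have h2 : ib (prj (n + 1) a) (prj (N + 1) b) ∈ Low (n + N + 1) := by
    have h3 : ib a b = ib (a - prj (n + 1) a) b + (ib (prj (n + 1) a) (b - prj (N + 1) b) +
        ib (prj (n + 1) a) (prj (N + 1) b)) := by
      rw [← ib_add_right, sub_add_cancel, ← ib_add_left, sub_add_cancel]
    have h4 : ib (prj (n + 1) a) (prj (N + 1) b) =
        -(ib (a - prj (n + 1) a) b + ib (prj (n + 1) a) (b - prj (N + 1) b)) := by
      rw [h] at h3
      rw [eq_neg_iff_add_eq_zero, h3]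
      abel
    rw [h4]
    refine Submodule.neg_mem _ (Submodule.add_mem _ ?_ ?_)
    · exact Sup_mono (fun w hw => by omega) (ib_Low (sub_prj_Low ha) hb)
    · exact Sup_mono (fun w hw => by omega)
        (ib_Low (Hom_le_Low le_rfl (prj_mem_Hom (n + 1) a)) (sub_prj_Low hb))
  apply ext_cf
  intro w
  rw [map_zero]
  by_cases hw : w.length = n + 1 + (N + 1)
  · exact h2 w (by omega)
  · exact h1 w hw

theorem Low_one {a : A2} (ha : a ∈ LL) (h : a ∈ Low 1) :
    a ∈ Submodule.span ℚ ({xx, yy} : Set A2) := by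
  have h1 : a = cf [(0 : Fin 2)] a • xx + cf [(1 : Fin 2)] a • yy := by
    have hx : xx = wd [(0 : Fin 2)] := by simp [xx]
    have hy : yy = wd [(1 : Fin 2)] := by simp [yy]
    apply ext_cf
    intro w
    rw [map_add, map_smul, map_smul, hx, hy, cf_wd, cf_wd]
    match w with
    | [] => rw [(rr_LL ha).2]; simp
    | [i] =>
      rcases (by omega : i = 0 ∨ i = 1) with rfl | rfl <;> simp
    | i :: j :: v =>
      rw [h _ (by simp)]
      simp
  rw [h1]
  exact Submodule.add_mem _ (Submodule.smul_mem _ _ (Submodule.subset_span (by simp)))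
    (Submodule.smul_mem _ _ (Submodule.subset_span (by simp)))

/-- `x` is central. -/
theorem ib_xx (a : A2) : ib a xx = 0 := by
  have h : ∀ b, Dr xx b = b * xx - xx * b := by
    intro b
    have h1 : Dr xx = LinearMap.mulRight ℚ xx - LinearMap.mulLeft ℚ xx := by
      refine der2_unique (Dr_mul _) (fun u v => ?_) ?_ ?_
      · simp only [LinearMap.sub_apply, LinearMap.mulRight_apply, LinearMap.mulLeft_apply]
        noncomm_ring
      · simp [Dr_xx]
      · simp [Dr_yy]
    rw [h1]
    simp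
  rw [ib, Dr_xx, h]
  abel

/-- `y` is central. -/
theorem ib_yy (a : A2) : ib a yy = 0 := by
  have h1 : Dr yy = 0 := by
    refine der2_unique (Dr_mul _) (fun u v => by simp) ?_ ?_
    · simp [Dr_xx]
    · simp [Dr_yy]
  rw [ib, Dr_yy, h1, LinearMap.zero_apply]
  abel

/-- The centralizer of an element with nonzero depth one part in top degree. -/
theorem cent_gen {n : ℕ} (hn : 2 ≤ n) {σ : A2} (hσ : σ ∈ LL) (hσn : σ ∈ Low n)
    (hc : cf (xy n) σ ≠ 0) : ∀ (M : ℕ) (ψ : A2), ψ ∈ LL → ψ ∈ Low (M + 1) → ib σ ψ = 0 →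
      ψ ∈ Submodule.span ℚ ({σ, xx, yy} : Set A2) := by
  obtain ⟨n', rfl⟩ : ∃ n', n = n' + 1 := ⟨n - 1, by omega⟩
  intro M
  induction M with
  | zero =>
    intro ψ hψ hL _
    exact Submodule.span_mono (by intro z hz; exact Or.inr hz) (Low_one hψ hL)
  | succ M ih =>
    intro ψ hψ hL h
    have h1 := ib_top hσn hL h
    have hcf : cf (xy (n' + 1)) (prj (n' + 1) σ) = cf (xy (n' + 1)) σ := by
      rw [cf_prj, if_pos (by simp [xy])]
    obtain ⟨t, ht⟩ := cent hn (by omega) (prj_mem_LL hσ _) (prj_mem_Hom _ _)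
      (by rw [hcf]; exact hc) (prj_mem_LL hψ _) (prj_mem_Hom _ _) h1
    have hself : ib σ σ = 0 := ib_self σ
    by_cases hMn : M + 1 + 1 = n' + 1
    · rw [hMn] at hL ht
      have h2 : ψ - t • σ ∈ Low (M + 1) := by
        have h3 : ψ - t • σ = (ψ - prj (n' + 1) ψ) - t • (σ - prj (n' + 1) σ) := by
          rw [ht, smul_sub]; abel
        have h4 : n' = M + 1 := by omega
        rw [h3, ← h4]
        exact Submodule.sub_mem _ (sub_prj_Low hL) (Submodule.smul_mem _ _ (sub_prj_Low hσn))
      have h5 : ib σ (ψ - t • σ) = 0 := by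
        have h6 : ψ - t • σ = ψ + (-t) • σ := by rw [neg_smul]; abel
        rw [h6, ib_add_right, ib_smul_right, h, hself, smul_zero, add_zero]
      have h7 := ih (ψ - t • σ) (LL.sub_mem hψ (LL.smul_mem t hσ)) h2 h5
      have h8 : ψ = (ψ - t • σ) + t • σ := by abel
      rw [h8]
      exact Submodule.add_mem _ h7 (Submodule.smul_mem _ _ (Submodule.subset_span (by simp)))
    · have h2 : prj (M + 1 + 1) ψ = 0 := by
        have h3 : prj (M + 1 + 1) ψ ∈ Hom (Fin 2) (n' + 1) := by
          rw [ht]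
          exact Submodule.smul_mem _ _ (prj_mem_Hom _ _)
        have h4 := prj_of_Hom (prj_mem_Hom (M + 1 + 1) ψ)
        rw [← h4]
        exact prj_of_Hom_ne (fun h => hMn h.symm) h3
      have h5 : ψ ∈ Low (M + 1) := by
        have h6 := sub_prj_Low hL
        rwa [h2, sub_zero] at h6
      exact ih ψ hψ h5 h

theorem exists_Low (a : A2) : ∃ M, a ∈ Low (M + 1) := by
  induction a using ind_wd with
  | h0 => exact ⟨0, Submodule.zero_mem _⟩
  | ha a b h1 h2 =>
    obtain ⟨M, hM⟩ := h1
    obtain ⟨N, hN⟩ := h2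
    refine ⟨max M N, Submodule.add_mem _ (Sup_mono (fun w hw => ?_) hM)
      (Sup_mono (fun w hw => ?_) hN)⟩
    · have := le_max_left M N; omega
    · have := le_max_right M N; omega
  | hs c a h1 =>
    obtain ⟨M, hM⟩ := h1
    exact ⟨M, Submodule.smul_mem _ _ hM⟩
  | hw w => exact ⟨w.length, wd_mem_Sup (Q := fun v => v.length ≤ w.length + 1) (by omega)⟩

/-- Lower central series. -/
theorem emb_lcs {X : Type*} [DecidableEq X] (r : ℕ) : ∀ z : FreeLieAlgebra ℚ X,
    z ∈ LieModule.lowerCentralSeries ℚ (FreeLieAlgebra ℚ X) (FreeLieAlgebra ℚ X) r →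
    emb X z ∈ Fil X (r + 1) := by
  have h0 : ∀ z : FreeLieAlgebra ℚ X, emb X z ∈ Fil X 1 := by
    intro z w hw
    have : w = [] := List.length_eq_zero_iff.1 (by omega)
    rw [this]
    exact cf_nil_emb z
  induction r with
  | zero => exact fun z _ => h0 z
  | succ r ih =>
    intro z hz
    rw [LieModule.lowerCentralSeries_succ, ← LieSubmodule.mem_toSubmodule,
      LieSubmodule.lieIdeal_oper_eq_linear_span'] at hz
    induction hz using Submodule.span_induction with
    | mem z hz =>
      obtain ⟨u, -, v, hv, rfl⟩ := hz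
      rw [LieHom.map_lie, LieRing.of_associative_ring_bracket]
      have h1 := ih v hv
      refine Submodule.sub_mem _ ?_ (Fil_mul h1 (h0 u))
      exact Fil_anti (by omega) (Fil_mul (h0 u) h1)
    | zero => rw [map_zero]; exact Submodule.zero_mem _
    | add a b _ _ ha hb => rw [map_add]; exact Submodule.add_mem _ ha hb
    | smul c a _ ha => rw [map_smul]; exact Submodule.smul_mem _ _ ha

end Pool.Agent.W_cf9a97_h77
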