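import Pool.Agent.W_cf9a97_h77.Witt

/-!
# The Ihara bracket

`LL` is the free Lie algebra on `x, y` inside `ℚ⟨x, y⟩`, `Dr ψ` the derivation with `x ↦ 0`,
`y ↦ [y, ψ]`, `Ih` is `LL` with the Ihara bracket `[a, b] + D_a b - D_b a`.
-/

set_option autoImplicit false

namespace Pool.Agent.W_cf9a97_h77

open FreeAlgebra

attribute [local instance 100] LieRing.ofAssociativeRing

/-- The algebra of noncommutative polynomials in `x, y`. -/
abbrev A2 : Type := FreeAlgebra ℚ (Fin 2)

/-- The letter `x`. -/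
noncomputable def xx : A2 := ι ℚ 0

/-- The letter `y`. -/
noncomputable def yy : A2 := ι ℚ 1

/-- The free Lie algebra on `x, y` inside `ℚ⟨x, y⟩`. -/
noncomputable def LL : LieSubalgebra ℚ A2 := LieSubalgebra.lieSpan ℚ A2 {xx, yy}

/-- The derivation `x ↦ 0`, `y ↦ [y, ψ]`. -/
noncomputable def Dr (ψ : A2) : A2 →ₗ[ℚ] A2 := der ![0, yy * ψ - ψ * yy]

theorem Dr_xx (ψ : A2) : Dr ψ xx = 0 := by rw [Dr, xx, der_ι]; rfl

theorem Dr_yy (ψ : A2) : Dr ψ yy = yy * ψ - ψ * yy := by rw [Dr, yy, der_ι]; rfl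

theorem Dr_mul (ψ a b : A2) : Dr ψ (a * b) = a * Dr ψ b + Dr ψ a * b := der_mul _ a b

/-- A derivation of `ℚ⟨x, y⟩` is determined by its values at `x` and `y`. -/
theorem der2_unique {D E : A2 →ₗ[ℚ] A2}
    (hD : ∀ a b, D (a * b) = a * D b + D a * b) (hE : ∀ a b, E (a * b) = a * E b + E a * b)
    (hx : D xx = E xx) (hy : D yy = E yy) : D = E := by
  refine der_unique hD hE (fun i => ?_)
  fin_cases i
  · exact hx
  · exact hy

theorem Dr_add (a b : A2) : Dr (a + b) = Dr a + Dr b := by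
  refine der2_unique (Dr_mul _) (fun u v => ?_) ?_ ?_
  · rw [LinearMap.add_apply, LinearMap.add_apply, LinearMap.add_apply, Dr_mul, Dr_mul, mul_add,
      add_mul]
    abel
  · rw [LinearMap.add_apply, Dr_xx, Dr_xx, Dr_xx, add_zero]
  · rw [LinearMap.add_apply, Dr_yy, Dr_yy, Dr_yy, mul_add, add_mul]
    abel

theorem Dr_smul (c : ℚ) (a : A2) : Dr (c • a) = c • Dr a := by
  refine der2_unique (Dr_mul _) (fun u v => ?_) ?_ ?_
  · rw [LinearMap.smul_apply, LinearMap.smul_apply, LinearMap.smul_apply, Dr_mul,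
      mul_smul_comm, smul_mul_assoc, smul_add]
  · rw [LinearMap.smul_apply, Dr_xx, Dr_xx, smul_zero]
  · rw [LinearMap.smul_apply, Dr_yy, Dr_yy, mul_smul_comm, smul_mul_assoc, smul_sub]

/-- The Ihara bracket. -/
noncomputable def ib (a b : A2) : A2 := (a * b - b * a) + Dr a b - Dr b a

/-- The Ihara action. -/
noncomputable def Sr : A2 →ₗ[ℚ] Module.End ℚ A2 where
  toFun ψ := LinearMap.mulLeft ℚ ψ + Dr ψ
  map_add' a b := by
    rw [Dr_add]
    ext1 w
    simp only [LinearMap.add_apply, LinearMap.mulLeft_apply, add_mul]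
    abel
  map_smul' c a := by
    rw [Dr_smul]
    ext1 w
    simp only [LinearMap.add_apply, LinearMap.mulLeft_apply, LinearMap.smul_apply,
      smul_mul_assoc, RingHom.id_apply, smul_add]

theorem Sr_apply (ψ w : A2) : Sr ψ w = ψ * w + Dr ψ w := rfl

theorem Dr_one (ψ : A2) : Dr ψ 1 = 0 := der_one _

theorem Sr_one (ψ : A2) : Sr ψ 1 = ψ := by rw [Sr_apply, Dr_one, mul_one, add_zero]

theorem Dr_ib (a b : A2) : Dr (ib a b) = Dr a * Dr b - Dr b * Dr a := by
  refine der2_unique (Dr_mul _) (fun u v => ?_) ?_ ?_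
  · simp only [LinearMap.sub_apply, Module.End.mul_apply, Dr_mul, map_add, mul_sub, sub_mul]
    abel
  · simp only [LinearMap.sub_apply, Module.End.mul_apply, Dr_xx, map_zero, sub_zero]
  · simp only [LinearMap.sub_apply, Module.End.mul_apply, Dr_yy, map_sub, Dr_mul, ib]
    noncomm_ring

theorem Sr_ib (a b : A2) : Sr (ib a b) = Sr a * Sr b - Sr b * Sr a := by
  ext1 w
  rw [Sr_apply, Dr_ib]
  simp only [LinearMap.sub_apply, Module.End.mul_apply, Sr_apply, map_add, Dr_mul, ib]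
  noncomm_ring

theorem ib_self (a : A2) : ib a a = 0 := by
  rw [ib]; abel

theorem ib_add_left (a b c : A2) : ib (a + b) c = ib a c + ib b c := by
  rw [ib, ib, ib, Dr_add, LinearMap.add_apply, map_add, add_mul, mul_add]
  abel

theorem ib_add_right (a b c : A2) : ib a (b + c) = ib a b + ib a c := by
  rw [ib, ib, ib, Dr_add, LinearMap.add_apply, map_add, add_mul, mul_add]
  abel

theorem ib_smul_right (t : ℚ) (a b : A2) : ib a (t • b) = t • ib a b := by
  rw [ib, ib, Dr_smul, LinearMap.smul_apply, map_smul, mul_smul_comm, smul_mul_assoc, smul_sub,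
    smul_add, smul_sub]

theorem ib_jacobi (a b c : A2) : ib a (ib b c) = ib (ib a b) c + ib b (ib a c) := by
  have h : Sr (ib a (ib b c)) = Sr (ib (ib a b) c) + Sr (ib b (ib a c)) := by
    rw [Sr_ib, Sr_ib, Sr_ib, Sr_ib, Sr_ib, Sr_ib]
    noncomm_ring
  have h1 := LinearMap.congr_fun h 1
  rw [LinearMap.add_apply, Sr_one, Sr_one, Sr_one] at h1
  exact h1

theorem mul_sub_mem {a b : A2} (ha : a ∈ LL) (hb : b ∈ LL) : a * b - b * a ∈ LL := by
  have h := LL.lie_mem ha hb
  rwa [LieRing.of_associative_ring_bracket] at h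

theorem xx_mem : xx ∈ LL := LieSubalgebra.subset_lieSpan (by simp)

theorem yy_mem : yy ∈ LL := LieSubalgebra.subset_lieSpan (by simp)

/-- Induction for elements of `LL`. -/
theorem LL_ind {P : A2 → Prop} (h0 : P 0) (ha : ∀ a b, P a → P b → P (a + b))
    (hs : ∀ (c : ℚ) a, P a → P (c • a)) (hl : ∀ a b, P a → P b → P (a * b - b * a))
    (hx : P xx) (hy : P yy) {a : A2} (h : a ∈ LL) : P a := by
  let L : LieSubalgebra ℚ A2 :=
    { carrier := {a | P a}
      zero_mem' := h0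
      add_mem' := fun {a b} h1 h2 => ha a b h1 h2
      smul_mem' := fun c a h => hs c a h
      lie_mem' := fun {a b} h1 h2 => by
        have := hl a b h1 h2
        rwa [← LieRing.of_associative_ring_bracket] at this }
  have h1 : LL ≤ L := LieSubalgebra.lieSpan_le.2 (by
    intro z hz
    rcases hz with rfl | rfl
    · exact hx
    · exact hy)
  exact h1 h

theorem Dr_mem {a b : A2} (ha : a ∈ LL) (hb : b ∈ LL) : Dr a b ∈ LL := by
  suffices h : Dr a b ∈ LL ∧ b ∈ LL from h.1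
  refine LL_ind (P := fun b => Dr a b ∈ LL ∧ b ∈ LL) ?_ ?_ ?_ ?_ ?_ ?_ hb
  · rw [map_zero]; exact ⟨LL.zero_mem, LL.zero_mem⟩
  · rintro b c ⟨h1, h2⟩ ⟨h3, h4⟩
    rw [map_add]
    exact ⟨LL.add_mem h1 h3, LL.add_mem h2 h4⟩
  · rintro t b ⟨h1, h2⟩
    rw [map_smul]
    exact ⟨LL.smul_mem t h1, LL.smul_mem t h2⟩
  · rintro b c ⟨h1, h2⟩ ⟨h3, h4⟩
    refine ⟨?_, mul_sub_mem h2 h4⟩
    have h5 : Dr a (b * c - c * b) = (Dr a b * c - c * Dr a b) + (b * Dr a c - Dr a c * b) := by
      rw [map_sub, Dr_mul, Dr_mul]; abel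
    rw [h5]
    exact LL.add_mem (mul_sub_mem h1 h4) (mul_sub_mem h2 h3)
  · rw [Dr_xx]; exact ⟨LL.zero_mem, xx_mem⟩
  · rw [Dr_yy]; exact ⟨mul_sub_mem yy_mem ha, yy_mem⟩

theorem ib_mem {a b : A2} (ha : a ∈ LL) (hb : b ∈ LL) : ib a b ∈ LL :=
  LL.sub_mem (LL.add_mem (mul_sub_mem ha hb) (Dr_mem ha hb)) (Dr_mem hb ha)

/-- The space `LL`, to be equipped with the Ihara bracket. -/
def Ih : Type := LL.toSubmodule

noncomputable instance : AddCommGroup Ih := inferInstanceAs (AddCommGroup LL.toSubmodule)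

noncomputable instance : Module ℚ Ih := inferInstanceAs (Module ℚ LL.toSubmodule)

/-- The underlying polynomial. -/
def Ih.val (a : Ih) : A2 := Subtype.val (p := fun z => z ∈ LL.toSubmodule) a

/-- An element of `LL` as element of the Ihara Lie algebra. -/
def Ih.mk (a : A2) (ha : a ∈ LL) : Ih := (⟨a, ha⟩ : LL.toSubmodule)

theorem Ih.ext {a b : Ih} (h : a.val = b.val) : a = b := Subtype.ext h

theorem Ih.mem (a : Ih) : a.val ∈ LL := Subtype.property (p := fun z => z ∈ LL.toSubmodule) a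

theorem Ih.val_add (a b : Ih) : (a + b).val = a.val + b.val := rfl

theorem Ih.val_zero : (0 : Ih).val = 0 := rfl

theorem Ih.val_smul (c : ℚ) (a : Ih) : (c • a).val = c • a.val := rfl

/-- The Ihara bracket on `LL`. -/
noncomputable instance : Bracket Ih Ih := ⟨fun a b => Ih.mk (ib a.val b.val) (ib_mem a.mem b.mem)⟩

theorem Ih.val_lie (a b : Ih) : ⁅a, b⁆.val = ib a.val b.val := rfl

noncomputable instance : LieRing Ih where
  add_lie _ _ _ := Ih.ext (ib_add_left _ _ _)
  lie_add _ _ _ := Ih.ext (ib_add_right _ _ _)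
  lie_self _ := Ih.ext (ib_self _)
  leibniz_lie _ _ _ := Ih.ext (ib_jacobi _ _ _)

noncomputable instance : LieAlgebra ℚ Ih where
  lie_smul _ _ _ := Ih.ext (ib_smul_right _ _ _)

/-- The Ihara action as a representation. -/
noncomputable def SS : Ih →ₗ⁅ℚ⁆ Module.End ℚ A2 where
  toFun a := Sr a.val
  map_add' a b := by rw [Ih.val_add, map_add]
  map_smul' c a := by rw [Ih.val_smul, map_smul]; rfl
  map_lie' {a b} := by
    show Sr (ib a.val b.val) = _
    rw [Sr_ib, LieRing.of_associative_ring_bracket]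

end Pool.Agent.W_cf9a97_h77
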