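import Pool.Agent.W_cf9a97_h77.Sup

/-!
# Independence of the words in depth one elements
-/

set_option autoImplicit false

namespace Pool.Agent.W_cf9a97_h77

open FreeAlgebra

section
variable {X : Type*} [DecidableEq X]

/-- Splitting off the leading letter. -/
theorem split_lead (p : FreeAlgebra ℚ X) : ∃ S : Finset X, (∀ x, x ∉ S → J x p = 0) ∧
    p = cf [] p • 1 + ∑ x ∈ S, ι ℚ x * J x p := by
  classical
  refine ⟨((bas.repr p).support.image List.head?).biUnion (fun o => o.toFinset), ?_, ?_⟩
  · intro x hx
    apply ext_cf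
    intro w
    rw [map_zero, cf_J]
    by_contra h
    apply hx
    rw [Finset.mem_biUnion]
    refine ⟨some x, Finset.mem_image.2 ⟨x :: w, Finsupp.mem_support_iff.2 h, rfl⟩, by simp⟩
  · set S := ((bas.repr p).support.image List.head?).biUnion (fun o => o.toFinset) with hS
    apply ext_cf
    intro w
    rw [map_add, map_smul, map_sum]
    cases w with
    | nil =>
      rw [← wd_nil, cf_wd, if_pos rfl, smul_eq_mul, mul_one]
      rw [Finset.sum_eq_zero, add_zero]
      intro x _
      rw [cf_nil_mul, cf_nil_ι, zero_mul]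
    | cons y w =>
      rw [← wd_nil, cf_wd, if_neg (by simp), smul_zero, zero_add]
      have h1 : ∀ x, cf (y :: w) (ι ℚ x * J x p) = if x = y then cf (y :: w) p else 0 := by
        intro x
        rw [← cf_J, J_ι_mul]
        split_ifs with h
        · rw [h, cf_J]
        · exact map_zero _
      rw [Finset.sum_congr rfl (fun x _ => h1 x), Finset.sum_ite_eq']
      split_ifs with h
      · rfl
      · by_contra h2
        apply h
        rw [hS, Finset.mem_biUnion]
        exact ⟨some y, Finset.mem_image.2 ⟨y :: w, Finsupp.mem_support_iff.2 h2, rfl⟩, by simp⟩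

/-- The representation of the free algebra with generator `x` acting by `c x • act (e (a x))`. -/
noncomputable def Phi (a : X → ℕ) (c : X → ℚ) :
    FreeAlgebra ℚ X →ₐ[ℚ] Module.End ℚ (FreeAlgebra ℚ ℕ) :=
  FreeAlgebra.lift ℚ (fun x => c x • act (e (a x)))

omit [DecidableEq X] in
theorem Phi_ι_mul (a : X → ℕ) (c : X → ℚ) (x : X) (p : FreeAlgebra ℚ X) :
    Phi a c (ι ℚ x * p) 1 = act (e (a x)) (c x • Phi a c p 1) := by
  rw [map_mul, Module.End.mul_apply, Phi, FreeAlgebra.lift_ι_apply, LinearMap.smul_apply, map_smul]

omit [DecidableEq X] in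
theorem Phi_smul_one (a : X → ℕ) (c : X → ℚ) (q : ℚ) : Phi a c (q • 1) 1 = q • 1 := by
  rw [map_smul, map_one (Phi a c), LinearMap.smul_apply, Module.End.one_apply]

omit [DecidableEq X] in
theorem Phi_Hom (a : X → ℕ) (c : X → ℚ) {r : ℕ} {p : FreeAlgebra ℚ X} (hp : p ∈ Hom X r) :
    Phi a c p 1 ∈ Hom ℕ r := by
  refine Sup_ind (Q := fun w => w.length = r) (P := fun p => Phi a c p 1 ∈ Hom ℕ r)
    ?_ ?_ ?_ ?_ hp
  · rw [map_zero]; exact Submodule.zero_mem _
  · intro a a' h1 h2; rw [map_add]; exact Submodule.add_mem _ h1 h2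
  · intro c a h1; rw [map_smul]; exact Submodule.smul_mem _ _ h1
  · intro w hw
    subst hw
    clear hp
    induction w with
    | nil =>
      have h1 := Phi_smul_one a c 1
      rw [one_smul, one_smul] at h1
      rw [wd_nil, h1]
      exact one_Hom
    | cons x w ih =>
      rw [wd_cons, Phi_ι_mul]
      exact act_Hom (ι_Hom (a x)) (Submodule.smul_mem _ _ ih)

/-- One step: a relation gives a relation between the tails. -/
theorem step (a : X → ℕ) (c : X → ℚ) (hc : ∀ x, c x ≠ 0) {r : ℕ} {p : FreeAlgebra ℚ X}
    (hp : p ∈ Hom X (r + 1)) (h : Phi a c p 1 = 0) (S : Finset X)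
    (hS : ∀ x, x ∉ S → Phi a c (J x p) 1 = 0) (ha : Set.InjOn a (S : Set X)) (m : ℕ)
    (hm : ∀ x ∈ S, m ≤ a x) (hcard : S.card ≤ m + 1) : ∀ x, Phi a c (J x p) 1 = 0 := by
  classical
  intro x0
  by_cases hx0 : x0 ∈ S
  swap
  · exact hS x0 hx0
  obtain ⟨T, hT, hsplit⟩ := split_lead p
  have h1 : ∑ x ∈ S, act (e (a x)) (c x • Phi a c (J x p) 1) = 0 := by
    have h2 : Phi a c p 1 = ∑ x ∈ T, act (e (a x)) (c x • Phi a c (J x p) 1) := by
      conv_lhs => rw [hsplit]
      rw [cf_nil_Hom hp, zero_smul, zero_add, map_sum, LinearMap.sum_apply]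
      exact Finset.sum_congr rfl (fun x _ => Phi_ι_mul a c x _)
    have h3 : ∑ x ∈ T, act (e (a x)) (c x • Phi a c (J x p) 1) =
        ∑ x ∈ S ∪ T, act (e (a x)) (c x • Phi a c (J x p) 1) := by
      refine Finset.sum_subset Finset.subset_union_right (fun x _ hx => ?_)
      rw [hT x hx, map_zero, LinearMap.zero_apply, smul_zero, map_zero]
    have h4 : ∑ x ∈ S, act (e (a x)) (c x • Phi a c (J x p) 1) =
        ∑ x ∈ S ∪ T, act (e (a x)) (c x • Phi a c (J x p) 1) := by
      refine Finset.sum_subset Finset.subset_union_left (fun x _ hx => ?_)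
      rw [hS x hx, smul_zero, map_zero]
    rw [h4, ← h3, ← h2, h]
  have h5 : c x0 • Phi a c (J x0 p) 1 = 0 := by
    cases r with
    | zero =>
      have h6 : ∀ x, Phi a c (J x p) 1 = cf [] (J x p) • 1 := by
        intro x
        have := Hom_zero (J_Hom hp x)
        conv_lhs => rw [this]
        exact Phi_smul_one a c _
      have h7 := congrArg (cf [a x0]) h1
      rw [map_sum, map_zero, Finset.sum_eq_single x0] at h7
      · rw [h6, smul_smul, map_smul, act_apply, mul_one, DD, der_one, add_zero, map_smul] at h7
        have h8 : cf [a x0] (e (a x0)) = 1 := by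
          have h9 : (e (a x0)) = wd [a x0] := by simp
          rw [h9, cf_wd, if_pos rfl]
        rw [h8, smul_eq_mul, mul_one] at h7
        rw [h6, smul_smul, h7, zero_smul]
      · intro x hx hne
        rw [h6, smul_smul, map_smul, act_apply, mul_one, DD, der_one, add_zero, map_smul]
        have h9 : (e (a x)) = wd [a x] := by simp
        rw [h9, cf_wd, if_neg, smul_zero]
        intro h10
        exact hne (ha hx hx0 (by simpa using h10))
      · intro hx
        exact absurd hx0 hx
    | succ r =>
      exact key S a ha m hm hcard r (fun x => c x • Phi a c (J x p) 1)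
        (fun x _ => Submodule.smul_mem _ _ (Phi_Hom a c (J_Hom hp x)))
        (fun s _ => by rw [h1, map_zero]) x0 hx0
  exact (smul_eq_zero.1 h5).resolve_left (hc x0)

/-- Small families: all words are independent. -/
theorem indep_small [Finite X] (a : X → ℕ) (ha : Function.Injective a) (c : X → ℚ)
    (hc : ∀ x, c x ≠ 0) (hcard : ∀ x, Nat.card X ≤ a x + 1) :
    ∀ (r : ℕ) (p : FreeAlgebra ℚ X), p ∈ Hom X r → Phi a c p 1 = 0 → p = 0 := by
  classical
  have := Fintype.ofFinite X
  intro r
  induction r with
  | zero =>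
    intro p hp h
    rw [Hom_zero hp, Phi_smul_one] at h
    have h1 : (1 : FreeAlgebra ℚ ℕ) ≠ 0 := one_ne_zero
    rw [Hom_zero hp, (smul_eq_zero.1 h).resolve_right h1, zero_smul]
  | succ r ih =>
    intro p hp h
    refine eq_zero_of_J hp (fun x => ?_)
    have hX : Nonempty X := ⟨x⟩
    obtain ⟨x1, hx1⟩ := Finite.exists_min a
    have hst := step a c hc hp h Finset.univ (fun x hx => absurd (Finset.mem_univ x) hx)
      (ha.injOn) (a x1) (fun x _ => hx1 x) (by
        have := hcard x1
        rwa [Nat.card_eq_fintype_card] at this)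
    exact ih _ (J_Hom hp x) (hst x)

/-- All generators of odd degrees at least `n0`, length `r` and degree below `n0 * (r + 2)`. -/
theorem indep_edge (n0 : ℕ) (hn0 : Odd n0) (n : X → ℕ) (hn : Function.Injective n)
    (h3 : ∀ x, n0 ≤ n x) (hodd : ∀ x, Odd (n x)) (c : X → ℚ) (hc : ∀ x, c x ≠ 0) :
    ∀ (r : ℕ) (p : FreeAlgebra ℚ X),
      p ∈ Sup (fun w : List X => w.length = r ∧ (w.map n).sum < n0 * (r + 2)) →
      Phi (fun x => n x - 1) c p 1 = 0 → p = 0 := by
  classical
  obtain ⟨k0, hk0⟩ := hn0
  intro r
  induction r with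
  | zero =>
    intro p hp h
    have hp0 : p ∈ Hom X 0 := Sup_mono (fun w hw => hw.1) hp
    rw [Hom_zero hp0, Phi_smul_one] at h
    have h1 : (1 : FreeAlgebra ℚ ℕ) ≠ 0 := one_ne_zero
    rw [Hom_zero hp0, (smul_eq_zero.1 h).resolve_right h1, zero_smul]
  | succ r ih =>
    intro p hp h
    have hp1 : p ∈ Hom X (r + 1) := Sup_mono (fun w hw => hw.1) hp
    have hsum : ∀ w : List X, n0 * w.length ≤ (w.map n).sum := by
      intro w
      induction w with
      | nil => simp
      | cons x w ih2 =>
        simp only [List.length_cons, List.map_cons, List.sum_cons]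
        have h4 := h3 x
        have h5 : n0 * (w.length + 1) = n0 * w.length + n0 := by ring
        omega
    obtain ⟨T, hT, -⟩ := split_lead p
    let S := T.filter (fun x => Phi (fun x => n x - 1) c (J x p) 1 ≠ 0)
    have hS : ∀ x, x ∉ S → Phi (fun x => n x - 1) c (J x p) 1 = 0 := by
      intro x hx
      by_contra h1
      apply hx
      refine Finset.mem_filter.2 ⟨?_, h1⟩
      by_contra h2
      apply h1
      rw [hT x h2, map_zero, LinearMap.zero_apply]
    have hinj : Set.InjOn (fun x => n x - 1) (S : Set X) := by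
      intro x _ y _ hxy
      have h1 := h3 x
      have h2 := h3 y
      have h4 : n x - 1 = n y - 1 := hxy
      exact hn (by omega)
    have hall : ∀ x, Phi (fun x => n x - 1) c (J x p) 1 = 0 := by
      by_cases hne : S.Nonempty
      swap
      · intro x
        refine hS x (fun hx => hne ⟨x, hx⟩)
      obtain ⟨x1, hx1, hmin⟩ := S.exists_min_image (fun x => n x - 1) hne
      have hcard : S.card ≤ (n x1 - 1) + 1 := by
        have hb : ∀ x ∈ S, n x < 3 * n0 := by
          intro x hx
          by_contra hbig
          have h1 : J x p ≠ 0 := by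
            intro h1
            exact (Finset.mem_filter.1 hx).2 (by rw [h1, map_zero, LinearMap.zero_apply])
          apply h1
          apply ext_cf
          intro w
          rw [map_zero, cf_J]
          refine hp _ (fun hw => ?_)
          have h2 := hw.1
          have h4 := hw.2
          rw [List.length_cons] at h2
          rw [List.map_cons, List.sum_cons] at h4
          have h5 := hsum w
          have h6 : w.length = r := by omega
          rw [h6] at h5
          have h7 : n0 * (r + 1 + 2) = n0 * r + 3 * n0 := by ring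
          omega
        have himg : (S.image (fun x => (n x - n0) / 2)).card = S.card := by
          refine Finset.card_image_of_injOn (fun x _ y _ hxy => hn ?_)
          have h1 : (n x - n0) / 2 = (n y - n0) / 2 := hxy
          have h2 := h3 x
          have h4 := h3 y
          obtain ⟨k, hk⟩ := hodd x
          obtain ⟨k', hk'⟩ := hodd y
          omega
        have hsub : S.image (fun x => (n x - n0) / 2) ⊆ Finset.range n0 := by
          intro y hy
          obtain ⟨x, hx, rfl⟩ := Finset.mem_image.1 hy
          have h1 := hb x hx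
          have h2 := h3 x
          refine Finset.mem_range.2 ?_
          omega
        have h1 := Finset.card_le_card hsub
        rw [himg, Finset.card_range] at h1
        have h4 := h3 x1
        omega
      exact step _ c hc hp1 h S hS hinj (n x1 - 1) (fun x hx => hmin x hx) hcard
    refine eq_zero_of_J hp1 (fun x => ?_)
    refine ih _ ?_ (hall x)
    intro w hw
    rw [cf_J]
    refine hp _ (fun h1 => hw ?_)
    have h2 := h1.1
    have h4 := h1.2
    rw [List.length_cons] at h2
    rw [List.map_cons, List.sum_cons] at h4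
    have h5 := h3 x
    have h7 : n0 * (r + 1 + 2) = n0 * (r + 2) + n0 := by ring
    exact ⟨by omega, by omega⟩

end

end Pool.Agent.W_cf9a97_h77
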