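import Pool.Agent.W_cf9a97_h77.Ihara

/-!
# Passage to the letters `e k = ad(x)^k y`

`rr` is the representation of `ℚ⟨x, y⟩` on `ℚ⟨e 0, e 1, ...⟩` with `x ↦ dl`, `y ↦ e 0 *`, and
`kap a = rr a 1`. It kills the words ending in `x`.
-/

set_option autoImplicit false

namespace Pool.Agent.W_cf9a97_h77

open FreeAlgebra

attribute [local instance 100] LieRing.ofAssociativeRing

/-- The representation. -/
noncomputable def rr : A2 →ₐ[ℚ] Module.End ℚ (FreeAlgebra ℚ ℕ) :=
  FreeAlgebra.lift ℚ ![dl, LinearMap.mulLeft ℚ (e 0)]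

theorem rr_xx : rr xx = dl := by rw [rr, xx, FreeAlgebra.lift_ι_apply]; rfl

theorem rr_yy : rr yy = LinearMap.mulLeft ℚ (e 0) := by rw [rr, yy, FreeAlgebra.lift_ι_apply]; rfl

/-- The coordinate map. -/
noncomputable def kap : A2 →ₗ[ℚ] FreeAlgebra ℚ ℕ := (LinearMap.applyₗ 1) ∘ₗ rr.toLinearMap

theorem kap_eq (a : A2) : kap a = rr a 1 := rfl

theorem kap_mul (a b : A2) : kap (a * b) = rr a (kap b) := by
  rw [kap_eq, kap_eq, map_mul, Module.End.mul_apply]

theorem kap_one : kap 1 = 1 := by rw [kap_eq, map_one rr, Module.End.one_apply]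

theorem dl_mul (a b : FreeAlgebra ℚ ℕ) : dl (a * b) = a * dl b + dl a * b := der_mul _ a b

theorem dl_one : dl 1 = 0 := der_one _

/-- Elements of `LL` without `x`-part act by left multiplication. -/
theorem rr_LL {a : A2} (ha : a ∈ LL) :
    rr a = cf [(0 : Fin 2)] a • dl + LinearMap.mulLeft ℚ (kap a) ∧ cf [] a = 0 := by
  refine LL_ind (P := fun a => rr a = cf [(0 : Fin 2)] a • dl + LinearMap.mulLeft ℚ (kap a) ∧
    cf [] a = 0) ?_ ?_ ?_ ?_ ?_ ?_ ha
  · refine ⟨?_, map_zero _⟩
    ext1 w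
    simp
  · rintro a b ⟨h1, h2⟩ ⟨h3, h4⟩
    refine ⟨?_, by rw [map_add, h2, h4, add_zero]⟩
    rw [map_add, h1, h3, map_add, map_add]
    ext1 w
    simp only [LinearMap.add_apply, LinearMap.smul_apply, LinearMap.mulLeft_apply, add_smul,
      add_mul]
    abel
  · rintro t a ⟨h1, h2⟩
    refine ⟨?_, by rw [map_smul, h2, smul_zero]⟩
    rw [map_smul, h1, map_smul, map_smul]
    ext1 w
    simp only [LinearMap.add_apply, LinearMap.smul_apply, LinearMap.mulLeft_apply, smul_add,
      smul_mul_assoc, smul_smul, smul_eq_mul]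
  · rintro a b ⟨h1, h2⟩ ⟨h3, h4⟩
    have h5 : ∀ w, rr (a * b - b * a) w = (cf [(0 : Fin 2)] a • dl (kap b) -
        cf [(0 : Fin 2)] b • dl (kap a) + kap a * kap b - kap b * kap a) * w := by
      intro w
      rw [map_sub, map_mul, map_mul, LinearMap.sub_apply, Module.End.mul_apply,
        Module.End.mul_apply, h1, h3]
      simp only [LinearMap.add_apply, LinearMap.smul_apply, LinearMap.mulLeft_apply, map_add,
        map_smul, dl_mul, add_mul, sub_mul, smul_add, smul_mul_assoc,
        mul_assoc]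
      rw [smul_comm (cf [(0 : Fin 2)] a) (cf [(0 : Fin 2)] b)]
      abel
    have h6 : cf [(0 : Fin 2)] (a * b - b * a) = 0 := by
      rw [map_sub, ← cf_J, ← cf_J, J_mul, J_mul, h2, h4, zero_smul, zero_smul, add_zero, add_zero,
        cf_nil_mul, cf_nil_mul, h2, h4]
      ring
    refine ⟨?_, by rw [map_sub, cf_nil_mul, cf_nil_mul, h2, h4]; ring⟩
    ext1 w
    rw [h6, zero_smul, zero_add, LinearMap.mulLeft_apply, kap_eq, h5, h5, mul_one]
  · refine ⟨?_, cf_nil_ι _⟩
    have h1 : cf [(0 : Fin 2)] xx = 1 := by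
      have h : xx = wd [(0 : Fin 2)] := by simp [xx]
      rw [h, cf_wd, if_pos rfl]
    have h2 : kap xx = 0 := by rw [kap_eq, rr_xx, dl_one]
    rw [rr_xx, h1, h2, one_smul]
    ext1 w
    simp
  · refine ⟨?_, cf_nil_ι _⟩
    have h1 : cf [(0 : Fin 2)] yy = 0 := by
      have h : yy = wd [(1 : Fin 2)] := by simp [yy]
      rw [h, cf_wd, if_neg (by decide)]
    have h2 : kap yy = e 0 := by rw [kap_eq, rr_yy, LinearMap.mulLeft_apply, mul_one]
    rw [rr_yy, h1, h2, zero_smul, zero_add]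

theorem DD_dl (g b : FreeAlgebra ℚ ℕ) : DD g (dl b) = dl (DD g b) := by
  have h : DD g * dl - dl * DD g = 0 := by
    refine der_unique (fun u v => ?_) (fun u v => by simp) (fun k => ?_)
    · simp only [LinearMap.sub_apply, Module.End.mul_apply, dl_mul, DD, der_mul, map_add]
      noncomm_ring
    · simp only [LinearMap.sub_apply, Module.End.mul_apply, LinearMap.zero_apply]
      rw [DD, dl, der_ι, der_ι, der_ι, ← dl, pow_succ', Module.End.mul_apply, sub_self]
  have h1 := LinearMap.congr_fun h b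
  rw [LinearMap.sub_apply, Module.End.mul_apply, Module.End.mul_apply, LinearMap.zero_apply,
    sub_eq_zero] at h1
  exact h1

theorem act_dl (g b : FreeAlgebra ℚ ℕ) : act g (dl b) = dl (act g b) - dl g * b := by
  rw [act_apply, act_apply, DD_dl, map_add, dl_mul]
  abel

theorem act_e0 (g b : FreeAlgebra ℚ ℕ) : act g (e 0 * b) = e 0 * act g b := by
  rw [act_apply, act_apply, DD, der_mul, der_ι, pow_zero, Module.End.one_apply]
  noncomm_ring

/-- The coordinate map intertwines the Ihara action with `act`. -/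
theorem kap_Sr {ψ : A2} (hψ : rr ψ = LinearMap.mulLeft ℚ (kap ψ)) (w : A2) :
    kap (Sr ψ w) = act (kap ψ) (kap w) := by
  induction w using ind_wd with
  | h0 => simp
  | ha a b h1 h2 => rw [map_add, map_add, h1, h2, map_add, map_add]
  | hs c a h1 => rw [map_smul, map_smul, h1, map_smul, map_smul]
  | hw w =>
    induction w with
    | nil => rw [wd_nil, Sr_one, kap_one, act_apply, mul_one, DD, der_one, add_zero]
    | cons i w ih =>
      rw [wd_cons]
      fin_cases i
      · have h1 : Sr ψ (xx * wd w) = xx * Sr ψ (wd w) + (ψ * xx - xx * ψ) * wd w := by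
          rw [Sr_apply, Sr_apply, Dr_mul, Dr_xx]
          noncomm_ring
        have h2 : kap (xx * wd w) = dl (kap (wd w)) := by rw [kap_mul, rr_xx]
        show kap (Sr ψ (xx * wd w)) = act (kap ψ) (kap (xx * wd w))
        rw [h1, h2, map_add, kap_mul, kap_mul, rr_xx, ih, act_dl, map_sub, map_mul, map_mul, rr_xx,
          hψ]
        simp only [LinearMap.sub_apply, Module.End.mul_apply, LinearMap.mulLeft_apply, dl_mul]
        abel
      · have h1 : Sr ψ (yy * wd w) = yy * Sr ψ (wd w) := by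
          rw [Sr_apply, Sr_apply, Dr_mul, Dr_yy]
          noncomm_ring
        have h2 : kap (yy * wd w) = e 0 * kap (wd w) := by
          rw [kap_mul, rr_yy, LinearMap.mulLeft_apply]
        show kap (Sr ψ (yy * wd w)) = act (kap ψ) (kap (yy * wd w))
        rw [h1, h2, kap_mul, rr_yy, ih, act_e0, LinearMap.mulLeft_apply]

/-- The word `x^(k-1) y` of length `k`. -/
def xy (k : ℕ) : List (Fin 2) := List.replicate (k - 1) 0 ++ [1]

/-- The statement about the value on a word. -/
def KapOK (w : List (Fin 2)) : Prop :=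
  (w = xy w.length → kap (wd w) = e (w.length - 1)) ∧
    (w ≠ xy w.length → kap (wd w) ∈ Fil ℕ 2) ∧ kap (wd w) ∈ Fil ℕ 1

theorem xy_succ (k : ℕ) : xy (k + 2) = 0 :: xy (k + 1) := by
  show List.replicate (k + 1) (0 : Fin 2) ++ [1] = 0 :: (List.replicate k (0 : Fin 2) ++ [1])
  rw [List.replicate_succ, List.cons_append]

theorem dl_Fil {k : ℕ} {b : FreeAlgebra ℚ ℕ} (hb : b ∈ Fil ℕ k) : dl b ∈ Fil ℕ k := by
  have := dl_pow_Fil 1 hb
  rwa [pow_one] at this

theorem KapOK_zero (w : List (Fin 2)) (hw : w ≠ [] → KapOK w) : KapOK (0 :: w) := by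
  have h2 : kap (wd ((0 : Fin 2) :: w)) = dl (kap (wd w)) := by
    rw [wd_cons]; show kap (xx * wd w) = _; rw [kap_mul, rr_xx]
  cases w with
  | nil =>
    rw [KapOK, h2, wd_nil, kap_one, dl_one]
    refine ⟨fun h => ?_, fun _ => Submodule.zero_mem _, Submodule.zero_mem _⟩
    exact absurd h (by decide)
  | cons j v =>
    obtain ⟨h3, h4, h5⟩ := hw (by simp)
    have hl : ((0 : Fin 2) :: j :: v).length = v.length + 2 := rfl
    have hl' : (j :: v).length = v.length + 1 := rfl
    rw [hl'] at h3 h4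
    rw [KapOK, h2, hl, xy_succ]
    refine ⟨fun h => ?_, fun h => ?_, dl_Fil h5⟩
    · rw [h3 (List.cons.inj h).2, dl, der_ι]
      rfl
    · refine dl_Fil (h4 (fun h6 => h ?_))
      rw [← h6]

theorem KapOK_one (w : List (Fin 2)) (hw : w ≠ [] → KapOK w) : KapOK (1 :: w) := by
  have h2 : kap (wd ((1 : Fin 2) :: w)) = e 0 * kap (wd w) := by
    rw [wd_cons]; show kap (yy * wd w) = _
    rw [kap_mul, rr_yy, LinearMap.mulLeft_apply]
  cases w with
  | nil =>
    rw [KapOK, h2, wd_nil, kap_one, mul_one]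
    exact ⟨fun _ => rfl, fun h => absurd rfl h, Hom_le_Fil 1 (ι_Hom 0)⟩
  | cons j v =>
    obtain ⟨h3, h4, h5⟩ := hw (by simp)
    have h6 : e 0 * kap (wd (j :: v)) ∈ Fil ℕ 2 := Fil_mul (Hom_le_Fil 1 (ι_Hom 0)) h5
    have hl : ((1 : Fin 2) :: j :: v).length = v.length + 2 := rfl
    rw [KapOK, h2, hl, xy_succ]
    refine ⟨fun h => ?_, fun _ => h6, Fil_anti (by norm_num) h6⟩
    exact absurd (List.cons.inj h).1 (by decide)

/-- Values on words. -/
theorem kap_wd : ∀ w : List (Fin 2), w ≠ [] → KapOK w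
  | [], h => absurd rfl h
  | i :: w, _ => by
    have ih := kap_wd w
    rcases (by omega : i = 0 ∨ i = 1) with rfl | rfl
    · exact KapOK_zero w ih
    · exact KapOK_one w ih

end Pool.Agent.W_cf9a97_h77
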