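import Pool.Agent.W_cf9a97_h77.Core

/-!
# The key lemma

If `t ≤ m + 1` distinct exponents `a l ≥ m` are given and `∑ l, act (e (a l)) (b l)` has no word
beginning with a letter `≤ m`, where the `b l` are homogeneous of length `i ≥ 1`, then all `b l`
vanish.
-/

set_option autoImplicit false

namespace Pool.Agent.W_cf9a97_h77

open FreeAlgebra

/-- Binomial Vandermonde. -/
theorem vander {κ : Type*} (S : Finset κ) (x : κ → ℕ) (hx : Set.InjOn x (S : Set κ)) (v : κ → ℚ)
    (h : ∀ s < S.card, ∑ l ∈ S, (Nat.choose (x l) s : ℚ) * v l = 0) : ∀ l ∈ S, v l = 0 := by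
  classical
  let E := S.equivFin
  let f : Fin S.card → ℚ := fun i => (x (E.symm i) : ℚ)
  have hf : Function.Injective f := by
    intro i j hij
    have h0 : (x (E.symm i) : ℚ) = (x (E.symm j) : ℚ) := hij
    have h1 : x (E.symm i) = x (E.symm j) := by exact_mod_cast h0
    have h2 := hx (E.symm i).2 (E.symm j).2 h1
    exact E.symm.injective (Subtype.ext h2)
  let M : Matrix (Fin S.card) (Fin S.card) ℚ :=
    Matrix.of fun i j => (descPochhammer ℚ j).eval (f i)
  have hdet : M.det ≠ 0 := by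
    have h1 := Matrix.det_eval_matrixOfPolynomials_eq_det_vandermonde f
      (fun j : Fin S.card => descPochhammer ℚ j) (fun j => descPochhammer_natDegree ℚ j)
      (fun j => monic_descPochhammer ℚ j)
    rw [← h1]
    exact Matrix.det_vandermonde_ne_zero_iff.2 hf
  have hv : Matrix.vecMul (fun i => v (E.symm i)) M = 0 := by
    funext j
    rw [Matrix.vecMul, dotProduct, Pi.zero_apply]
    have h2 := h j j.2
    have h3 : ∑ i : Fin S.card, v (E.symm i) * M i j =
        ∑ l ∈ S, (Nat.factorial j : ℚ) * ((Nat.choose (x l) j : ℚ) * v l) := by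
      rw [← Finset.sum_coe_sort S, ← E.symm.sum_comp]
      refine Finset.sum_congr rfl (fun i _ => ?_)
      have h4 : M i j = (Nat.factorial j : ℚ) * (Nat.choose (x (E.symm i)) j : ℚ) := by
        show (descPochhammer ℚ j).eval (x (E.symm i) : ℚ) = _
        rw [descPochhammer_eval_eq_descFactorial, Nat.descFactorial_eq_factorial_mul_choose]
        push_cast
        rfl
      rw [h4]
      ring
    rw [h3, ← Finset.mul_sum, h2, mul_zero]
  have h0 := Matrix.eq_zero_of_vecMul_eq_zero hdet hv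
  intro l hl
  have h5 := congrFun h0 (E ⟨l, hl⟩)
  simpa using h5

/-- Elements all of whose words have length `i`. -/
def Hom (X : Type*) (i : ℕ) : Submodule ℚ (FreeAlgebra ℚ X) where
  carrier := {b | ∀ w : List X, w.length ≠ i → cf w b = 0}
  zero_mem' := fun w _ => map_zero _
  add_mem' := fun {a b} ha hb w hw => by rw [map_add, ha w hw, hb w hw, add_zero]
  smul_mem' := fun c a ha w hw => by rw [map_smul, ha w hw, smul_zero]

theorem mem_Hom {X : Type*} {i : ℕ} {b : FreeAlgebra ℚ X} :
    b ∈ Hom X i ↔ ∀ w : List X, w.length ≠ i → cf w b = 0 := Iff.rfl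

section
variable {X : Type*} [DecidableEq X]

theorem J_Hom {i : ℕ} {b : FreeAlgebra ℚ X} (hb : b ∈ Hom X (i + 1)) (x : X) :
    J x b ∈ Hom X i := by
  intro w hw
  rw [cf_J]
  exact hb _ (by simpa using hw)

theorem eq_zero_of_J {i : ℕ} {b : FreeAlgebra ℚ X} (hb : b ∈ Hom X (i + 1))
    (h : ∀ x, J x b = 0) : b = 0 := by
  apply ext_cf
  intro w
  rw [map_zero]
  cases w with
  | nil => exact hb _ (by simp)
  | cons x w => rw [← cf_J, h, map_zero]

theorem Hom_zero {b : FreeAlgebra ℚ X} (hb : b ∈ Hom X 0) : b = cf [] b • 1 := by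
  apply ext_cf
  intro w
  rw [map_smul, ← wd_nil, cf_wd]
  by_cases h : w = []
  · subst h; simp
  · rw [hb w (by simpa using h), if_neg (fun h' => h h'.symm), smul_zero]

omit [DecidableEq X] in
theorem cf_nil_Hom {i : ℕ} {b : FreeAlgebra ℚ X} (hb : b ∈ Hom X (i + 1)) : cf [] b = 0 :=
  hb [] (by simp)

end

theorem DD_Hom_zero (g : FreeAlgebra ℚ ℕ) {b : FreeAlgebra ℚ ℕ} (hb : b ∈ Hom ℕ 0) :
    DD g b = 0 := by
  rw [Hom_zero hb, map_smul, DD, der_one, smul_zero]

/-- Leading letters of `K a s b`. -/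
theorem J_K (a s q : ℕ) (hs : s ≤ a) (b : FreeAlgebra ℚ ℕ) :
    J q (K a s b) = if a ≤ q + s then (Nat.choose (q + s - a) s : ℚ) • J (q + s - a) b else 0 := by
  induction b using ind_wd with
  | h0 => simp
  | ha b c hb hc =>
    rw [map_add, map_add, map_add, hb, hc]
    split_ifs
    · rw [smul_add]
    · rw [add_zero]
  | hs t b hb =>
    rw [map_smul, map_smul, map_smul, hb]
    split_ifs
    · rw [smul_comm]
    · rw [smul_zero]
  | hw w =>
    cases w with
    | nil => rw [wd_nil, K_one, map_zero, J_one, smul_zero, ite_self]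
    | cons r c =>
      rw [wd_cons, K_ι_mul, map_smul, J_ι_mul, J_ι_mul]
      by_cases h1 : a ≤ q + s
      · rw [if_pos h1]
        by_cases h2 : r = q + s - a
        · rw [if_pos h2, if_pos (by omega), h2]
        · rw [if_neg h2, if_neg (by omega), smul_zero, smul_zero]
      · rw [if_neg h1, if_neg (by omega), smul_zero]

/-- Leading letters `q ≤ a` of `K a s b`. -/
theorem J_K_low (a s q : ℕ) (hs : s ≤ a) (hq : q ≤ a) (b : FreeAlgebra ℚ ℕ) :
    J q (K a s b) = J q (e a * J s b) := by
  rw [J_K a s q hs, J_ι_mul]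
  by_cases h : a = q
  · subst h
    rw [if_pos (by omega), if_pos rfl]
    have : a + s - a = s := by omega
    rw [this, Nat.choose_self, Nat.cast_one, one_smul]
  · rw [if_neg h]
    split_ifs with h1
    · have h2 : q + s - a < s := by omega
      rw [Nat.choose_eq_zero_of_lt h2, Nat.cast_zero, zero_smul]
    · rfl

theorem key_last {κ : Type*} (S : Finset κ) (a : κ → ℕ) (ha : Set.InjOn a (S : Set κ)) (m : ℕ)
    (hm : ∀ l ∈ S, m ≤ a l) (hc : S.card ≤ m + 1) (i : ℕ) (b : κ → FreeAlgebra ℚ ℕ)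
    (hb : ∀ l ∈ S, b l ∈ Hom ℕ (i + 1))
    (h : ∀ s ≤ m, ∑ l ∈ S, K (a l) s (b l) = 0) : ∀ l ∈ S, b l = 0 := by
  classical
  intro l0 hl0
  refine eq_zero_of_J (hb l0 hl0) (fun r => ?_)
  apply ext_cf
  intro w
  rw [map_zero]
  set E := r + a l0 with hE
  let S' := S.filter (fun l => a l ≤ E)
  have hS' : S' ⊆ S := Finset.filter_subset _ _
  have hx : Set.InjOn (fun l => E - a l) (S' : Set κ) := by
    intro l hl l' hl' hll
    have h1 := (Finset.mem_filter.1 hl).2
    have h2 := (Finset.mem_filter.1 hl').2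
    have h3 : E - a l = E - a l' := hll
    exact ha (hS' hl) (hS' hl') (by omega)
  have hcard : S'.card ≤ m + 1 := (Finset.card_le_card hS').trans hc
  have hv := vander S' (fun l => E - a l) hx (fun l => cf w (J (E - a l) (b l))) (by
    intro s hs
    by_cases hsE : s ≤ E
    · have h1 := congrArg (fun z => cf w (J (E - s) z)) (h s (by omega))
      simp only [map_sum, map_zero] at h1
      rw [← h1, Finset.sum_filter]
      refine Finset.sum_congr rfl (fun l hl => ?_)
      rw [J_K (a l) s (E - s) (by have := hm l hl; omega)]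
      have h2 : E - s + s = E := by omega
      rw [h2]
      split_ifs
      · rw [map_smul, smul_eq_mul]
      · rw [map_zero]
    · refine Finset.sum_eq_zero (fun l hl => ?_)
      rw [Nat.choose_eq_zero_of_lt (by omega), Nat.cast_zero, zero_mul])
  have h4 := hv l0 (Finset.mem_filter.2 ⟨hl0, by omega⟩)
  have h5 : E - a l0 = r := by omega
  rwa [h5] at h4

/-- Key lemma. -/
theorem key {κ : Type*} (S : Finset κ) (a : κ → ℕ) (ha : Set.InjOn a (S : Set κ)) (m : ℕ)
    (hm : ∀ l ∈ S, m ≤ a l) (hc : S.card ≤ m + 1) : ∀ (i : ℕ) (b : κ → FreeAlgebra ℚ ℕ),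
    (∀ l ∈ S, b l ∈ Hom ℕ (i + 1)) →
    (∀ s ≤ m, J s (∑ l ∈ S, act (e (a l)) (b l)) = 0) → ∀ l ∈ S, b l = 0 := by
  intro i
  induction i with
  | zero =>
    intro b hb h
    refine key_last S a ha m hm hc 0 b hb (fun s hs => ?_)
    rw [← h s hs, map_sum]
    refine Finset.sum_congr rfl (fun l hl => ?_)
    rw [J_act (a l) s (hs.trans (hm l hl)), DD_Hom_zero _ (J_Hom (hb l hl) s),
      cf_nil_Hom (hb l hl), zero_smul, zero_add, add_zero]
  | succ i ih =>
    intro b hb h
    have h1 : ∀ s ≤ m, ∑ l ∈ S, (DD (e (a l)) (J s (b l)) + K (a l) s (b l)) = 0 := by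
      intro s hs
      rw [← h s hs, map_sum]
      refine Finset.sum_congr rfl (fun l hl => ?_)
      rw [J_act (a l) s (hs.trans (hm l hl)), cf_nil_Hom (hb l hl), zero_smul, add_zero]
    have h2 : ∀ s ≤ m, ∀ l ∈ S, J s (b l) = 0 := by
      intro s hs
      refine ih (fun l => J s (b l)) (fun l hl => J_Hom (hb l hl) s) (fun q hq => ?_)
      have h3 := congrArg (J q) (h1 s hs)
      rw [map_zero, map_sum] at h3
      rw [← h3, map_sum]
      refine Finset.sum_congr rfl (fun l hl => ?_)
      rw [act_apply, map_add, map_add,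
        J_K_low (a l) s q (hs.trans (hm l hl)) (hq.trans (hm l hl)), add_comm]
    refine key_last S a ha m hm hc (i + 1) b hb (fun s hs => ?_)
    rw [← h1 s hs]
    refine Finset.sum_congr rfl (fun l hl => ?_)
    rw [h2 s hs l hl, map_zero, zero_add]

end Pool.Agent.W_cf9a97_h77
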