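import Pool.Agent.W_cf9a97_h77.Lemma

/-!
# Supports, length filtration
-/

set_option autoImplicit false

namespace Pool.Agent.W_cf9a97_h77

open FreeAlgebra

variable {X : Type*}

/-- Elements supported on the words satisfying `Q`. -/
def Sup (Q : List X → Prop) : Submodule ℚ (FreeAlgebra ℚ X) where
  carrier := {b | ∀ w : List X, ¬ Q w → cf w b = 0}
  zero_mem' := fun w _ => map_zero _
  add_mem' := fun {a b} ha hb w hw => by rw [map_add, ha w hw, hb w hw, add_zero]
  smul_mem' := fun c a ha w hw => by rw [map_smul, ha w hw, smul_zero]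

theorem mem_Sup {Q : List X → Prop} {b : FreeAlgebra ℚ X} :
    b ∈ Sup Q ↔ ∀ w : List X, ¬ Q w → cf w b = 0 := Iff.rfl

theorem Hom_eq (i : ℕ) : Hom X i = Sup (fun w : List X => w.length = i) := rfl

theorem wd_mem_Sup {Q : List X → Prop} {w : List X} (h : Q w) : wd w ∈ Sup Q := by
  classical
  intro u hu
  rw [cf_wd, if_neg]
  rintro rfl
  exact hu h

theorem Sup_ind {Q : List X → Prop} {P : FreeAlgebra ℚ X → Prop} (h0 : P 0)
    (ha : ∀ a b, P a → P b → P (a + b)) (hs : ∀ (c : ℚ) a, P a → P (c • a))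
    (hw : ∀ w, Q w → P (wd w)) {b : FreeAlgebra ℚ X} (hb : b ∈ Sup Q) : P b := by
  have h1 := bas.linearCombination_repr b
  rw [← h1, Finsupp.linearCombination_apply, Finsupp.sum]
  have h2 : ∀ T : Finset (List X), (∀ w ∈ T, bas.repr b w ≠ 0) →
      P (∑ w ∈ T, (bas.repr b) w • bas w) := by
    classical
    intro T
    induction T using Finset.induction_on with
    | empty => intro _; simpa using h0
    | insert w T hwT ih =>
      intro hT
      rw [Finset.sum_insert hwT]
      refine ha _ _ (hs _ _ ?_) (ih (fun v hv => hT v (Finset.mem_insert_of_mem hv)))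
      rw [bas_apply]
      refine hw w ?_
      by_contra hQ
      exact hT w (Finset.mem_insert_self _ _) (hb w hQ)
  exact h2 _ (fun w hw' => Finsupp.mem_support_iff.1 hw')

theorem Sup_mono {Q R : List X → Prop} (h : ∀ w, Q w → R w) : Sup Q ≤ Sup R :=
  fun _ hb w hw => hb w (fun hq => hw (h w hq))

theorem Sup_mul {P Q R : List X → Prop} (h : ∀ u v, P u → Q v → R (u ++ v))
    {a b : FreeAlgebra ℚ X} (ha : a ∈ Sup P) (hb : b ∈ Sup Q) : a * b ∈ Sup R := by
  refine Sup_ind (P := fun a => a * b ∈ Sup R) ?_ ?_ ?_ ?_ ha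
  · rw [zero_mul]; exact Submodule.zero_mem _
  · intro a a' h1 h2; rw [add_mul]; exact Submodule.add_mem _ h1 h2
  · intro c a h1; rw [smul_mul_assoc]; exact Submodule.smul_mem _ _ h1
  · intro u hu
    refine Sup_ind (P := fun b => wd u * b ∈ Sup R) ?_ ?_ ?_ ?_ hb
    · rw [mul_zero]; exact Submodule.zero_mem _
    · intro a a' h1 h2; rw [mul_add]; exact Submodule.add_mem _ h1 h2
    · intro c a h1; rw [mul_smul_comm]; exact Submodule.smul_mem _ _ h1
    · intro v hv
      rw [← wd_append]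
      exact wd_mem_Sup (h u v hu hv)

/-- Words of length at least `k`. -/
def Fil (X : Type*) (k : ℕ) : Submodule ℚ (FreeAlgebra ℚ X) := Sup (fun w : List X => k ≤ w.length)

theorem Fil_mul {i j : ℕ} {a b : FreeAlgebra ℚ X} (ha : a ∈ Fil X i) (hb : b ∈ Fil X j) :
    a * b ∈ Fil X (i + j) :=
  Sup_mul (fun u v hu hv => by rw [List.length_append]; omega) ha hb

theorem Hom_mul {i j : ℕ} {a b : FreeAlgebra ℚ X} (ha : a ∈ Hom X i) (hb : b ∈ Hom X j) :
    a * b ∈ Hom X (i + j) :=
  Sup_mul (P := fun w => w.length = i) (Q := fun w => w.length = j)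
    (R := fun w => w.length = i + j)
    (fun u v hu hv => by rw [List.length_append]; omega) ha hb

theorem Hom_le_Fil (i : ℕ) : Hom X i ≤ Fil X i :=
  Sup_mono (fun _ hw => le_of_eq hw.symm)

theorem Fil_anti {i j : ℕ} (h : i ≤ j) : Fil X j ≤ Fil X i :=
  Sup_mono (fun _ hw => h.trans hw)

theorem eq_zero_of_Hom_Fil {i : ℕ} {b : FreeAlgebra ℚ X} (h1 : b ∈ Hom X i)
    (h2 : b ∈ Fil X (i + 1)) : b = 0 := by
  apply ext_cf
  intro w
  rw [map_zero]
  by_cases h : w.length = i
  · exact h2 w (by omega)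
  · exact h1 w h

theorem ι_Hom (x : X) : (ι ℚ x : FreeAlgebra ℚ X) ∈ Hom X 1 := by
  have h : (ι ℚ x : FreeAlgebra ℚ X) = wd [x] := by simp
  rw [h]
  exact wd_mem_Sup (Q := fun w => w.length = 1) (by simp)

theorem one_Hom : (1 : FreeAlgebra ℚ X) ∈ Hom X 0 := by
  rw [← wd_nil]
  exact wd_mem_Sup (Q := fun w => w.length = 0) (by simp)

theorem der_Hom (g : X → FreeAlgebra ℚ X) (d : ℕ) (hg : ∀ x, g x ∈ Hom X (1 + d)) {k : ℕ}
    {b : FreeAlgebra ℚ X} (hb : b ∈ Hom X k) : der g b ∈ Hom X (k + d) := by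
  refine Sup_ind (Q := fun w => w.length = k) (P := fun b => der g b ∈ Hom X (k + d))
    ?_ ?_ ?_ ?_ hb
  · rw [map_zero]; exact Submodule.zero_mem _
  · intro a a' h1 h2; rw [map_add]; exact Submodule.add_mem _ h1 h2
  · intro c a h1; rw [map_smul]; exact Submodule.smul_mem _ _ h1
  · intro w hw
    subst hw
    clear hb
    induction w with
    | nil => rw [wd_nil, der_one]; exact Submodule.zero_mem _
    | cons x w ih =>
      rw [wd_cons, der_mul, der_ι]
      refine Submodule.add_mem _ ?_ ?_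
      · have := Hom_mul (ι_Hom x) ih
        have h2 : 1 + (w.length + d) = (x :: w).length + d := by simp; omega
        rwa [h2] at this
      · have hw : wd w ∈ Hom X w.length := wd_mem_Sup (Q := fun v => v.length = w.length) rfl
        have := Hom_mul (hg x) hw
        have h2 : 1 + d + w.length = (x :: w).length + d := by simp; omega
        rwa [h2] at this

theorem der_Fil (g : X → FreeAlgebra ℚ X) (d : ℕ) (hg : ∀ x, g x ∈ Fil X (1 + d)) {k : ℕ}
    {b : FreeAlgebra ℚ X} (hb : b ∈ Fil X k) : der g b ∈ Fil X (k + d) := by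
  refine Sup_ind (Q := fun w => k ≤ w.length) (P := fun b => der g b ∈ Fil X (k + d))
    ?_ ?_ ?_ ?_ hb
  · rw [map_zero]; exact Submodule.zero_mem _
  · intro a a' h1 h2; rw [map_add]; exact Submodule.add_mem _ h1 h2
  · intro c a h1; rw [map_smul]; exact Submodule.smul_mem _ _ h1
  · intro w hw
    have h3 : der g (wd w) ∈ Fil X (w.length + d) := by
      clear hw
      induction w with
      | nil => rw [wd_nil, der_one]; exact Submodule.zero_mem _
      | cons x w ih =>
        rw [wd_cons, der_mul, der_ι]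
        refine Submodule.add_mem _ ?_ ?_
        · have := Fil_mul (Hom_le_Fil 1 (ι_Hom x)) ih
          have h2 : 1 + (w.length + d) = (x :: w).length + d := by simp; omega
          rwa [h2] at this
        · have hw : wd w ∈ Hom X w.length := wd_mem_Sup (Q := fun v => v.length = w.length) rfl
          have := Fil_mul (hg x) (Hom_le_Fil _ hw)
          have h2 : 1 + d + w.length = (x :: w).length + d := by simp; omega
          rwa [h2] at this
    exact Fil_anti (by omega) h3

theorem dl_pow_Hom (n : ℕ) {k : ℕ} {b : FreeAlgebra ℚ ℕ} (hb : b ∈ Hom ℕ k) :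
    (dl ^ n) b ∈ Hom ℕ k := by
  induction n with
  | zero => exact hb
  | succ n ih =>
    rw [pow_succ', Module.End.mul_apply]
    exact der_Hom _ 0 (fun x => ι_Hom (x + 1)) ih

theorem dl_pow_Fil (n : ℕ) {k : ℕ} {b : FreeAlgebra ℚ ℕ} (hb : b ∈ Fil ℕ k) :
    (dl ^ n) b ∈ Fil ℕ k := by
  induction n with
  | zero => exact hb
  | succ n ih =>
    rw [pow_succ', Module.End.mul_apply]
    exact der_Fil _ 0 (fun x => Hom_le_Fil 1 (ι_Hom (x + 1))) ih

theorem act_Fil {g b : FreeAlgebra ℚ ℕ} {d k : ℕ} (hg : g ∈ Fil ℕ d) (hb : b ∈ Fil ℕ k) :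
    act g b ∈ Fil ℕ (k + d) := by
  rw [act_apply]
  refine Submodule.add_mem _ ?_ ?_
  · rw [add_comm k d]; exact Fil_mul hg hb
  · refine der_Fil _ d (fun n => dl_pow_Fil n ?_) hb
    refine Submodule.sub_mem _ (Fil_mul (Hom_le_Fil 1 (ι_Hom 0)) hg) ?_
    rw [add_comm 1 d]
    exact Fil_mul hg (Hom_le_Fil 1 (ι_Hom 0))

theorem act_Hom {g b : FreeAlgebra ℚ ℕ} {d k : ℕ} (hg : g ∈ Hom ℕ d) (hb : b ∈ Hom ℕ k) :
    act g b ∈ Hom ℕ (k + d) := by
  rw [act_apply]
  refine Submodule.add_mem _ ?_ ?_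
  · rw [add_comm k d]; exact Hom_mul hg hb
  · refine der_Hom _ d (fun n => dl_pow_Hom n ?_) hb
    refine Submodule.sub_mem _ (Hom_mul (ι_Hom 0) hg) ?_
    rw [add_comm 1 d]
    exact Hom_mul hg (ι_Hom 0)

theorem act_add (g h b : FreeAlgebra ℚ ℕ) : act (g + h) b = act g b + act h b := by
  have h1 : DD (g + h) = DD g + DD h := by
    refine der_unique (fun a b => der_mul _ a b) (fun a b => ?_) (fun x => ?_)
    · rw [LinearMap.add_apply, LinearMap.add_apply, LinearMap.add_apply, DD, DD, der_mul, der_mul,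
        mul_add, add_mul]
      abel
    · rw [LinearMap.add_apply, DD, DD, DD, der_ι, der_ι, der_ι, ← map_add]
      congr 1
      rw [mul_add, add_mul]
      abel
  rw [act_apply, act_apply, act_apply, h1, LinearMap.add_apply, add_mul]
  abel

theorem act_smul (c : ℚ) (g b : FreeAlgebra ℚ ℕ) : act (c • g) b = c • act g b := by
  have h1 : DD (c • g) = c • DD g := by
    refine der_unique (fun a b => der_mul _ a b) (fun a b => ?_) (fun x => ?_)
    · rw [LinearMap.smul_apply, LinearMap.smul_apply, LinearMap.smul_apply, DD, der_mul,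
        mul_smul_comm, smul_mul_assoc, smul_add]
    · rw [LinearMap.smul_apply, DD, DD, der_ι, der_ι, ← map_smul]
      congr 1
      rw [mul_smul_comm, smul_mul_assoc, smul_sub]
  rw [act_apply, act_apply, h1, LinearMap.smul_apply, smul_mul_assoc, smul_add]

end Pool.Agent.W_cf9a97_h77
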