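import Pool.Agent.W_cf9a97_h77.Indep

/-!
# The free Lie algebra over the rational numbers embeds into the free associative algebra

Proof of Dynkin, Specht and Wever: right normed bracketing composed with the embedding is the
derivation which is the identity on the generators.
-/

set_option autoImplicit false

namespace Pool.Agent.W_cf9a97_h77

open FreeAlgebra

attribute [local instance 100] LieRing.ofAssociativeRing

variable {X : Type*}

/-- The canonical map. -/
noncomputable def emb (X : Type*) : FreeLieAlgebra ℚ X →ₗ⁅ℚ⁆ FreeAlgebra ℚ X :=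
  FreeLieAlgebra.lift ℚ (FreeAlgebra.ι ℚ)

theorem emb_of (x : X) : emb X (FreeLieAlgebra.of ℚ x) = FreeAlgebra.ι ℚ x :=
  FreeLieAlgebra.lift_of_apply _ _

/-- Right normed bracketing of a word. -/
noncomputable def rnb : List X → FreeLieAlgebra ℚ X
  | [] => 0
  | [x] => FreeLieAlgebra.of ℚ x
  | x :: y :: w => ⁅FreeLieAlgebra.of ℚ x, rnb (y :: w)⁆

/-- Right normed bracketing. -/
noncomputable def rho (X : Type*) : FreeAlgebra ℚ X →ₗ[ℚ] FreeLieAlgebra ℚ X := lin rnb

/-- The adjoint action of the free associative algebra. -/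
noncomputable def adh (X : Type*) : FreeAlgebra ℚ X →ₐ[ℚ] Module.End ℚ (FreeLieAlgebra ℚ X) :=
  FreeAlgebra.lift ℚ (fun x => LieAlgebra.ad ℚ (FreeLieAlgebra ℚ X) (FreeLieAlgebra.of ℚ x))

theorem adh_emb (a : FreeLieAlgebra ℚ X) :
    adh X (emb X a) = LieAlgebra.ad ℚ (FreeLieAlgebra ℚ X) a := by
  have h : ((adh X : FreeAlgebra ℚ X →ₐ[ℚ] Module.End ℚ (FreeLieAlgebra ℚ X)) :
      FreeAlgebra ℚ X →ₗ⁅ℚ⁆ Module.End ℚ (FreeLieAlgebra ℚ X)).comp (emb X) =
      LieAlgebra.ad ℚ (FreeLieAlgebra ℚ X) := by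
    apply FreeLieAlgebra.hom_ext
    intro x
    rw [LieHom.comp_apply, emb_of]
    show adh X (ι ℚ x) = _
    rw [adh, FreeAlgebra.lift_ι_apply]
  exact LieHom.congr_fun h a

theorem rho_mul [DecidableEq X] (u v : FreeAlgebra ℚ X) :
    rho X (u * v) = adh X u (rho X v) + cf [] v • rho X u := by
  induction u using ind_wd with
  | h0 => simp
  | ha a b ha hb =>
    rw [add_mul, map_add, ha, hb, map_add, map_add, LinearMap.add_apply, smul_add]; abel
  | hs q a ha =>
    rw [smul_mul_assoc, map_smul, ha, map_smul, map_smul, LinearMap.smul_apply, smul_add,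
      smul_comm q]
  | hw w =>
    induction v using ind_wd with
    | h0 => simp
    | ha a b ha hb => rw [mul_add, map_add, ha, hb, map_add, map_add, map_add, add_smul]; abel
    | hs q a ha =>
      rw [mul_smul_comm, map_smul, ha, map_smul, map_smul, map_smul, smul_add, smul_eq_mul,
        mul_smul]
    | hw v =>
      cases v with
      | nil =>
        rw [cf_wd, if_pos rfl, one_smul, wd_nil, mul_one]
        have : rho X (1 : FreeAlgebra ℚ X) = 0 := by rw [← wd_nil, rho, lin_wd, rnb]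
        rw [this, map_zero, zero_add]
      | cons y v =>
        rw [cf_wd, if_neg (by simp), zero_smul, add_zero]
        induction w with
        | nil => rw [wd_nil, one_mul, map_one (adh X), Module.End.one_apply]
        | cons x w ih =>
          rw [wd_cons, mul_assoc, map_mul (adh X), Module.End.mul_apply, ← ih]
          rw [← wd_append, ← wd_cons, rho, lin_wd, lin_wd]
          rw [adh, FreeAlgebra.lift_ι_apply, LieAlgebra.ad_apply]
          cases w with
          | nil => rfl
          | cons z w => rfl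

/-- Induction in the free Lie algebra. -/
theorem FL_ind {P : FreeLieAlgebra ℚ X → Prop} (h0 : P 0) (ha : ∀ a b, P a → P b → P (a + b))
    (hs : ∀ (c : ℚ) a, P a → P (c • a)) (hl : ∀ a b, P a → P b → P ⁅a, b⁆)
    (ho : ∀ x, P (FreeLieAlgebra.of ℚ x)) (a : FreeLieAlgebra ℚ X) : P a := by
  let L : LieSubalgebra ℚ (FreeLieAlgebra ℚ X) :=
    { carrier := {a | P a}
      zero_mem' := h0
      add_mem' := fun {a b} h1 h2 => ha a b h1 h2
      smul_mem' := fun c a h => hs c a h
      lie_mem' := fun {a b} h1 h2 => hl a b h1 h2 }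
  let f : FreeLieAlgebra ℚ X →ₗ⁅ℚ⁆ L := FreeLieAlgebra.lift ℚ (fun x => ⟨FreeLieAlgebra.of ℚ x, ho x⟩)
  have h : L.incl.comp f = LieHom.id := by
    apply FreeLieAlgebra.hom_ext
    intro x
    rw [LieHom.comp_apply, FreeLieAlgebra.lift_of_apply]
    rfl
  have h1 := LieHom.congr_fun h a
  have h2 : (f a : FreeLieAlgebra ℚ X) = a := h1
  rw [← h2]
  exact (f a).2

theorem cf_nil_emb [DecidableEq X] (a : FreeLieAlgebra ℚ X) : cf [] (emb X a) = 0 := by
  induction a using FL_ind with
  | h0 => simp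
  | ha a b h1 h2 => rw [map_add, map_add, h1, h2, add_zero]
  | hs c a h1 => rw [map_smul, map_smul, h1, smul_zero]
  | hl a b h1 h2 =>
    rw [LieHom.map_lie, LieRing.of_associative_ring_bracket, map_sub, cf_nil_mul, cf_nil_mul, h1,
      h2]
    ring
  | ho x => rw [emb_of, cf_nil_ι]

/-- The Euler derivation. -/
noncomputable def eul (X : Type*) : Module.End ℚ (FreeLieAlgebra ℚ X) :=
  rho X ∘ₗ (emb X : FreeLieAlgebra ℚ X →ₗ[ℚ] FreeAlgebra ℚ X)

theorem eul_lie [DecidableEq X] (a b : FreeLieAlgebra ℚ X) :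
    eul X ⁅a, b⁆ = ⁅a, eul X b⁆ + ⁅eul X a, b⁆ := by
  show rho X (emb X ⁅a, b⁆) = ⁅a, rho X (emb X b)⁆ + ⁅rho X (emb X a), b⁆
  rw [LieHom.map_lie, LieRing.of_associative_ring_bracket, map_sub, rho_mul, rho_mul, cf_nil_emb,
    cf_nil_emb, adh_emb, adh_emb, LieAlgebra.ad_apply, LieAlgebra.ad_apply, zero_smul, zero_smul,
    add_zero, add_zero, ← lie_skew b, sub_neg_eq_add]

theorem eul_of (x : X) : eul X (FreeLieAlgebra.of ℚ x) = FreeLieAlgebra.of ℚ x := by
  show rho X (emb X (FreeLieAlgebra.of ℚ x)) = _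
  rw [emb_of]
  have h : (ι ℚ x : FreeAlgebra ℚ X) = wd [x] := by simp
  rw [h, rho, lin_wd, rnb]

theorem eul_top [DecidableEq X] (a : FreeLieAlgebra ℚ X) :
    a ∈ ⨆ n : ℕ, Module.End.eigenspace (eul X) ((n : ℚ) + 1) := by
  induction a using FL_ind with
  | h0 => exact Submodule.zero_mem _
  | ha a b h1 h2 => exact Submodule.add_mem _ h1 h2
  | hs c a h1 => exact Submodule.smul_mem _ _ h1
  | hl a b h1 h2 =>
    refine Submodule.iSup_induction (fun n : ℕ => Module.End.eigenspace (eul X) ((n : ℚ) + 1))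
      (motive := fun a => ⁅a, b⁆ ∈ ⨆ n : ℕ, Module.End.eigenspace (eul X) ((n : ℚ) + 1)) h1
      (fun i a ha => ?_) (by rw [zero_lie]; exact Submodule.zero_mem _)
      (fun a a' h3 h4 => by rw [add_lie]; exact Submodule.add_mem _ h3 h4)
    refine Submodule.iSup_induction (fun n : ℕ => Module.End.eigenspace (eul X) ((n : ℚ) + 1))
      (motive := fun b => ⁅a, b⁆ ∈ ⨆ n : ℕ, Module.End.eigenspace (eul X) ((n : ℚ) + 1)) h2
      (fun j b hb => ?_) (by rw [lie_zero]; exact Submodule.zero_mem _)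
      (fun a a' h3 h4 => by rw [lie_add]; exact Submodule.add_mem _ h3 h4)
    refine Submodule.mem_iSup_of_mem (i + j + 1) ?_
    rw [Module.End.mem_eigenspace_iff] at ha hb ⊢
    rw [eul_lie, ha, hb, lie_smul, smul_lie, ← add_smul]
    congr 1
    push_cast
    ring
  | ho x =>
    refine Submodule.mem_iSup_of_mem 0 ?_
    rw [Module.End.mem_eigenspace_iff, eul_of]
    simp

/-- Witt's theorem over the rational numbers. -/
theorem emb_injective (X : Type*) : Function.Injective (emb X) := by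
  classical
  rw [injective_iff_map_eq_zero]
  intro a ha
  have h1 : eul X a = 0 := by
    show rho X (emb X a) = 0
    rw [ha, map_zero]
  have h2 : a ∈ Module.End.eigenspace (eul X) 0 := by
    rw [Module.End.mem_eigenspace_iff, h1, zero_smul]
  have h3 := (eul X).eigenspaces_iSupIndep 0
  have h4 : a ∈ ⨆ (j : ℚ) (_ : j ≠ 0), Module.End.eigenspace (eul X) j := by
    refine (iSup_le (fun n : ℕ => ?_) : (⨆ n : ℕ, Module.End.eigenspace (eul X) ((n : ℚ) + 1)) ≤
      ⨆ (j : ℚ) (_ : j ≠ 0), Module.End.eigenspace (eul X) j) (eul_top a)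
    exact le_iSup₂_of_le ((n : ℚ) + 1) (by positivity) le_rfl
  exact Submodule.disjoint_def.1 h3 a h2 h4

end Pool.Agent.W_cf9a97_h77
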